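import Pool.Agent.Lib.MP_cfac74_al.Cov.Fast

/-!
# MP_cfac74_al : base windows of the stable windows, by residue classes
-/

set_option autoImplicit false
set_option linter.unusedSectionVars false

namespace Pool.Agent.Lib.MP_cfac74_al.Cov

open Finset Pool.Agent.Lib.MP_cfac74_al.Dec Pool.Agent.Lib.MP_cfac74_al.Ch
open Pool.Agent.Lib.MP_cfac74_al.Tab (evT monz lane dsc Geo)

section

variable {n : ℕ}

/-- the indices `x ≡ σ mod q` of the window give chain values of stage `s₀` -/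
def LV (A B : Fin n → Fin n → ZMod 3) (k : Fin n → ℕ) (M : ℕ → ℕ) (s₀ c' q lo nn σ : ℕ) : Prop :=
  ∀ x : ℕ, x % q = σ → q * lo ≤ x → x < q * (lo + nn) →
    3 * ((c' : ℤ) + 32 * (x : ℤ)) ∈ KInt (Hf A B k) M s₀

/-- `len` consecutive classes -/
def LVs (A B : Fin n → Fin n → ZMod 3) (k : Fin n → ℕ) (M : ℕ → ℕ) (s₀ c' q lo nn σ len : ℕ) :
    Prop := ∀ κ < len, LV A B k M s₀ c' q lo nn (σ + κ)

theorem LVs.app {A B : Fin n → Fin n → ZMod 3} {k : Fin n → ℕ} {M : ℕ → ℕ}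
    {s₀ c' q lo nn ρ a ρ' b c : ℕ} (h1 : LVs A B k M s₀ c' q lo nn ρ a)
    (h2 : LVs A B k M s₀ c' q lo nn ρ' b)
    (e1 : Nat.beq ρ' (Nat.add ρ a) = true) (e2 : Nat.beq c (Nat.add a b) = true) :
    LVs A B k M s₀ c' q lo nn ρ c := by
  have e1' : ρ' = ρ + a := Nat.eq_of_beq_eq_true e1
  have e2' : c = a + b := Nat.eq_of_beq_eq_true e2
  intro κ hκ
  rcases Nat.lt_or_ge κ a with h | h
  · exact h1 κ h
  · have h3 := h2 (κ - a) (by omega)
    rw [e1'] at h3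
    have e : ρ + κ = ρ + a + (κ - a) := by omega
    rw [e]; exact h3

/-- check of one residue class -/
noncomputable def lvC (m Y q lo mask σ : ℕ) (ys : List ℕ) : Bool :=
  Nat.beq (Nat.land (orRel (fun y => Nat.mul m y) Y lo q σ ys) mask) mask

/-- check of consecutive residue classes -/
noncomputable def lvF (fy : ℕ → ℕ → List ℕ) (m Y q lo mask : ℕ) (L : List (ℕ × ℕ)) : ℕ → Bool :=
  @List.rec (ℕ × ℕ) (fun _ => ℕ → Bool) (fun _ => true)
    (fun p _ ih σ => bd (lvC m Y q lo mask σ (fy p.1 p.2)) (ih (Nat.succ σ))) L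

theorem lvC_spec {A B : Fin n → Fin n → ZMod 3} {k : Fin n → ℕ} {M : ℕ → ℕ} {s Y : ℕ} {c β c' : ℕ}
    (hY : ∀ i, Y.testBit i = true → 3 * ((c : ℤ) + 32 * (i : ℤ)) ∈ KInt (Hf A B k) M s)
    {ys : List ℕ} (hL : ∀ y ∈ ys, 3 * ((β : ℤ) + 16 * (y : ℤ)) ∈ NInt (Hf A B k) M s)
    {q lo nn σ : ℕ} (hq : q = 9 * (M s + 8)) (hc' : c' = q * c + 2 * M s * β)
    (h : lvC (M s) Y q lo (2 ^ nn - 1) σ ys = true) : LV A B k M (s + 1) c' q lo nn σ := by
  intro x h1 h2 h3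
  have hq0 : 0 < q := by omega
  have h7 := Nat.div_add_mod x q
  rw [h1] at h7
  have h11 : lo ≤ x / q := by
    rw [Nat.le_div_iff_mul_le hq0, mul_comm]; exact h2
  have h12 : x / q < lo + nn := by
    rw [Nat.div_lt_iff_lt_mul hq0, mul_comm]; exact h3
  have h13 := testBit_of_land_mask (Nat.eq_of_beq_eq_true h) (show x / q - lo < nn by omega)
  obtain ⟨y, hy, h15, j, h16, h17⟩ := testBit_orRel _ _ _ _ _ _ _ h13
  have h15' : (M s * y) % q = σ := h15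
  have h17' : x / q - lo + lo = j + (M s * y) / q := h17
  have h18 := Nat.div_add_mod (M s * y) q
  rw [h15'] at h18
  obtain ⟨d, hd⟩ : ∃ d, d = (M s * y) / q := ⟨_, rfl⟩
  rw [← hd] at h17' h18
  have e2 : x / q = j + d := by omega
  have e1 : x = q * j + M s * y := by
    rw [e2, Nat.mul_add] at h7
    omega
  refine ⟨_, hY j h16, _, hL y hy, ?_⟩
  rw [e1, hc', hq]
  push_cast
  ring

theorem lvF_spec {A B : Fin n → Fin n → ZMod 3} {k : Fin n → ℕ} {M : ℕ → ℕ} {s Y : ℕ} {c β c' : ℕ}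
    (hY : ∀ i, Y.testBit i = true → 3 * ((c : ℤ) + 32 * (i : ℤ)) ∈ KInt (Hf A B k) M s)
    {fy : ℕ → ℕ → List ℕ} (hL : ∀ a b, ∀ y ∈ fy a b,
      3 * ((β : ℤ) + 16 * (y : ℤ)) ∈ NInt (Hf A B k) M s)
    {q lo nn : ℕ} (hq : q = 9 * (M s + 8)) (hc' : c' = q * c + 2 * M s * β)
    (L : List (ℕ × ℕ)) : ∀ σ, lvF fy (M s) Y q lo (2 ^ nn - 1) L σ = true →
      LVs A B k M (s + 1) c' q lo nn σ L.length := by
  induction L with
  | nil => intro σ _ κ hκ; exact absurd hκ (by simp)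
  | cons p L ih =>
    intro σ h κ hκ
    obtain ⟨h1, h2⟩ := bd_true (a := lvC (M s) Y q lo (2 ^ nn - 1) σ (fy p.1 p.2))
      (b := lvF fy (M s) Y q lo (2 ^ nn - 1) L (σ + 1)) h
    cases κ with
    | zero =>
      rw [Nat.add_zero]
      exact lvC_spec hY (hL _ _) hq hc' h1
    | succ κ =>
      have h3 := ih (σ + 1) h2 κ (by simpa using hκ)
      have e : σ + (κ + 1) = σ + 1 + κ := by ring
      rw [e]; exact h3

end

section

variable {n : ℕ} {A B : Fin n → Fin n → ZMod 3} {pts TL TE : List ℕ} {D NP NU : ℕ}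

/-- length of the list of residues -/
noncomputable def lenP (L : List (ℕ × ℕ)) : ℕ :=
  @List.rec (ℕ × ℕ) (fun _ => ℕ) (nat_lit 0) (fun _ _ ih => Nat.succ ih) L

theorem lenP_eq (L : List (ℕ × ℕ)) : lenP L = L.length := by
  induction L with
  | nil => rfl
  | cons a l ih =>
    change Nat.succ (lenP l) = _
    rw [ih]; rfl

/-- residue classes of a base window: stages `0..s-1` folded, stage `s` by residues -/
noncomputable def bL (TL TE : List ℕ) (NP : ℕ) (kl Ml : List ℕ) (s : ℕ)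
    (st : List (ℕ × ℕ × ℕ)) (c need q lo nn β : ℕ) (L : List (ℕ × ℕ)) (σ len c' : ℕ) : Bool :=
  bd (Nat.beq len (lenP L)) (bd (Nat.ble (nat_lit 1) β) (bd (coreC kl Ml)
  (forceB (fun m =>
    bd (Nat.beq q (Nat.mul (nat_lit 9) (Nat.add m (nat_lit 8))))
    (bd (Nat.beq c' (Nat.add (Nat.mul q c) (Nat.mul (Nat.mul (nat_lit 2) m) β)))
    (runC TL TE kl fun FL _ OF =>
      bd (Nat.ble OF (ln FL NP)) (bd (posF (seqS st) s)
      (bd (Nat.beq (K0F (seqM Ml) (Nat.sub (ln FL NP) OF) (seqS st) s) (Nat.mul (nat_lit 3) c))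
      (forceB (fun Y => forceB (fun mask => forceB (fun β3 =>
        lvF (fun len X => mapD (nat_lit 48) (nval FL OF NP (seqM Ml) s) β3 (unpack len X))
          m Y q lo mask L σ)
        (Nat.mul (nat_lit 3) β))
        (Nat.sub (Nat.shiftLeft (nat_lit 1) nn) (nat_lit 1)))
        (Ytr need (msF (seqM Ml) (ysF FL OF NP (seqM Ml) (seqS st)) s))))))))
    (seqM Ml s))))

theorem bL_spec (hA : ∀ i j, A i j = - A j i) (hB : ∀ i j, B i j = - B j i)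
    (G : Geo A B pts TL TE D NP NU) {kl Ml : List ℕ} {s : ℕ}
    {st : List (ℕ × ℕ × ℕ)} {c need q lo nn β : ℕ} {L : List (ℕ × ℕ)} {σ len c' : ℕ}
    (h : bL TL TE NP kl Ml s st c need q lo nn β L σ len c' = true) :
    LVs A B (kf (seqZ kl)) (seqM Ml) (s + 1) c' q lo nn σ len := by
  obtain ⟨h1, h⟩ := bd_true h
  obtain ⟨h2, h⟩ := bd_true h
  obtain ⟨h3, h⟩ := bd_true h
  rw [forceB_eq] at h
  obtain ⟨h4, h⟩ := bd_true h
  obtain ⟨h5, h⟩ := bd_true h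
  rw [runC_eq] at h
  obtain ⟨h6, h⟩ := bd_true h
  obtain ⟨h7, h⟩ := bd_true h
  obtain ⟨h8, h⟩ := bd_true h
  rw [forceB_eq, forceB_eq, forceB_eq, mask_eq] at h
  have hC := core_of_check (A := A) (B := B) h3 hA hB
  have hT := tab_of_geo G h3
  have hM : ∀ i, 1 ≤ seqM Ml i := fun i => (hC.hM i).pos
  have hβ : 0 < β := Nat.le_of_ble_eq_true h2
  have hK := krepF hT (seqM Ml) hM (seqS st) s h7 h6
  have e4 : K0F (seqM Ml) (Nat.sub (ln (evT TL (monz (seqZ kl) 5)) NP) (16384 * prodK kl))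
    (seqS st) s = 3 * c := Nat.eq_of_beq_eq_true h8
  rw [e4] at hK
  push_cast at hK
  have hY := hY_of_Ytr (need := need) hK
  rw [Nat.eq_of_beq_eq_true h1, lenP_eq]
  refine lvF_spec hY ?_ (Nat.eq_of_beq_eq_true h4) (Nat.eq_of_beq_eq_true h5) L σ h
  intro a b y hy
  have := nrep_of hT (seqM Ml) hM s (3 * β) a b (by omega) y hy
  have e : ((3 * β : ℕ) : ℤ) + 24 * ((2 : ℕ) : ℤ) * (y : ℤ) = 3 * ((β : ℤ) + 16 * (y : ℤ)) := by
    push_cast; ring
  rw [e] at this; exact this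

/-- base window from its residue classes and the library of stage `s₀` -/
noncomputable def bB (TL TE : List ℕ) (NP : ℕ) (kl Ml : List ℕ) (s₀ : ℕ)
    (q lo nn c' β₂ ymax len₂ X₂ a b Bmax : ℕ) : Bool :=
  bd (coreC kl Ml) (bd (Nat.beq Bmax (Nat.add β₂ (Nat.mul (nat_lit 16) ymax)))
  (bd (Nat.ble (nat_lit 1) β₂) (bd (Nat.ble (nat_lit 1) q)
  (bd (Nat.beq (Nat.mod β₂ (nat_lit 8)) (Nat.mod c' (nat_lit 8)))
  (bd (Nat.beq a (Nat.add c' (Nat.mul (nat_lit 32) (Nat.mul q lo))))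
  (bd (Nat.beq (Nat.succ b) (Nat.add c' (Nat.mul (nat_lit 32) (Nat.mul q (Nat.add lo nn)))))
  (runC TL TE kl fun FL _ OF =>
    lib81 β₂ ymax (mapD (nat_lit 48) (nval FL OF NP (seqM Ml) s₀) (Nat.mul (nat_lit 3) β₂)
      (unpack len₂ X₂)))))))))

theorem bB_spec (hA : ∀ i j, A i j = - A j i) (hB : ∀ i j, B i j = - B j i)
    (G : Geo A B pts TL TE D NP NU) {kl Ml : List ℕ} {s₀ : ℕ}
    {q lo nn c' β₂ ymax len₂ X₂ a b Bmax : ℕ}
    (hL : LVs A B (kf (seqZ kl)) (seqM Ml) s₀ c' q lo nn 0 q)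
    (h : bB TL TE NP kl Ml s₀ q lo nn c' β₂ ymax len₂ X₂ a b Bmax = true) :
    BaseOK A B (kf (seqZ kl)) (seqM Ml) s₀ a b c' Bmax β₂ := by
  obtain ⟨h1, h⟩ := bd_true h
  obtain ⟨h2, h⟩ := bd_true h
  obtain ⟨h3, h⟩ := bd_true h
  obtain ⟨h4, h⟩ := bd_true h
  obtain ⟨h5, h⟩ := bd_true h
  obtain ⟨h6, h⟩ := bd_true h
  obtain ⟨h7, h⟩ := bd_true h
  rw [runC_eq] at h
  have hC := core_of_check (A := A) (B := B) h1 hA hB
  have hT := tab_of_geo G h1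
  have hM : ∀ i, 1 ≤ seqM Ml i := fun i => (hC.hM i).pos
  have hβ₂ : 0 < β₂ := Nat.le_of_ble_eq_true h3
  have hq : 0 < q := Nat.le_of_ble_eq_true h4
  have e2 : Bmax = β₂ + 16 * ymax := Nat.eq_of_beq_eq_true h2
  have e5 : β₂ % 8 = c' % 8 := Nat.eq_of_beq_eq_true h5
  have e6 : a = c' + 32 * (q * lo) := Nat.eq_of_beq_eq_true h6
  have e7 : b + 1 = c' + 32 * (q * (lo + nn)) := Nat.eq_of_beq_eq_true h7
  refine ⟨?_, ?_, by omega⟩
  · intro T hT1 hT2 hT3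
    obtain ⟨x, hx⟩ := hT1
    have e6' : (a : ℤ) = c' + 32 * ((q * lo : ℕ) : ℤ) := by rw [e6]; push_cast; ring
    have e7' : (b : ℤ) + 1 = c' + 32 * ((q * (lo + nn) : ℕ) : ℤ) := by exact_mod_cast e7
    have hx0 : ((q * lo : ℕ) : ℤ) ≤ x := by linarith
    have hx1 : x < ((q * (lo + nn) : ℕ) : ℤ) := by linarith
    obtain ⟨i, rfl⟩ : ∃ i : ℕ, x = (i : ℤ) := ⟨x.toNat, by
      rw [Int.toNat_of_nonneg]
      exact le_trans (Int.natCast_nonneg _) hx0⟩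
    have hx2 : q * lo ≤ i := by exact_mod_cast hx0
    have hx3 : i < q * (lo + nn) := by exact_mod_cast hx1
    have h8 := hL (i % q) (Nat.mod_lt _ hq) i (by rw [Nat.zero_add]) hx2 hx3
    have e8 : T = (c' : ℤ) + 32 * (i : ℤ) := by linarith
    rw [e8]; exact h8
  · intro ρ
    obtain ⟨y, hy, h13, h14⟩ := lib81_spec h ρ
    have := nrep_of hT (seqM Ml) hM s₀ (3 * β₂) len₂ X₂ (by omega) y hy
    have e : ((3 * β₂ : ℕ) : ℤ) + 24 * ((2 : ℕ) : ℤ) * (y : ℤ) =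
      3 * ((β₂ : ℤ) + 16 * (y : ℤ)) := by push_cast; ring
    rw [e] at this
    refine ⟨(β₂ : ℤ) + 16 * (y : ℤ), this, ⟨(y : ℤ), by ring⟩, by positivity, ?_, h14⟩
    rw [e2]
    push_cast
    have : (y : ℤ) ≤ ymax := by exact_mod_cast h13
    linarith

end

/-- a stable window is a window -/
theorem Stab.win {r lo hi : ℕ} (h : Stab r lo hi) (hr : Nat.ble (Nat.succ r) (nat_lit 16) = true) :
    Win r lo hi := by
  have hr' : r + 1 ≤ 16 := Nat.le_of_ble_eq_true hr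
  intro t h1 h3 h4 h5
  refine h 0 t ?_ h3 ?_ ?_
  · rw [pow_zero, mul_one]; omega
  · rw [pow_zero, one_mul]; exact h4
  · rw [pow_zero, one_mul]; exact h5

end Pool.Agent.Lib.MP_cfac74_al.Cov
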