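import Pool.Agent.Lib.MP_cfac74_al.Cov.Stab
import Pool.Agent.Lib.MP_cfac74_al.Dec.Bits

/-!
# MP_cfac74_al : bit sets, direct windows, level up, library checks
-/

set_option autoImplicit false
set_option linter.unusedSectionVars false

namespace Pool.Agent.Lib.MP_cfac74_al.Cov

open Pool.Agent.Lib.MP_cfac74_al.Dec Pool.Agent.Lib.MP_cfac74_al.Ch

/-! ### unions of translates -/

/-- union over `y ∈ l` of the bit set `X` translated by `m * y` -/
noncomputable def orSh (X m : ℕ) (l : List ℕ) : ℕ :=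
  @List.rec ℕ (fun _ => ℕ) (nat_lit 0)
    (fun y _ ih => Nat.lor ih (Nat.shiftLeft X (Nat.mul m y))) l

theorem orSh_cons (X m y : ℕ) (l : List ℕ) :
    orSh X m (y :: l) = (orSh X m l) ||| (X <<< (m * y)) := rfl

theorem testBit_orSh (X m : ℕ) (l : List ℕ) (i : ℕ) :
    (orSh X m l).testBit i = true ↔ ∃ y ∈ l, ∃ j, X.testBit j = true ∧ i = j + m * y := by
  induction l with
  | nil =>
    have : orSh X m [] = 0 := rfl
    rw [this, Nat.zero_testBit]; simp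
  | cons y l ih =>
    rw [orSh_cons, Nat.testBit_or, Bool.or_eq_true, ih, Nat.testBit_shiftLeft, Bool.and_eq_true,
      decide_eq_true_iff]
    constructor
    · rintro (⟨z, hz, j, h1, h2⟩ | ⟨h1, h2⟩)
      · exact ⟨z, List.mem_cons_of_mem _ hz, j, h1, h2⟩
      · exact ⟨y, List.mem_cons_self, i - m * y, h2, by omega⟩
    · rintro ⟨z, hz, j, h1, h2⟩
      rcases List.mem_cons.1 hz with rfl | hz
      · refine Or.inr ⟨by omega, ?_⟩
        have : i - m * z = j := by omega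
        rw [this]; exact h1
      · exact Or.inl ⟨z, hz, j, h1, h2⟩

/-- the sums `∑ m_j y_j`, `y_j ∈ l_j` -/
def InSum : List (ℕ × List ℕ) → ℕ → Prop
  | [], i => i = 0
  | p :: ms, i => ∃ y ∈ p.2, ∃ j, InSum ms j ∧ i = j + p.1 * y

/-- the iterated unions -/
noncomputable def foldSh (X c : ℕ) (ms : List (ℕ × List ℕ)) : ℕ :=
  @List.rec (ℕ × List ℕ) (fun _ => ℕ) X (fun p _ ih => orSh ih (Nat.mul c p.1) p.2) ms

theorem testBit_foldSh (X c : ℕ) (ms : List (ℕ × List ℕ)) : ∀ i,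
    (foldSh X c ms).testBit i = true → ∃ j, InSum ms j ∧ ∃ x, X.testBit x = true ∧
      i = x + c * j := by
  induction ms with
  | nil =>
    intro i h
    exact ⟨0, rfl, i, h, by simp⟩
  | cons p ms ih =>
    intro i h
    have h' : (orSh (foldSh X c ms) (c * p.1) p.2).testBit i = true := h
    rw [testBit_orSh] at h'
    obtain ⟨y, hy, j, h1, h2⟩ := h'
    obtain ⟨j', h3, x, h4, h5⟩ := ih j h1
    refine ⟨j' + p.1 * y, ⟨y, hy, j', h3, rfl⟩, x, h4, ?_⟩
    rw [h2, h5]; ring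

/-- scaling of the multipliers -/
def scaleM (q : ℕ) (ms : List (ℕ × List ℕ)) : List (ℕ × List ℕ) := ms.map fun p => (q * p.1, p.2)

theorem inSum_scale (q : ℕ) (ms : List (ℕ × List ℕ)) : ∀ i, InSum (scaleM q ms) i →
    ∃ j, InSum ms j ∧ i = q * j := by
  induction ms with
  | nil =>
    intro i h
    have h' : i = 0 := h
    exact ⟨0, rfl, by rw [h', mul_zero]⟩
  | cons p ms ih =>
    intro i h
    obtain ⟨y, hy, j, h1, h2⟩ := h
    obtain ⟨j', h3, h4⟩ := ih j h1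
    refine ⟨j' + p.1 * y, ⟨y, hy, j', h3, rfl⟩, ?_⟩
    rw [h2, h4]; ring

/-! ### representation of chain values -/

section

variable {V : Type} [AddCommGroup V] [Module (ZMod 3) V]

/-- all `K₀ + 48 δ ∑ m_j y_j` are chain values -/
def KRep (H : (V →+ ZMod 3) → (V →+ ZMod 3) → ℤ) (M : ℕ → ℕ) (s : ℕ) (δ : ℕ) (K₀ : ℤ)
    (ms : List (ℕ × List ℕ)) : Prop :=
  ∀ j, InSum ms j → K₀ + 48 * (δ : ℤ) * j ∈ KInt H M s

/-- all `n₀ + 24 δ y` are values of `N` -/
def NRep (H : (V →+ ZMod 3) → (V →+ ZMod 3) → ℤ) (M : ℕ → ℕ) (s : ℕ) (δ : ℕ) (n₀ : ℤ)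
    (l : List ℕ) : Prop :=
  ∀ y ∈ l, n₀ + 24 * (δ : ℤ) * (y : ℤ) ∈ NInt H M s

theorem krep_zero (H : (V →+ ZMod 3) → (V →+ ZMod 3) → ℤ) (M : ℕ → ℕ) (δ : ℕ) :
    KRep H M 0 δ (H 0 0) [] := by
  intro j h
  have h' : j = 0 := h
  subst h'
  change H 0 0 + 48 * (δ : ℤ) * ((0 : ℕ) : ℤ) = H 0 0
  simp

theorem krep_succ {H : (V →+ ZMod 3) → (V →+ ZMod 3) → ℤ} {M : ℕ → ℕ} {s δ : ℕ} {K₀ n₀ : ℤ}
    {ms : List (ℕ × List ℕ)} {l : List ℕ} (hK : KRep H M s δ K₀ ms) (hN : NRep H M s δ n₀ l) :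
    KRep H M (s + 1) δ (9 * ((M s : ℤ) + 8) * K₀ + 2 * (M s : ℤ) * n₀)
      ((M s, l) :: scaleM (9 * (M s + 8)) ms) := by
  intro j h
  obtain ⟨y, hy, j', h1, h2⟩ := h
  obtain ⟨j'', h3, h4⟩ := inSum_scale _ _ _ h1
  refine ⟨_, hK j'' h3, _, hN y hy, ?_⟩
  rw [h2, h4]
  push_cast
  ring

end

/-! ### windows -/

/-- bits `i < 3 n` with `i % 3 ≠ e` -/
def mask3 (e n : ℕ) : ℕ :=
  Nat.lor (Nat.shiftLeft (rep 3 n) ((e + 1) % 3)) (Nat.shiftLeft (rep 3 n) ((e + 2) % 3))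

theorem testBit_mask3 (e n i : ℕ) (he : e < 3) (hi : i < 3 * n) (hie : i % 3 ≠ e) :
    (mask3 e n).testBit i = true := by
  have h0 : mask3 e n = (rep 3 n <<< ((e + 1) % 3)) ||| (rep 3 n <<< ((e + 2) % 3)) := rfl
  rw [h0, Nat.testBit_or, Bool.or_eq_true, Nat.testBit_shiftLeft, Nat.testBit_shiftLeft,
    Bool.and_eq_true, Bool.and_eq_true, decide_eq_true_iff, decide_eq_true_iff]
  have h1 : i % 3 = (e + 1) % 3 ∨ i % 3 = (e + 2) % 3 := by omega
  rcases h1 with h1 | h1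
  · left
    refine ⟨by omega, ?_⟩
    rw [testBit_rep _ _ _ (by norm_num)]
    exact ⟨by omega, by omega⟩
  · right
    refine ⟨by omega, ?_⟩
    rw [testBit_rep _ _ _ (by norm_num)]
    exact ⟨by omega, by omega⟩

/-- bits to a window -/
theorem win_of_bits {X t₀ r lo n e : ℕ} (hX : ∀ i, X.testBit i = true → Good (t₀ + 16 * i))
    (hr : t₀ % 16 = r) (he : e < 3) (he2 : (t₀ + 16 * (lo + e)) % 3 = 0)
    (h : window X (mask3 e n) lo = true) :
    Win r (t₀ + 16 * lo) (t₀ + 16 * (lo + 3 * n) - 1) := by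
  intro t h1 h3 h4 h5
  obtain ⟨i, rfl⟩ : ∃ i, t = t₀ + 16 * i := ⟨(t - t₀) / 16, by omega⟩
  obtain ⟨j, rfl⟩ : ∃ j, i = lo + j := ⟨i - lo, by omega⟩
  apply hX
  apply testBit_of_window h
  exact testBit_mask3 e n j he (by omega) (by omega)

section

variable {n : ℕ}

/-- **direct windows**, without extra line -/
theorem win_direct {A B : Fin n → Fin n → ZMod 3} {k : Fin n → ℕ} {M : ℕ → ℕ}
    (h : CoreOK A B k M) {s : ℕ} (hs : 0 < s) {δ : ℕ} {K₀ β' : ℤ} {ms : List (ℕ × List ℕ)}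
    (hK : KRep (Hf A B k) M s δ K₀ ms) {X' : ℕ}
    (hX : ∀ x, X'.testBit x = true → 9 * (β' + 8 * (x : ℤ)) ∈ TInt (Hf A B k) M s)
    {t₀ r lo nn e : ℕ} (ht₀ : (t₀ : ℤ) = K₀ + 2 * β') (hr : t₀ % 16 = r) (he : e < 3)
    (he2 : (t₀ + 16 * (lo + e)) % 3 = 0)
    (hw : window (foldSh X' (3 * δ) ms) (mask3 e nn) lo = true) :
    Win r (t₀ + 16 * lo) (t₀ + 16 * (lo + 3 * nn) - 1) := by
  apply win_of_bits _ hr he he2 hw
  intro i hi
  obtain ⟨j, h1, x, h2, h3⟩ := testBit_foldSh _ _ _ _ hi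
  refine good_core h hs (hK j h1) (hX x h2) _ ?_
  rw [h3]
  push_cast
  rw [ht₀]; ring

/-- **direct windows**, with an extra line -/
theorem win_directE {A B : Fin n → Fin n → ZMod 3} {k : Fin n → ℕ} {M : ℕ → ℕ}
    (h : CoreOK A B k M) {Q : ℕ} (hQ : Nm (3 * Q + 1)) {s : ℕ} (hs : 0 < s) {δ : ℕ} {K₀ β' : ℤ}
    {ms : List (ℕ × List ℕ)} (hK : KRep (Hf A B k) M s δ K₀ ms) {X' : ℕ}
    (hX : ∀ x, X'.testBit x = true → 9 * (β' + 8 * (x : ℤ)) ∈ TIntE (Hf A B k) M Q s)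
    {t₀ r lo nn e : ℕ} (ht₀ : (t₀ : ℤ) = ((Q : ℤ) + 3) * K₀ + 2 * β') (hr : t₀ % 16 = r)
    (he : e < 3) (he2 : (t₀ + 16 * (lo + e)) % 3 = 0)
    (hw : window (foldSh X' (3 * δ * (Q + 3)) ms) (mask3 e nn) lo = true) :
    Win r (t₀ + 16 * lo) (t₀ + 16 * (lo + 3 * nn) - 1) := by
  apply win_of_bits _ hr he he2 hw
  intro i hi
  obtain ⟨j, h1, x, h2, h3⟩ := testBit_foldSh _ _ _ _ hi
  refine good_coreE h hQ hs (hK j h1) (hX x h2) _ ?_
  rw [h3]
  push_cast
  rw [ht₀]; ring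

end

/-! ### level up by residue classes -/

/-- union over the `y` of a residue class -/
noncomputable def orCls (Y q m ρ : ℕ) (l : List ℕ) : ℕ :=
  @List.rec ℕ (fun _ => ℕ) (nat_lit 0)
    (fun y _ ih => @Bool.rec (fun _ => ℕ) ih
      (Nat.lor ih (Nat.shiftLeft Y (Nat.div (Nat.mul m y) q)))
      (Nat.beq (Nat.mod (Nat.mul m y) q) ρ)) l

theorem testBit_orCls (Y q m ρ : ℕ) (l : List ℕ) (i : ℕ)
    (h : (orCls Y q m ρ l).testBit i = true) :
    ∃ y ∈ l, (m * y) % q = ρ ∧ ∃ j, Y.testBit j = true ∧ i = j + (m * y) / q := by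
  induction l with
  | nil =>
    have h0 : orCls Y q m ρ [] = 0 := rfl
    rw [h0, Nat.zero_testBit] at h
    exact Bool.noConfusion h
  | cons y l ih =>
    rcases hb : Nat.beq (Nat.mod (Nat.mul m y) q) ρ with _ | _
    · have h0 : orCls Y q m ρ (y :: l) = orCls Y q m ρ l := by
        change @Bool.rec (fun _ => ℕ) _ _ (Nat.beq (Nat.mod (Nat.mul m y) q) ρ) = _
        rw [hb]; rfl
      rw [h0] at h
      obtain ⟨z, hz, h1⟩ := ih h
      exact ⟨z, List.mem_cons_of_mem _ hz, h1⟩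
    · have h0 : orCls Y q m ρ (y :: l) = (orCls Y q m ρ l) ||| (Y <<< ((m * y) / q)) := by
        change @Bool.rec (fun _ => ℕ) _ _ (Nat.beq (Nat.mod (Nat.mul m y) q) ρ) = _
        rw [hb]; rfl
      rw [h0, Nat.testBit_or, Bool.or_eq_true, Nat.testBit_shiftLeft, Bool.and_eq_true,
        decide_eq_true_iff] at h
      rcases h with h | ⟨h1, h2⟩
      · obtain ⟨z, hz, h1⟩ := ih h
        exact ⟨z, List.mem_cons_of_mem _ hz, h1⟩
      · exact ⟨y, List.mem_cons_self, Nat.eq_of_beq_eq_true hb, i - (m * y) / q, h2, by omega⟩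

/-- window check of the residue classes `ρ, ρ + 1, ...` -/
noncomputable def lvl (Y q m lo mask : ℕ) (L : List (List ℕ)) : ℕ → Bool :=
  @List.rec (List ℕ) (fun _ => ℕ → Bool) (fun ρ => Nat.beq ρ q)
    (fun l _ ih ρ => @Bool.rec (fun _ => Bool) false (ih (Nat.succ ρ))
      (window (orCls Y q m ρ l) mask lo)) L

theorem lvl_spec {Y q m lo mask : ℕ} (L : List (List ℕ)) : ∀ ρ, lvl Y q m lo mask L ρ = true →
    ∀ σ, ρ ≤ σ → σ < q → ∃ l ∈ L, window (orCls Y q m σ l) mask lo = true := by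
  induction L with
  | nil =>
    intro ρ h σ h1 h2
    have h3 : ρ = q := Nat.eq_of_beq_eq_true h
    omega
  | cons l L ih =>
    intro ρ h σ h1 h2
    have h' : @Bool.rec (fun _ => Bool) false (lvl Y q m lo mask L (ρ + 1))
      (window (orCls Y q m ρ l) mask lo) = true := h
    rcases hb : window (orCls Y q m ρ l) mask lo with _ | _
    · rw [hb] at h'
      exact Bool.noConfusion h'
    · rw [hb] at h'
      rcases Nat.lt_or_ge ρ σ with h3 | h3
      · obtain ⟨l', hl', h4⟩ := ih (ρ + 1) h' σ h3 h2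
        exact ⟨l', List.mem_cons_of_mem _ hl', h4⟩
      · have : σ = ρ := by omega
        subst this
        exact ⟨l, List.mem_cons_self, hb⟩

section

variable {V : Type} [AddCommGroup V] [Module (ZMod 3) V]

/-- **level up**: `Y` = bit set of chain values of stage `s`, the lists of `L` = values of `B` sorted
by the residue class of `M y` mod `q = 9 (M + 8)`: a complete window of stage `s + 1` -/
theorem level_up {H : (V →+ ZMod 3) → (V →+ ZMod 3) → ℤ} {M : ℕ → ℕ} {s : ℕ} {Y : ℕ} {c β : ℤ}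
    (hY : ∀ i, Y.testBit i = true → 3 * (c + 32 * (i : ℤ)) ∈ KInt H M s)
    {L : List (List ℕ)} (hL : ∀ l ∈ L, ∀ y ∈ l, 3 * (β + 16 * (y : ℤ)) ∈ NInt H M s)
    {q lo nn : ℕ} (hq : q = 9 * (M s + 8))
    (h : lvl Y q (M s) lo (2 ^ nn - 1) L 0 = true) (T : ℤ)
    (hT : (32 : ℤ) ∣ T - (q * c + 2 * (M s : ℤ) * β))
    (h1 : q * c + 2 * (M s : ℤ) * β + 32 * ((q * lo : ℕ) : ℤ) ≤ T)
    (h2 : T < q * c + 2 * (M s : ℤ) * β + 32 * ((q * (lo + nn) : ℕ) : ℤ)) :
    3 * T ∈ KInt H M (s + 1) := by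
  have hq0 : 0 < q := by omega
  obtain ⟨x, hx⟩ := hT
  have hx0 : ((q * lo : ℕ) : ℤ) ≤ x := by linarith
  have hx1 : x < ((q * (lo + nn) : ℕ) : ℤ) := by linarith
  obtain ⟨i', rfl⟩ : ∃ i' : ℕ, x = (i' : ℤ) := ⟨x.toNat, by
    rw [Int.toNat_of_nonneg]
    exact le_trans (Int.natCast_nonneg _) hx0⟩
  have hx2 : q * lo ≤ i' := by exact_mod_cast hx0
  have hx3 : i' < q * (lo + nn) := by exact_mod_cast hx1
  obtain ⟨l, hl, hw⟩ := lvl_spec L 0 h (i' % q) (Nat.zero_le _) (Nat.mod_lt _ hq0)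
  have h3 : lo ≤ i' / q := by
    rw [Nat.le_div_iff_mul_le hq0, mul_comm]; exact hx2
  have h4 : i' / q < lo + nn := by
    rw [Nat.div_lt_iff_lt_mul hq0, mul_comm]; exact hx3
  have h5 := mem_of_window_full hw h3 h4
  obtain ⟨y, hy, h6, j, h7, h8⟩ := testBit_orCls _ _ _ _ _ _ h5
  refine ⟨_, hY j h7, _, hL l hl y hy, ?_⟩
  have h9 : i' = q * j + M s * y := by
    have e1 := Nat.div_add_mod i' q
    have e2 := Nat.div_add_mod (M s * y) q
    rw [h8] at e1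
    rw [h6] at e2
    have e3 : q * (j + M s * y / q) = q * j + q * (M s * y / q) := by ring
    rw [e3] at e1
    omega
  have h10 : T = q * c + 2 * (M s : ℤ) * β + 32 * ((q * j + M s * y : ℕ) : ℤ) := by
    rw [← h9]; linarith
  rw [h10, hq]
  push_cast
  ring

end

/-! ### library checks -/

/-- bit set of the values of `f` on a list -/
noncomputable def resB (f : ℕ → ℕ) (l : List ℕ) : ℕ :=
  @List.rec ℕ (fun _ => ℕ) (nat_lit 0)
    (fun y _ ih => Nat.lor ih (Nat.shiftLeft (nat_lit 1) (f y))) l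

theorem testBit_resB (f : ℕ → ℕ) (l : List ℕ) (i : ℕ) (h : (resB f l).testBit i = true) :
    ∃ y ∈ l, i = f y := by
  induction l with
  | nil =>
    have h0 : resB f [] = 0 := rfl
    rw [h0, Nat.zero_testBit] at h
    exact Bool.noConfusion h
  | cons y l ih =>
    have h0 : resB f (y :: l) = (resB f l) ||| (1 <<< (f y)) := rfl
    rw [h0, Nat.testBit_or, Bool.or_eq_true, Nat.testBit_shiftLeft, Bool.and_eq_true,
      decide_eq_true_iff] at h
    rcases h with h | ⟨h1, h2⟩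
    · obtain ⟨z, hz, h3⟩ := ih h
      exact ⟨z, List.mem_cons_of_mem _ hz, h3⟩
    · rw [Nat.testBit_one_eq_true_iff_self_eq_zero] at h2
      exact ⟨y, List.mem_cons_self, by omega⟩

/-- all the members of the list are at most `b` -/
noncomputable def leAll (b : ℕ) (l : List ℕ) : Bool :=
  @List.rec ℕ (fun _ => Bool) true (fun y _ ih => @Bool.rec (fun _ => Bool) false ih (Nat.ble y b)) l

theorem leAll_spec {b : ℕ} : ∀ {l : List ℕ}, leAll b l = true → ∀ y ∈ l, y ≤ b := by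
  intro l
  induction l with
  | nil => intro _ y hy; exact absurd hy List.not_mem_nil
  | cons z l ih =>
    intro h y hy
    have h' : @Bool.rec (fun _ => Bool) false (leAll b l) (Nat.ble z b) = true := h
    rcases hb : Nat.ble z b with _ | _
    · rw [hb] at h'; exact Bool.noConfusion h'
    · rw [hb] at h'
      rcases List.mem_cons.1 hy with rfl | hy
      · exact Nat.le_of_ble_eq_true hb
      · exact ih h' y hy

/-- check of (h2): the `B = β + 16 y` are complete mod `81` -/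
noncomputable def lib81 (β ymax : ℕ) (l : List ℕ) : Bool :=
  @Bool.rec (fun _ => Bool) false (leAll ymax l)
    (Nat.beq (resB (fun y => Nat.mod (Nat.mul (nat_lit 2) (Nat.add β (Nat.mul (nat_lit 16) y)))
      (nat_lit 81)) l) (nat_lit 2417851639229258349412351))

theorem lib81_spec {β ymax : ℕ} {l : List ℕ} (h : lib81 β ymax l = true) (ρ : ℤ) :
    ∃ y ∈ l, y ≤ ymax ∧ (81 : ℤ) ∣ 2 * ((β : ℤ) + 16 * (y : ℤ)) - ρ := by
  have h' : @Bool.rec (fun _ => Bool) false (leAll ymax l)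
    (Nat.beq (resB (fun y => (2 * (β + 16 * y)) % 81) l) (2 ^ 81 - 1)) = true := h
  rcases hb : Nat.beq (resB (fun y => (2 * (β + 16 * y)) % 81) l) (2 ^ 81 - 1) with _ | _
  · rw [hb] at h'; exact Bool.noConfusion h'
  · rw [hb] at h'
    have h1 := Nat.eq_of_beq_eq_true hb
    have h2 : (resB (fun y => (2 * (β + 16 * y)) % 81) l).testBit (ρ % 81).toNat = true := by
      rw [h1]
      apply testBit_full
      omega
    obtain ⟨y, hy, h3⟩ := testBit_resB _ _ _ h2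
    refine ⟨y, hy, leAll_spec h' y hy, ?_⟩
    omega

/-- check of (h3): the `B' = β' + 8 x` hit all the residues mod `f = 3 P` prime to `3`, for both
parities of `x` -/
noncomputable def libTop (β' P xmax : ℕ) (l : List ℕ) : Bool :=
  @Bool.rec (fun _ => Bool) false (leAll xmax l)
    (window (resB (fun x => Nat.add
      (Nat.mod (Nat.mul (nat_lit 2) (Nat.add β' (Nat.mul (nat_lit 8) x))) (Nat.mul (nat_lit 3) P))
      (Nat.mul (Nat.mul (nat_lit 3) P) (Nat.mod x (nat_lit 2)))) l) (mask3 0 (Nat.mul 2 P)) 0)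

theorem libTop_spec {β' P xmax : ℕ} {l : List ℕ} (hP : 0 < P) (h : libTop β' P xmax l = true)
    (ρ : ℤ) (hρ : ¬ (3 : ℤ) ∣ ρ) (e : ℤ) :
    ∃ x ∈ l, x ≤ xmax ∧ (16 : ℤ) ∣ ((β' : ℤ) + 8 * (x : ℤ)) - β' - 8 * e ∧
      (3 * (P : ℤ)) ∣ 2 * ((β' : ℤ) + 8 * (x : ℤ)) - ρ := by
  have h' : @Bool.rec (fun _ => Bool) false (leAll xmax l)
    (window (resB (fun x => (2 * (β' + 8 * x)) % (3 * P) + 3 * P * (x % 2)) l)
      (mask3 0 (2 * P)) 0) = true := h
  rcases hb : window (resB (fun x => (2 * (β' + 8 * x)) % (3 * P) + 3 * P * (x % 2)) l)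
      (mask3 0 (2 * P)) 0 with _ | _
  · rw [hb] at h'; exact Bool.noConfusion h'
  · rw [hb] at h'
    have hf : (0 : ℤ) < 3 * (P : ℤ) := by positivity
    -- the residue as a natural number
    obtain ⟨σ, hσ⟩ : ∃ σ : ℕ, (σ : ℤ) = ρ % (3 * (P : ℤ)) :=
      ⟨(ρ % (3 * (P : ℤ))).toNat, Int.toNat_of_nonneg (Int.emod_nonneg _ hf.ne')⟩
    obtain ⟨ε, hε⟩ : ∃ ε : ℕ, (ε : ℤ) = e % 2 :=
      ⟨(e % 2).toNat, Int.toNat_of_nonneg (Int.emod_nonneg _ (by norm_num))⟩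
    have hε2 : ε < 2 := by omega
    have hσ2 : σ < 3 * P := by
      have := Int.emod_lt_of_pos ρ hf
      rw [← hσ] at this
      exact_mod_cast this
    have hσ3 : σ % 3 ≠ 0 := by
      intro h3
      apply hρ
      have h4 : (3 : ℤ) ∣ ρ % (3 * (P : ℤ)) := by rw [← hσ]; omega
      have h5 : (3 : ℤ) ∣ 3 * (P : ℤ) := Dvd.intro _ rfl
      rw [← Int.emod_add_mul_ediv ρ (3 * (P : ℤ))]
      exact dvd_add h4 (Dvd.dvd.mul_right h5 _)
    have hbit : (mask3 0 (2 * P)).testBit (σ + 3 * P * ε) = true := by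
      apply testBit_mask3 _ _ _ (by norm_num)
      · have : 3 * P * ε ≤ 3 * P * 1 := Nat.mul_le_mul_left _ (by omega)
        omega
      · have : (σ + 3 * P * ε) % 3 = σ % 3 := by
          rw [mul_assoc, Nat.add_mul_mod_self_left]
        rw [this]; exact hσ3
    have h2 := testBit_of_window hb hbit
    rw [zero_add] at h2
    obtain ⟨x, hx, h3⟩ := testBit_resB _ _ _ h2
    have hlt : (2 * (β' + 8 * x)) % (3 * P) < 3 * P := Nat.mod_lt _ (by omega)
    have h4 : x % 2 = ε ∧ (2 * (β' + 8 * x)) % (3 * P) = σ := by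
      have hx2 : x % 2 < 2 := Nat.mod_lt _ (by norm_num)
      have hc1 : ε = 0 ∨ ε = 1 := by omega
      have hc2 : x % 2 = 0 ∨ x % 2 = 1 := by omega
      rcases hc1 with rfl | rfl <;> rcases hc2 with h5 | h5 <;> rw [h5] at h3 ⊢
      · exact ⟨rfl, by omega⟩
      · exfalso; omega
      · exfalso; omega
      · exact ⟨rfl, by omega⟩
    refine ⟨x, hx, leAll_spec h' x hx, ?_, ?_⟩
    · omega
    · have h6 : (3 * (P : ℤ)) ∣ 2 * ((β' : ℤ) + 8 * (x : ℤ)) - σ := by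
        have := Nat.div_add_mod (2 * (β' + 8 * x)) (3 * P)
        rw [h4.2] at this
        refine ⟨((2 * (β' + 8 * x) / (3 * P) : ℕ) : ℤ), ?_⟩
        have h7 : (((3 * P) * (2 * (β' + 8 * x) / (3 * P)) + σ : ℕ) : ℤ) =
          ((2 * (β' + 8 * x) : ℕ) : ℤ) := by rw [this]
        push_cast at h7 ⊢
        linarith
      have h7 : (3 * (P : ℤ)) ∣ (σ : ℤ) - ρ := by
        rw [hσ]
        have := Int.emod_add_mul_ediv ρ (3 * (P : ℤ))
        exact ⟨-(ρ / (3 * (P : ℤ))), by linarith⟩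
      have h8 := dvd_add h6 h7
      have e1 : 2 * ((β' : ℤ) + 8 * (x : ℤ)) - σ + ((σ : ℤ) - ρ) =
        2 * ((β' : ℤ) + 8 * (x : ℤ)) - ρ := by ring
      rwa [e1] at h8

end Pool.Agent.Lib.MP_cfac74_al.Cov
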