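import Pool.Agent.Lib.MP_cfac74_al.Cov.Res

/-!
# MP_cfac74_al : codes for the values of `N` (lines) and `N'` (planes)
-/

set_option autoImplicit false
set_option linter.unusedSectionVars false

namespace Pool.Agent.Lib.MP_cfac74_al.Cov

open Finset Pool.Agent.Lib.MP_cfac74_al.Dec Pool.Agent.Lib.MP_cfac74_al.Ch

/-! ### kernel functions -/

/-- lane of width `40` -/
noncomputable def ln (X i : ℕ) : ℕ :=
  Nat.mod (Nat.shiftRight X (Nat.mul (nat_lit 40) i)) (nat_lit 1099511627776)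

/-- packed list (lanes of width `32`) -/
noncomputable def unpack (n X : ℕ) : List ℕ :=
  @Nat.rec (fun _ => ℕ → List ℕ) (fun _ => [])
    (fun _ ih x => Nat.mod x (nat_lit 4294967296) :: ih (Nat.div x (nat_lit 4294967296))) n X

/-- evaluation with a forced argument -/
noncomputable def force (f : ℕ → ℕ) (e : ℕ) : ℕ :=
  @Nat.rec (fun _ => ℕ) (f (nat_lit 0)) (fun n _ => f (Nat.succ n)) e

theorem force_eq (f : ℕ → ℕ) (e : ℕ) : force f e = f e := by cases e <;> rfl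

/-- lane `q` of the descriptor of plane `p` -/
noncomputable def dq (TD p q : ℕ) : ℕ :=
  Nat.mod (Nat.shiftRight TD (Nat.add (Nat.mul (nat_lit 64) p) (Nat.mul (nat_lit 16) q)))
    (nat_lit 65536)

/-- `t = 0 : 3 m + 8`, `t = 1 : 2`, `t ≥ 2 : 3 m - 1` -/
noncomputable def sel3 (m t : ℕ) : ℕ :=
  @Nat.rec (fun _ => ℕ) (Nat.add (Nat.mul (nat_lit 3) m) (nat_lit 8))
    (fun t' _ => @Nat.rec (fun _ => ℕ) (nat_lit 2)
      (fun _ _ => Nat.sub (Nat.mul (nat_lit 3) m) (nat_lit 1)) t') t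

/-- `t = 0 : 3 m + 8`, `t = 1 : 2`, `t = 2 : 3 m - 1`, `t ≥ 3 : 1` -/
noncomputable def sel4 (m t : ℕ) : ℕ :=
  @Nat.rec (fun _ => ℕ) (Nat.add (Nat.mul (nat_lit 3) m) (nat_lit 8))
    (fun t' _ => @Nat.rec (fun _ => ℕ) (nat_lit 2)
      (fun t'' _ => @Nat.rec (fun _ => ℕ) (Nat.sub (Nat.mul (nat_lit 3) m) (nat_lit 1))
        (fun _ _ => nat_lit 1) t'') t') t

/-- type of a line `q` of a plane of type `τ` -/
noncomputable def selQ (τ q : ℕ) : ℕ :=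
  Nat.mod (Nat.shiftRight (nat_lit 0x956559562a8aa2a81545515400)
    (Nat.mul (nat_lit 2) (Nat.add (Nat.mul (nat_lit 4) τ) q))) (nat_lit 4)

/-- type of `E` for a plane of type `τ` -/
noncomputable def selEt (τ : ℕ) : ℕ :=
  Nat.mod (Nat.shiftRight (nat_lit 0x3fea954) (Nat.mul (nat_lit 2) τ)) (nat_lit 4)

/-- extra line: `0 : P`, `1 : Q` -/
noncomputable def selX (ε q : ℕ) : ℕ :=
  Nat.mod (Nat.shiftRight (nat_lit 0x171b1d1e00) (Nat.add (Nat.mul (nat_lit 8) ε) q)) (nat_lit 2)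

/-- `b = 0 : P`, else `Q` -/
noncomputable def eXv (P Q b : ℕ) : ℕ := @Nat.rec (fun _ => ℕ) P (fun _ _ => Q) b

/-- product over the planes `j < i` for a line code -/
noncomputable def VP (M : ℕ → ℕ) (tc i : ℕ) : ℕ :=
  @Nat.rec (fun _ => ℕ) (nat_lit 1)
    (fun j ih => Nat.mul ih (sel3 (M j)
      (Nat.mod (Nat.shiftRight tc (Nat.mul (nat_lit 2) j)) (nat_lit 4)))) i

/-- `∏ (3 M_j + 8)` -/
noncomputable def PPn (M : ℕ → ℕ) (i : ℕ) : ℕ :=
  @Nat.rec (fun _ => ℕ) (nat_lit 1)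
    (fun j ih => Nat.mul ih (Nat.add (Nat.mul (nat_lit 3) (M j)) (nat_lit 8))) i

/-- product over the planes for line `q` of a plane code -/
noncomputable def WQ (M : ℕ → ℕ) (tc q s : ℕ) : ℕ :=
  @Nat.rec (fun _ => ℕ) (nat_lit 1)
    (fun j ih => Nat.mul ih (sel3 (M j)
      (selQ (Nat.mod (Nat.shiftRight tc (Nat.mul (nat_lit 4) j)) (nat_lit 16)) q))) s

/-- absolute value of the product for `E` -/
noncomputable def WE (M : ℕ → ℕ) (tc s : ℕ) : ℕ :=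
  @Nat.rec (fun _ => ℕ) (nat_lit 1)
    (fun j ih => Nat.mul ih (sel4 (M j)
      (selEt (Nat.mod (Nat.shiftRight tc (Nat.mul (nat_lit 4) j)) (nat_lit 16))))) s

/-- number of signs of the product for `E` -/
noncomputable def SG (tc s : ℕ) : ℕ :=
  @Nat.rec (fun _ => ℕ) (nat_lit 0)
    (fun j ih => Nat.add ih (Nat.div
      (selEt (Nat.mod (Nat.shiftRight tc (Nat.mul (nat_lit 4) j)) (nat_lit 16))) (nat_lit 3))) s

/-- value of `N` for a line code -/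
noncomputable def nval (FL OFF NP : ℕ) (M : ℕ → ℕ) (i code : ℕ) : ℕ :=
  @Bool.rec (fun _ => ℕ) (nat_lit 0)
    (force (fun tc => Nat.sub
      (Nat.add (Nat.mul (ln FL NP) (PPn M i))
        (Nat.mul (nat_lit 8) (Nat.mul (ln FL (Nat.mod code (nat_lit 2048))) (VP M tc i))))
      (Nat.mul OFF (Nat.add (PPn M i) (Nat.mul (nat_lit 8) (VP M tc i)))))
      (Nat.div code (nat_lit 2048)))
    (Nat.ble (Nat.succ (Nat.mod code (nat_lit 2048))) NP)

/-- the number `C + 2 N'` -/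
noncomputable def gcore (C PPP lT OFF f0 f1 f2 f3 fe w0 w1 w2 w3 wE sg : ℕ) : ℕ :=
  @Bool.rec (fun _ => ℕ)
    (Nat.sub
      (Nat.add (Nat.add (Nat.add C (Nat.mul (nat_lit 2) (Nat.mul PPP lT)))
        (Nat.mul (nat_lit 16) (Nat.add (Nat.add (Nat.mul f0 w0) (Nat.mul f1 w1))
          (Nat.add (Nat.mul f2 w2) (Nat.mul f3 w3)))))
        (Nat.mul (nat_lit 48) (Nat.mul wE fe)))
      (Nat.add (Nat.mul (Nat.mul (nat_lit 2) OFF) (Nat.add PPP (Nat.mul (nat_lit 8)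
        (Nat.add (Nat.add w0 w1) (Nat.add w2 w3)))))
        (Nat.mul (nat_lit 48) (Nat.mul wE OFF))))
    (Nat.sub
      (Nat.add (Nat.add (Nat.add C (Nat.mul (nat_lit 2) (Nat.mul PPP lT)))
        (Nat.mul (nat_lit 16) (Nat.add (Nat.add (Nat.mul f0 w0) (Nat.mul f1 w1))
          (Nat.add (Nat.mul f2 w2) (Nat.mul f3 w3)))))
        (Nat.mul (nat_lit 48) (Nat.mul wE OFF)))
      (Nat.add (Nat.mul (Nat.mul (nat_lit 2) OFF) (Nat.add PPP (Nat.mul (nat_lit 8)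
        (Nat.add (Nat.add w0 w1) (Nat.add w2 w3)))))
        (Nat.mul (nat_lit 48) (Nat.mul wE fe))))
    (Nat.beq (Nat.mod sg (nat_lit 2)) (nat_lit 0))

/-- `C + 2 N'` for a plane code; `ev` = factors of the extra line -/
noncomputable def gval (FL FE OFF TD NP NU : ℕ) (M : ℕ → ℕ) (s : ℕ) (ev : ℕ → ℕ → ℕ)
    (C PPP code : ℕ) : ℕ :=
  @Bool.rec (fun _ => ℕ) (nat_lit 0)
    (force (fun tc => force (fun p =>
      gcore C PPP (ln FL NP) OFF (force (ln FL) (dq TD p (nat_lit 0)))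
        (force (ln FL) (dq TD p (nat_lit 1))) (force (ln FL) (dq TD p (nat_lit 2)))
        (force (ln FL) (dq TD p (nat_lit 3))) (ln FE p)
        (Nat.mul (ev tc (nat_lit 0)) (WQ M tc (nat_lit 0) s))
        (Nat.mul (ev tc (nat_lit 1)) (WQ M tc (nat_lit 1) s))
        (Nat.mul (ev tc (nat_lit 2)) (WQ M tc (nat_lit 2) s))
        (Nat.mul (ev tc (nat_lit 3)) (WQ M tc (nat_lit 3) s))
        (Nat.mul (ev tc (nat_lit 4)) (WE M tc s)) (SG tc s))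
      (Nat.mod code (nat_lit 4096))) (Nat.div code (nat_lit 4096)))
    (Nat.ble (Nat.succ (Nat.mod code (nat_lit 4096))) NU)

/-- factors without extra line -/
noncomputable def evN : ℕ → ℕ → ℕ := fun _ _ => nat_lit 1

/-- factors with an extra line -/
noncomputable def evE (P Q : ℕ) : ℕ → ℕ → ℕ := fun tc q => eXv P Q (selX (Nat.div tc (nat_lit 4096)) q)

/-! ### semantics -/

/-- a table of the values of a core -/
structure TabOK {n : ℕ} (A B : Fin n → Fin n → ZMod 3) (k : Fin n → ℕ)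
    (FL FE OFF TD NP NU : ℕ) : Prop where
  line : ∀ i, i < NP → ∃ x : (Fin n → ZMod 3) →+ ZMod 3,
    ((ln FL i : ℕ) : ℤ) = Hf A B k x 0 + (OFF : ℤ)
  plane : ∀ p, p < NU → ∃ b b' : (Fin n → ZMod 3) →+ ZMod 3,
    (∀ q : Fin 4, ((ln FL (dq TD p q.val) : ℕ) : ℤ) =
      Hf A B k ((lineC q).1 • b + (lineC q).2 • b') 0 + (OFF : ℤ)) ∧
    ((ln FE p : ℕ) : ℤ) = Hf A B k b b' + (OFF : ℤ)
  zero : ((ln FL NP : ℕ) : ℤ) = Hf A B k 0 0 + (OFF : ℤ)

/-- class of a point of the plane -/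
def cls (p : ZMod 3 × ZMod 3) : ℕ := if p = 0 then 0 else if p.2 = 0 then 2 else 1

/-- class of a pair -/
def cls2 (p p' : ZMod 3 × ZMod 3) : ℕ :=
  if J2 p p' ≠ 0 then 3 else if p = 0 ∧ p' = 0 then 0 else if p.2 = 0 ∧ p'.2 = 0 then 2 else 1

theorem hCz_cls (m : ℕ) (hm : 1 ≤ m) (p : ZMod 3 × ZMod 3) : hCz m p 0 = ((sel3 m (cls p) : ℕ) : ℤ) := by
  have hJ : J2 p 0 = 0 := by unfold J2; simp
  unfold hCz
  rw [hJ]
  have hcc : cc (0 : ZMod 3) = 2 := by decide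
  rw [hcc]
  unfold cls
  by_cases h0 : p = 0
  · subst h0
    rw [if_pos ⟨rfl, rfl⟩, if_pos ⟨rfl, rfl⟩, if_pos rfl]
    change (2 : ℤ) + 3 * ((m : ℤ) - 1) + 9 = ((3 * m + 8 : ℕ) : ℤ)
    push_cast; ring
  · rw [if_neg h0, if_neg (show ¬ (p = 0 ∧ (0 : ZMod 3 × ZMod 3) = 0) from fun h => h0 h.1)]
    by_cases h2 : p.2 = 0
    · rw [if_pos h2, if_pos (show p.2 = 0 ∧ (0 : ZMod 3 × ZMod 3).2 = 0 from ⟨h2, rfl⟩)]
      change (2 : ℤ) + 3 * ((m : ℤ) - 1) + 0 = ((3 * m - 1 : ℕ) : ℤ)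
      rw [Nat.cast_sub (by omega)]
      push_cast; ring
    · rw [if_neg h2, if_neg (show ¬ (p.2 = 0 ∧ (0 : ZMod 3 × ZMod 3).2 = 0) from fun h => h2 h.1)]
      change (2 : ℤ) + 0 + 0 = ((2 : ℕ) : ℤ)
      norm_num

theorem hCz_cls2 (m : ℕ) (hm : 1 ≤ m) (p p' : ZMod 3 × ZMod 3) :
    hCz m p p' = (-1) ^ (cls2 p p' / 3) * ((sel4 m (cls2 p p') : ℕ) : ℤ) := by
  unfold hCz cls2
  by_cases hJ : J2 p p' = 0
  · rw [hJ, if_neg (not_not.2 rfl)]
    have hcc : cc (0 : ZMod 3) = 2 := by decide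
    rw [hcc]
    by_cases h0 : p = 0 ∧ p' = 0
    · obtain ⟨rfl, rfl⟩ := h0
      rw [if_pos ⟨rfl, rfl⟩, if_pos ⟨rfl, rfl⟩, if_pos ⟨rfl, rfl⟩]
      change (2 : ℤ) + 3 * ((m : ℤ) - 1) + 9 = (-1) ^ 0 * ((3 * m + 8 : ℕ) : ℤ)
      push_cast; ring
    · rw [if_neg h0, if_neg h0]
      by_cases h2 : p.2 = 0 ∧ p'.2 = 0
      · rw [if_pos h2, if_pos h2]
        change (2 : ℤ) + 3 * ((m : ℤ) - 1) + 0 = (-1) ^ 0 * ((3 * m - 1 : ℕ) : ℤ)
        rw [Nat.cast_sub (by omega)]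
        push_cast; ring
      · rw [if_neg h2, if_neg h2]
        change (2 : ℤ) + 0 + 0 = (-1) ^ 0 * ((2 : ℕ) : ℤ)
        norm_num
  · rw [if_pos hJ]
    have h2 : ¬ (p.2 = 0 ∧ p'.2 = 0) := fun h => hJ (by unfold J2; rw [h.1, h.2]; ring)
    have h0 : ¬ (p = 0 ∧ p' = 0) := fun h => h2 ⟨by rw [h.1]; rfl, by rw [h.2]; rfl⟩
    have hcc : ∀ x : ZMod 3, x ≠ 0 → cc x = -1 := by decide
    rw [hcc _ hJ, if_neg h2, if_neg h0]
    change (-1 : ℤ) + 0 + 0 = (-1) ^ 1 * ((1 : ℕ) : ℤ)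
    norm_num

/-- point of a line type -/
def ptL (t : ℕ) : ZMod 3 × ZMod 3 := if t = 0 then (0, 0) else if t = 1 then (0, 1) else (1, 0)

theorem cls_ptL (m t : ℕ) : sel3 m (cls (ptL t)) = sel3 m t := by
  unfold ptL
  by_cases h0 : t = 0
  · rw [if_pos h0, h0]; rfl
  · rw [if_neg h0]
    by_cases h1 : t = 1
    · rw [if_pos h1, h1]; rfl
    · rw [if_neg h1]
      obtain ⟨u, rfl⟩ : ∃ u, t = u + 2 := ⟨t - 2, by omega⟩
      rfl

/-- first point of a plane type -/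
def cT (τ : ℕ) : ZMod 3 × ZMod 3 :=
  [((0, 0) : ZMod 3 × ZMod 3), (0, 0), (0, 1), (0, 1), (0, 1), (0, 0), (1, 0), (1, 0), (1, 0),
    (1, 0), (0, 1), (1, 1), (1, 1)].getD τ (0, 0)

/-- second point of a plane type -/
def cT' (τ : ℕ) : ZMod 3 × ZMod 3 :=
  [((0, 0) : ZMod 3 × ZMod 3), (0, 1), (0, 0), (0, 2), (0, 1), (1, 0), (0, 0), (2, 0), (1, 0),
    (0, 1), (1, 0), (1, 2), (2, 1)].getD τ (0, 0)

theorem cls_cT : ∀ τ < 16, ∀ q : Fin 4,
    cls ((lineC q).1 • cT τ + (lineC q).2 • cT' τ) = selQ τ q.val := by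
  decide +kernel

theorem cls2_cT : ∀ τ < 16, cls2 (cT τ) (cT' τ) = selEt τ := by
  decide +kernel

/-- coordinates of the extra line -/
def yT (ε : ℕ) : ZMod 3 := [(0 : ZMod 3), 0, 1, 1, 1].getD ε 0

/-- coordinates of the extra line -/
def yT' (ε : ℕ) : ZMod 3 := [(0 : ZMod 3), 1, 0, 2, 1].getD ε 0

theorem yT_big (ε : ℕ) (h : 5 ≤ ε) : yT ε = 0 ∧ yT' ε = 0 := by
  obtain ⟨u, rfl⟩ : ∃ u, ε = u + 5 := ⟨ε - 5, by omega⟩
  exact ⟨rfl, rfl⟩

theorem selX_small : ∀ ε < 5, ∀ q : Fin 4,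
    ((lineC q).1 * yT ε + (lineC q).2 * yT' ε = 0 ↔ selX ε q.val = 0) := by
  decide +kernel

theorem selX_small4 : ∀ ε < 5, ((yT ε = 0 ∧ yT' ε = 0) ↔ selX ε 4 = 0) := by
  decide +kernel

theorem selX_big (ε q : ℕ) (h : 5 ≤ ε) : selX ε q = 0 := by
  unfold selX
  have h1 : (nat_lit 0x171b1d1e00) >>> (8 * ε + q) = 0 := by
    rw [Nat.shiftRight_eq_div_pow]
    apply Nat.div_eq_of_lt
    calc (nat_lit 0x171b1d1e00) < 2 ^ 40 := by norm_num
      _ ≤ 2 ^ (8 * ε + q) := Nat.pow_le_pow_right (by norm_num) (by omega)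
  have h2 : Nat.shiftRight (nat_lit 0x171b1d1e00) (Nat.add (Nat.mul (nat_lit 8) ε) q) = 0 := h1
  rw [h2]

theorem eXv_eL (Q ε : ℕ) (q : Fin 4) :
    eL Q ((lineC q).1 * yT ε + (lineC q).2 * yT' ε) 0 =
      ((eXv (Q + 3) Q (selX ε q.val) : ℕ) : ℤ) := by
  have key : (lineC q).1 * yT ε + (lineC q).2 * yT' ε = 0 ↔ selX ε q.val = 0 := by
    rcases Nat.lt_or_ge ε 5 with h | h
    · exact selX_small ε h q
    · rw [selX_big ε _ h, (yT_big ε h).1, (yT_big ε h).2]; simp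
  unfold eL
  by_cases h : (lineC q).1 * yT ε + (lineC q).2 * yT' ε = 0
  · rw [if_pos ⟨h, rfl⟩, key.1 h]
    change (3 : ℤ) + (Q : ℤ) = ((Q + 3 : ℕ) : ℤ)
    push_cast; ring
  · rw [if_neg (fun h' => h h'.1)]
    have h9 : selX ε q.val ≠ 0 := fun h' => h (key.2 h')
    obtain ⟨u, hu⟩ : ∃ u, selX ε q.val = u + 1 := ⟨selX ε q.val - 1, by omega⟩
    rw [hu]
    change (0 : ℤ) + (Q : ℤ) = (Q : ℤ)
    ring

theorem eXv_eL4 (Q ε : ℕ) :
    eL Q (yT ε) (yT' ε) = ((eXv (Q + 3) Q (selX ε 4) : ℕ) : ℤ) := by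
  have key : (yT ε = 0 ∧ yT' ε = 0) ↔ selX ε 4 = 0 := by
    rcases Nat.lt_or_ge ε 5 with h | h
    · exact selX_small4 ε h
    · rw [selX_big ε _ h]; simp [yT_big ε h]
  unfold eL
  by_cases h : yT ε = 0 ∧ yT' ε = 0
  · rw [if_pos h, key.1 h]
    change (3 : ℤ) + (Q : ℤ) = ((Q + 3 : ℕ) : ℤ)
    push_cast; ring
  · rw [if_neg h]
    have h9 : selX ε 4 ≠ 0 := fun h' => h (key.2 h')
    obtain ⟨u, hu⟩ : ∃ u, selX ε 4 = u + 1 := ⟨selX ε 4 - 1, by omega⟩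
    rw [hu]
    change (0 : ℤ) + (Q : ℤ) = (Q : ℤ)
    ring

/-! products -/

theorem PPn_eq (M : ℕ → ℕ) (i : ℕ) : ((PPn M i : ℕ) : ℤ) = PP M i := by
  induction i with
  | zero => rfl
  | succ i ih =>
    have h : PPn M (i + 1) = PPn M i * (3 * M i + 8) := rfl
    rw [h, PP_succ, ← ih]; push_cast; ring

theorem VP_eq (M : ℕ → ℕ) (hM : ∀ i, 1 ≤ M i) (tc i : ℕ) :
    ((VP M tc i : ℕ) : ℤ) = ∏ j ∈ range i, hCz (M j) (ptL ((tc >>> (2 * j)) % 4)) 0 := by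
  induction i with
  | zero => rfl
  | succ i ih =>
    have h : VP M tc (i + 1) = VP M tc i * sel3 (M i) ((tc >>> (2 * i)) % 4) := rfl
    rw [h, Finset.prod_range_succ, ← ih, hCz_cls _ (hM i), cls_ptL]; push_cast; ring

theorem WQ_eq (M : ℕ → ℕ) (hM : ∀ i, 1 ≤ M i) (tc : ℕ) (q : Fin 4) (s : ℕ) :
    ((WQ M tc q.val s : ℕ) : ℤ) = ∏ j ∈ range s, hCz (M j)
      ((lineC q).1 • cT ((tc >>> (4 * j)) % 16) + (lineC q).2 • cT' ((tc >>> (4 * j)) % 16)) 0 := by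
  induction s with
  | zero => rfl
  | succ s ih =>
    have h : WQ M tc q.val (s + 1) =
      WQ M tc q.val s * sel3 (M s) (selQ ((tc >>> (4 * s)) % 16) q.val) := rfl
    rw [h, Finset.prod_range_succ, ← ih, hCz_cls _ (hM s),
      cls_cT _ (Nat.mod_lt _ (by norm_num))]
    push_cast; ring

theorem WE_eq (M : ℕ → ℕ) (hM : ∀ i, 1 ≤ M i) (tc : ℕ) (s : ℕ) :
    (-1) ^ (SG tc s) * ((WE M tc s : ℕ) : ℤ) = ∏ j ∈ range s, hCz (M j)
      (cT ((tc >>> (4 * j)) % 16)) (cT' ((tc >>> (4 * j)) % 16)) := by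
  induction s with
  | zero => rfl
  | succ s ih =>
    have h : WE M tc (s + 1) =
      WE M tc s * sel4 (M s) (selEt ((tc >>> (4 * s)) % 16)) := rfl
    have h' : SG tc (s + 1) = SG tc s + selEt ((tc >>> (4 * s)) % 16) / 3 := rfl
    rw [h, h', Finset.prod_range_succ, ← ih, hCz_cls2 _ (hM s),
      cls2_cT _ (Nat.mod_lt _ (by norm_num)), pow_add]
    push_cast; ring

section

variable {n : ℕ} {A B : Fin n → Fin n → ZMod 3} {k : Fin n → ℕ} {FL FE OFF TD NP NU : ℕ}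

/-- **line codes** -/
theorem nval_spec (hT : TabOK A B k FL FE OFF TD NP NU) (M : ℕ → ℕ) (hM : ∀ i, 1 ≤ M i)
    (i code : ℕ) (h : 0 < nval FL OFF NP M i code) :
    ((nval FL OFF NP M i code : ℕ) : ℤ) ∈ NInt (Hf A B k) M i := by
  unfold nval at h ⊢
  rw [force_eq] at h ⊢
  rcases hb : Nat.ble (Nat.succ (Nat.mod code (nat_lit 2048))) NP with _ | _
  · rw [hb] at h; exact absurd h (lt_irrefl 0)
  · rw [hb] at h
    have hlt : code % 2048 < NP := Nat.le_of_ble_eq_true hb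
    obtain ⟨x, hx⟩ := hT.line _ hlt
    have hz := hT.zero
    set V := VP M (code / 2048) i with hV
    have h' : 0 < (ln FL NP * PPn M i + 8 * (ln FL (code % 2048) * V)) -
      (OFF * (PPn M i + 8 * V)) := h
    change (((ln FL NP * PPn M i + 8 * (ln FL (code % 2048) * V)) -
      (OFF * (PPn M i + 8 * V)) : ℕ) : ℤ) ∈ _
    rw [Nat.cast_sub (by omega)]
    refine ⟨x, fun j => ptL (((code / 2048) >>> (2 * j)) % 4), ?_⟩
    rw [← VP_eq M hM, ← hV, ← PPn_eq]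
    push_cast
    rw [hx, hz]
    ring

theorem gcore_eq (C PPP lT OFF f0 f1 f2 f3 fe w0 w1 w2 w3 wE sg : ℕ)
    (h : 0 < gcore C PPP lT OFF f0 f1 f2 f3 fe w0 w1 w2 w3 wE sg) :
    ((gcore C PPP lT OFF f0 f1 f2 f3 fe w0 w1 w2 w3 wE sg : ℕ) : ℤ) =
      C + 2 * (((lT : ℤ) - OFF) * PPP + 8 * (((f0 : ℤ) - OFF) * w0 + ((f1 : ℤ) - OFF) * w1 +
        ((f2 : ℤ) - OFF) * w2 + ((f3 : ℤ) - OFF) * w3) -
        24 * (((fe : ℤ) - OFF) * ((-1) ^ sg * (wE : ℤ)))) := by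
  unfold gcore at h ⊢
  rcases hb : Nat.beq (Nat.mod sg (nat_lit 2)) (nat_lit 0) with _ | _
  · rw [hb] at h
    have hs : sg % 2 = 1 := by
      have h1 : ¬ (sg % 2 = 0) := fun h1 => by
        have h2 : Nat.beq (sg % 2) 0 = true := by rw [h1]; rfl
        have h3 : Nat.beq (Nat.mod sg (nat_lit 2)) (nat_lit 0) = true := h2
        rw [hb] at h3; exact Bool.noConfusion h3
      omega
    have hsg : (-1 : ℤ) ^ sg = -1 := Odd.neg_one_pow (Nat.odd_iff.2 hs)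
    have h' : 0 < (C + 2 * (PPP * lT) + 16 * (f0 * w0 + f1 * w1 + (f2 * w2 + f3 * w3)) +
      48 * (wE * fe)) - (2 * OFF * (PPP + 8 * (w0 + w1 + (w2 + w3))) + 48 * (wE * OFF)) := h
    change (((C + 2 * (PPP * lT) + 16 * (f0 * w0 + f1 * w1 + (f2 * w2 + f3 * w3)) +
      48 * (wE * fe)) - (2 * OFF * (PPP + 8 * (w0 + w1 + (w2 + w3))) + 48 * (wE * OFF)) : ℕ) : ℤ)
      = _
    rw [Nat.cast_sub (by omega), hsg]
    push_cast; ring
  · rw [hb] at h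
    have hs : sg % 2 = 0 := Nat.eq_of_beq_eq_true hb
    have hsg : (-1 : ℤ) ^ sg = 1 := Even.neg_one_pow (Nat.even_iff.2 hs)
    have h' : 0 < (C + 2 * (PPP * lT) + 16 * (f0 * w0 + f1 * w1 + (f2 * w2 + f3 * w3)) +
      48 * (wE * OFF)) - (2 * OFF * (PPP + 8 * (w0 + w1 + (w2 + w3))) + 48 * (wE * fe)) := h
    change (((C + 2 * (PPP * lT) + 16 * (f0 * w0 + f1 * w1 + (f2 * w2 + f3 * w3)) +
      48 * (wE * OFF)) - (2 * OFF * (PPP + 8 * (w0 + w1 + (w2 + w3))) + 48 * (wE * fe)) : ℕ) : ℤ)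
      = _
    rw [Nat.cast_sub (by omega), hsg]
    push_cast; ring

/-- **plane codes**, without extra line -/
theorem gval_specN (hT : TabOK A B k FL FE OFF TD NP NU) (M : ℕ → ℕ) (hM : ∀ i, 1 ≤ M i)
    (s C code : ℕ) (h : 0 < gval FL FE OFF TD NP NU M s evN C (PPn M s) code) :
    ∃ N' ∈ TInt (Hf A B k) M s,
      ((gval FL FE OFF TD NP NU M s evN C (PPn M s) code : ℕ) : ℤ) = C + 2 * N' := by
  unfold gval at h ⊢
  rw [force_eq, force_eq] at h ⊢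
  simp only [force_eq] at h ⊢
  rcases hb : Nat.ble (Nat.succ (Nat.mod code (nat_lit 4096))) NU with _ | _
  · rw [hb] at h; exact absurd h (lt_irrefl 0)
  · rw [hb] at h
    have hlt : code % 4096 < NU := Nat.le_of_ble_eq_true hb
    obtain ⟨b, b', h1, h2⟩ := hT.plane _ hlt
    have hz := hT.zero
    have h3 := gcore_eq _ _ _ _ _ _ _ _ _ _ _ _ _ _ _ h
    refine ⟨_, ⟨b, b', fun j => cT (((code / 4096) >>> (4 * j)) % 16),
      fun j => cT' (((code / 4096) >>> (4 * j)) % 16), rfl⟩, ?_⟩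
    refine h3.trans ?_
    have q0 := h1 0
    have q1 := h1 1
    have q2 := h1 2
    have q3 := h1 3
    have w0 := WQ_eq M hM (code / 4096) 0 s
    have w1 := WQ_eq M hM (code / 4096) 1 s
    have w2 := WQ_eq M hM (code / 4096) 2 s
    have w3 := WQ_eq M hM (code / 4096) 3 s
    have we := WE_eq M hM (code / 4096) s
    rw [Fin.sum_univ_four, ← w0, ← w1, ← w2, ← w3, ← we, ← PPn_eq]
    have e0 : ((ln FL (dq TD (code % 4096) 0) : ℕ) : ℤ) - OFF =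
      Hf A B k ((lineC 0).1 • b + (lineC 0).2 • b') 0 := by
      have := q0; change ((ln FL (dq TD (code % 4096) 0) : ℕ) : ℤ) = _ at this; linarith
    have e1 : ((ln FL (dq TD (code % 4096) 1) : ℕ) : ℤ) - OFF =
      Hf A B k ((lineC 1).1 • b + (lineC 1).2 • b') 0 := by
      have := q1; change ((ln FL (dq TD (code % 4096) 1) : ℕ) : ℤ) = _ at this; linarith
    have e2 : ((ln FL (dq TD (code % 4096) 2) : ℕ) : ℤ) - OFF =
      Hf A B k ((lineC 2).1 • b + (lineC 2).2 • b') 0 := by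
      have := q2; change ((ln FL (dq TD (code % 4096) 2) : ℕ) : ℤ) = _ at this; linarith
    have e3 : ((ln FL (dq TD (code % 4096) 3) : ℕ) : ℤ) - OFF =
      Hf A B k ((lineC 3).1 • b + (lineC 3).2 • b') 0 := by
      have := q3; change ((ln FL (dq TD (code % 4096) 3) : ℕ) : ℤ) = _ at this; linarith
    have e4 : ((ln FE (code % 4096) : ℕ) : ℤ) - OFF = Hf A B k b b' := by linarith
    have e5 : ((ln FL NP : ℕ) : ℤ) - OFF = Hf A B k 0 0 := by linarith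
    rw [← e0, ← e1, ← e2, ← e3, ← e4, ← e5]
    change (C : ℤ) + 2 * ((((ln FL NP : ℕ) : ℤ) - OFF) * (PPn M s : ℕ) + 8 *
      ((((ln FL (dq TD (code % 4096) 0) : ℕ) : ℤ) - OFF) * ((1 * WQ M (code / 4096) 0 s : ℕ) : ℤ) +
       (((ln FL (dq TD (code % 4096) 1) : ℕ) : ℤ) - OFF) * ((1 * WQ M (code / 4096) 1 s : ℕ) : ℤ) +
       (((ln FL (dq TD (code % 4096) 2) : ℕ) : ℤ) - OFF) * ((1 * WQ M (code / 4096) 2 s : ℕ) : ℤ) +
       (((ln FL (dq TD (code % 4096) 3) : ℕ) : ℤ) - OFF) * ((1 * WQ M (code / 4096) 3 s : ℕ) : ℤ)) -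
      24 * ((((ln FE (code % 4096) : ℕ) : ℤ) - OFF) *
        ((-1) ^ (SG (code / 4096) s) * ((1 * WE M (code / 4096) s : ℕ) : ℤ)))) = _
    simp only [one_mul]
    have v0 : ((0 : Fin 4).val) = 0 := rfl
    have v1 : ((1 : Fin 4).val) = 1 := rfl
    have v2 : ((2 : Fin 4).val) = 2 := rfl
    have v3 : ((3 : Fin 4).val) = 3 := rfl
    rw [v0, v1, v2, v3]

/-- **plane codes**, with an extra line -/
theorem gval_specE (hT : TabOK A B k FL FE OFF TD NP NU) (M : ℕ → ℕ) (hM : ∀ i, 1 ≤ M i)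
    (Q s C code : ℕ)
    (h : 0 < gval FL FE OFF TD NP NU M s (evE (Q + 3) Q) C (Nat.mul (Q + 3) (PPn M s)) code) :
    ∃ N' ∈ TIntE (Hf A B k) M Q s,
      ((gval FL FE OFF TD NP NU M s (evE (Q + 3) Q) C (Nat.mul (Q + 3) (PPn M s)) code : ℕ) : ℤ) =
        C + 2 * N' := by
  unfold gval at h ⊢
  rw [force_eq, force_eq] at h ⊢
  simp only [force_eq] at h ⊢
  rcases hb : Nat.ble (Nat.succ (Nat.mod code (nat_lit 4096))) NU with _ | _
  · rw [hb] at h; exact absurd h (lt_irrefl 0)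
  · rw [hb] at h
    have hlt : code % 4096 < NU := Nat.le_of_ble_eq_true hb
    obtain ⟨b, b', h1, h2⟩ := hT.plane _ hlt
    have hz := hT.zero
    have h3 := gcore_eq _ _ _ _ _ _ _ _ _ _ _ _ _ _ _ h
    set ε := code / 4096 / 4096 with hε
    refine ⟨_, ⟨b, b', yT ε, yT' ε, fun j => cT (((code / 4096) >>> (4 * j)) % 16),
      fun j => cT' (((code / 4096) >>> (4 * j)) % 16), rfl⟩, ?_⟩
    refine h3.trans ?_
    have q0 := h1 0
    have q1 := h1 1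
    have q2 := h1 2
    have q3 := h1 3
    have w0 := WQ_eq M hM (code / 4096) 0 s
    have w1 := WQ_eq M hM (code / 4096) 1 s
    have w2 := WQ_eq M hM (code / 4096) 2 s
    have w3 := WQ_eq M hM (code / 4096) 3 s
    have we := WE_eq M hM (code / 4096) s
    rw [Fin.sum_univ_four, ← w0, ← w1, ← w2, ← w3, ← we, ← PPn_eq, eXv_eL, eXv_eL, eXv_eL,
      eXv_eL, eXv_eL4]
    have e0 : ((ln FL (dq TD (code % 4096) 0) : ℕ) : ℤ) - OFF =
      Hf A B k ((lineC 0).1 • b + (lineC 0).2 • b') 0 := by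
      have := q0; change ((ln FL (dq TD (code % 4096) 0) : ℕ) : ℤ) = _ at this; linarith
    have e1 : ((ln FL (dq TD (code % 4096) 1) : ℕ) : ℤ) - OFF =
      Hf A B k ((lineC 1).1 • b + (lineC 1).2 • b') 0 := by
      have := q1; change ((ln FL (dq TD (code % 4096) 1) : ℕ) : ℤ) = _ at this; linarith
    have e2 : ((ln FL (dq TD (code % 4096) 2) : ℕ) : ℤ) - OFF =
      Hf A B k ((lineC 2).1 • b + (lineC 2).2 • b') 0 := by
      have := q2; change ((ln FL (dq TD (code % 4096) 2) : ℕ) : ℤ) = _ at this; linarith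
    have e3 : ((ln FL (dq TD (code % 4096) 3) : ℕ) : ℤ) - OFF =
      Hf A B k ((lineC 3).1 • b + (lineC 3).2 • b') 0 := by
      have := q3; change ((ln FL (dq TD (code % 4096) 3) : ℕ) : ℤ) = _ at this; linarith
    have e4 : ((ln FE (code % 4096) : ℕ) : ℤ) - OFF = Hf A B k b b' := by linarith
    have e5 : ((ln FL NP : ℕ) : ℤ) - OFF = Hf A B k 0 0 := by linarith
    rw [← e0, ← e1, ← e2, ← e3, ← e4, ← e5]
    have v0 : ((0 : Fin 4).val) = 0 := rfl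
    have v1 : ((1 : Fin 4).val) = 1 := rfl
    have v2 : ((2 : Fin 4).val) = 2 := rfl
    have v3 : ((3 : Fin 4).val) = 3 := rfl
    rw [v0, v1, v2, v3]
    change (C : ℤ) + 2 * ((((ln FL NP : ℕ) : ℤ) - OFF) * (((Q + 3) * PPn M s : ℕ) : ℤ) + 8 *
      ((((ln FL (dq TD (code % 4096) 0) : ℕ) : ℤ) - OFF) *
          ((eXv (Q + 3) Q (selX ε 0) * WQ M (code / 4096) 0 s : ℕ) : ℤ) +
       (((ln FL (dq TD (code % 4096) 1) : ℕ) : ℤ) - OFF) *
          ((eXv (Q + 3) Q (selX ε 1) * WQ M (code / 4096) 1 s : ℕ) : ℤ) +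
       (((ln FL (dq TD (code % 4096) 2) : ℕ) : ℤ) - OFF) *
          ((eXv (Q + 3) Q (selX ε 2) * WQ M (code / 4096) 2 s : ℕ) : ℤ) +
       (((ln FL (dq TD (code % 4096) 3) : ℕ) : ℤ) - OFF) *
          ((eXv (Q + 3) Q (selX ε 3) * WQ M (code / 4096) 3 s : ℕ) : ℤ)) -
      24 * ((((ln FE (code % 4096) : ℕ) : ℤ) - OFF) *
        ((-1) ^ (SG (code / 4096) s) *
          ((eXv (Q + 3) Q (selX ε 4) * WE M (code / 4096) s : ℕ) : ℤ)))) = _
    push_cast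
    ring

end

end Pool.Agent.Lib.MP_cfac74_al.Cov
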