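import Pool.Agent.Lib.MP_cfac74_al.Cov.Pack

/-!
# MP_cfac74_al : faster window checks (tree folds, numbers relative to the window)
-/

set_option autoImplicit false
set_option linter.unusedSectionVars false

namespace Pool.Agent.Lib.MP_cfac74_al.Cov

open Finset Pool.Agent.Lib.MP_cfac74_al.Dec Pool.Agent.Lib.MP_cfac74_al.Ch
open Pool.Agent.Lib.MP_cfac74_al.Tab (evT monz lane dsc Geo)

/-! ### tree folds -/

/-- union of the translates of `X` by `m y`, for at most `2 ^ d` members `y` of the list;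
the result is relative to the first member -/
noncomputable def tr (m X : ℕ) (d : ℕ) : List ℕ → (ℕ → ℕ → List ℕ → ℕ) → ℕ :=
  @Nat.rec (fun _ => List ℕ → (ℕ → ℕ → List ℕ → ℕ) → ℕ)
    (fun l k => @List.rec ℕ (fun _ => ℕ) (k (nat_lit 0) (nat_lit 0) []) (fun y l' _ => k y X l') l)
    (fun _ ih l k => @List.rec ℕ (fun _ => ℕ) (k (nat_lit 0) (nat_lit 0) [])
      (fun y l' _ => ih (y :: l') (fun y1 x1 l1 => ih l1 (fun y2 x2 l2 =>
        k y1 (@Bool.rec (fun _ => ℕ) x1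
          (Nat.lor x1 (Nat.shiftLeft x2 (Nat.mul m (Nat.sub y2 y1)))) (Nat.ble y1 y2)) l2))) l) d

theorem tr_spec (m X d : ℕ) : ∀ (l : List ℕ) (k : ℕ → ℕ → List ℕ → ℕ),
    ∃ y x l', tr m X d l k = k y x l' ∧ (∀ z ∈ l', z ∈ l) ∧
      ∀ b, x.testBit b = true → ∃ z ∈ l, ∃ j, X.testBit j = true ∧ b + m * y = j + m * z := by
  induction d with
  | zero =>
    intro l k
    cases l with
    | nil =>
      refine ⟨0, 0, [], rfl, fun z hz => hz, fun b hb => ?_⟩
      rw [Nat.zero_testBit] at hb; exact Bool.noConfusion hb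
    | cons y l' =>
      exact ⟨y, X, l', rfl, fun z hz => List.mem_cons_of_mem _ hz,
        fun b hb => ⟨y, List.mem_cons_self, b, hb, rfl⟩⟩
  | succ d ih =>
    intro l k
    cases l with
    | nil =>
      refine ⟨0, 0, [], rfl, fun z hz => hz, fun b hb => ?_⟩
      rw [Nat.zero_testBit] at hb; exact Bool.noConfusion hb
    | cons y l' =>
      have e : tr m X (d + 1) (y :: l') k = tr m X d (y :: l') (fun y1 x1 l1 =>
        tr m X d l1 (fun y2 x2 l2 => k y1 (@Bool.rec (fun _ => ℕ) x1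
          (Nat.lor x1 (Nat.shiftLeft x2 (Nat.mul m (Nat.sub y2 y1)))) (Nat.ble y1 y2)) l2)) := rfl
      obtain ⟨y1, x1, l1, h1, h2, h3⟩ := ih (y :: l') (fun y1 x1 l1 =>
        tr m X d l1 (fun y2 x2 l2 => k y1 (@Bool.rec (fun _ => ℕ) x1
          (Nat.lor x1 (Nat.shiftLeft x2 (Nat.mul m (Nat.sub y2 y1)))) (Nat.ble y1 y2)) l2))
      obtain ⟨y2, x2, l2, h4, h5, h6⟩ := ih l1 (fun y2 x2 l2 => k y1 (@Bool.rec (fun _ => ℕ) x1
          (Nat.lor x1 (Nat.shiftLeft x2 (Nat.mul m (Nat.sub y2 y1)))) (Nat.ble y1 y2)) l2)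
      refine ⟨y1, _, l2, by rw [e, h1, h4], fun z hz => h2 z (h5 z hz), fun b hb => ?_⟩
      rcases hc : Nat.ble y1 y2 with _ | _
      · rw [hc] at hb
        exact h3 b hb
      · rw [hc] at hb
        have hb' : (x1 ||| (x2 <<< (m * (y2 - y1)))).testBit b = true := hb
        have hle : y1 ≤ y2 := Nat.le_of_ble_eq_true hc
        rw [Nat.testBit_or, Bool.or_eq_true, Nat.testBit_shiftLeft, Bool.and_eq_true,
          decide_eq_true_iff] at hb'
        rcases hb' with hb' | ⟨h7, h8⟩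
        · exact h3 b hb'
        · obtain ⟨z, hz, j, hj, h9⟩ := h6 _ h8
          refine ⟨z, h2 z hz, j, hj, ?_⟩
          rw [← h9]
          obtain ⟨w, rfl⟩ : ∃ w, y2 = y1 + w := ⟨y2 - y1, by omega⟩
          rw [Nat.add_sub_cancel_left] at h7 ⊢
          rw [Nat.mul_add]
          omega

/-- union of the translates of `X` by `m y` -/
noncomputable def trF (m X : ℕ) (l : List ℕ) : ℕ :=
  tr m X (nat_lit 12) l (fun y x _ => Nat.shiftLeft x (Nat.mul m y))

theorem testBit_trF {m X : ℕ} {l : List ℕ} {b : ℕ} (h : (trF m X l).testBit b = true) :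
    ∃ z ∈ l, ∃ j, X.testBit j = true ∧ b = j + m * z := by
  obtain ⟨y, x, l', h1, _, h2⟩ := tr_spec m X 12 l (fun y x _ => Nat.shiftLeft x (Nat.mul m y))
  have e : trF m X l = x <<< (m * y) := h1
  rw [e, Nat.testBit_shiftLeft, Bool.and_eq_true, decide_eq_true_iff] at h
  obtain ⟨z, hz, j, hj, h3⟩ := h2 _ h.2
  exact ⟨z, hz, j, hj, by omega⟩

/-- iterated union, first member of the list first -/
noncomputable def foldT (ms : List (ℕ × List ℕ)) : ℕ → ℕ :=
  @List.rec (ℕ × List ℕ) (fun _ => ℕ → ℕ) (fun X => X)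
    (fun p _ ih X => force ih (trF p.1 X p.2)) ms

theorem testBit_foldT (ms : List (ℕ × List ℕ)) : ∀ X i,
    (foldT ms X).testBit i = true → ∃ j, InSum ms j ∧ ∃ x, X.testBit x = true ∧ i = x + j := by
  induction ms with
  | nil =>
    intro X i h
    exact ⟨0, rfl, i, h, rfl⟩
  | cons p ms ih =>
    intro X i h
    have e : foldT (p :: ms) X = force (foldT ms) (trF p.1 X p.2) := rfl
    rw [e, force_eq] at h
    obtain ⟨j, h1, x, h2, h3⟩ := ih _ _ h
    obtain ⟨z, hz, x', h4, h5⟩ := testBit_trF h2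
    exact ⟨j + p.1 * z, ⟨z, hz, j, h1, rfl⟩, x', h4, by omega⟩

section

variable {V : Type} [AddCommGroup V] [Module (ZMod 3) V]

/-- the chain bit set from folds (`δ = 2`) -/
theorem hY_of_foldT {H : (V →+ ZMod 3) → (V →+ ZMod 3) → ℤ} {M : ℕ → ℕ} {s : ℕ} {c : ℤ}
    {ms : List (ℕ × List ℕ)} (hK : KRep H M s 2 (3 * c) ms) (i : ℕ)
    (hi : (foldT ms 1).testBit i = true) : 3 * (c + 32 * (i : ℤ)) ∈ KInt H M s := by
  obtain ⟨j, h1, x, h2, h3⟩ := testBit_foldT _ _ _ hi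
  rw [Nat.testBit_one_eq_true_iff_self_eq_zero] at h2
  have h4 := hK j h1
  have e : 3 * (c + 32 * (i : ℤ)) = 3 * c + 48 * ((2 : ℕ) : ℤ) * j := by
    rw [h3, h2]; push_cast; ring
  rw [e]; exact h4

end

/-- truncated bit set of a chain -/
noncomputable def Ytr (need : ℕ) (ms : List (ℕ × List ℕ)) : ℕ :=
  Nat.mod (foldT ms (nat_lit 1)) (Nat.shiftLeft (nat_lit 1) need)

theorem shl_one (n : ℕ) : Nat.shiftLeft (nat_lit 1) n = 2 ^ n := by
  have h : Nat.shiftLeft (nat_lit 1) n = 1 <<< n := rfl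
  rw [h, Nat.one_shiftLeft]

theorem mask_eq (n : ℕ) : Nat.sub (Nat.shiftLeft (nat_lit 1) n) (nat_lit 1) = 2 ^ n - 1 := by
  rw [shl_one]; rfl

theorem hY_of_Ytr {V : Type} [AddCommGroup V] [Module (ZMod 3) V]
    {H : (V →+ ZMod 3) → (V →+ ZMod 3) → ℤ} {M : ℕ → ℕ} {s need : ℕ} {c : ℤ}
    {ms : List (ℕ × List ℕ)} (hK : KRep H M s 2 (3 * c) ms) (i : ℕ)
    (hi : (Ytr need ms).testBit i = true) : 3 * (c + 32 * (i : ℤ)) ∈ KInt H M s := by
  refine hY_of_foldT hK i ?_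
  unfold Ytr at hi
  rw [shl_one] at hi
  have h : (foldT ms 1 % 2 ^ need).testBit i = true := hi
  rw [Nat.testBit_mod_two_pow, Bool.and_eq_true] at h
  exact h.2

/-! ### classes -/

/-- `Y` translated by `d`, relative to `lo` -/
noncomputable def relS (Y lo d : ℕ) : ℕ :=
  @Bool.rec (fun _ => ℕ) (Nat.shiftRight Y (Nat.sub lo d)) (Nat.shiftLeft Y (Nat.sub d lo))
    (Nat.ble lo d)

theorem testBit_relS {Y lo d i : ℕ} (h : (relS Y lo d).testBit i = true) :
    ∃ j, Y.testBit j = true ∧ i + lo = j + d := by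
  unfold relS at h
  rcases hb : Nat.ble lo d with _ | _
  · rw [hb] at h
    have h1 : (Y >>> (lo - d)).testBit i = true := h
    have h2 : ¬ lo ≤ d := fun h' => by
      rw [Nat.ble_eq_true_of_le h'] at hb; exact Bool.noConfusion hb
    rw [Nat.testBit_shiftRight] at h1
    exact ⟨_, h1, by omega⟩
  · rw [hb] at h
    have h1 : (Y <<< (d - lo)).testBit i = true := h
    have h2 : lo ≤ d := Nat.le_of_ble_eq_true hb
    rw [Nat.testBit_shiftLeft, Bool.and_eq_true, decide_eq_true_iff] at h1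
    exact ⟨_, h1.2, by omega⟩

/-- union over the choices, relative to `lo` -/
noncomputable def orRel (g : ℕ → ℕ) (Y lo q ρ : ℕ) (l : List ℕ) : ℕ :=
  @List.rec ℕ (fun _ => ℕ) (nat_lit 0)
    (fun a _ ih => @Bool.rec (fun _ => ℕ) ih
      (Nat.lor ih (relS Y lo (Nat.div (g a) q))) (Nat.beq (Nat.mod (g a) q) ρ)) l

theorem testBit_orRel (g : ℕ → ℕ) (Y lo q ρ : ℕ) (l : List ℕ) (i : ℕ)
    (h : (orRel g Y lo q ρ l).testBit i = true) :
    ∃ a ∈ l, g a % q = ρ ∧ ∃ j, Y.testBit j = true ∧ i + lo = j + g a / q := by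
  induction l with
  | nil =>
    have h0 : orRel g Y lo q ρ [] = 0 := rfl
    rw [h0, Nat.zero_testBit] at h
    exact Bool.noConfusion h
  | cons a l ih =>
    rcases hb : Nat.beq (Nat.mod (g a) q) ρ with _ | _
    · have h0 : orRel g Y lo q ρ (a :: l) = orRel g Y lo q ρ l := by
        change @Bool.rec (fun _ => ℕ) _ _ (Nat.beq (Nat.mod (g a) q) ρ) = _
        rw [hb]; rfl
      rw [h0] at h
      obtain ⟨z, hz, h1⟩ := ih h
      exact ⟨z, List.mem_cons_of_mem _ hz, h1⟩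
    · have h0 : orRel g Y lo q ρ (a :: l) = (orRel g Y lo q ρ l) ||| (relS Y lo (g a / q)) := by
        change @Bool.rec (fun _ => ℕ) _ _ (Nat.beq (Nat.mod (g a) q) ρ) = _
        rw [hb]; rfl
      rw [h0, Nat.testBit_or, Bool.or_eq_true] at h
      rcases h with h | h
      · obtain ⟨z, hz, h1⟩ := ih h
        exact ⟨z, List.mem_cons_of_mem _ hz, h1⟩
      · exact ⟨a, List.mem_cons_self, Nat.eq_of_beq_eq_true hb, testBit_relS h⟩

/-- packed list (lanes of width `96`) -/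
noncomputable def unpack96 (n X : ℕ) : List ℕ :=
  @Nat.rec (fun _ => ℕ → List ℕ) (fun _ => [])
    (fun _ ih x => Nat.mod x (nat_lit 79228162514264337593543950336) ::
      ih (Nat.div x (nat_lit 79228162514264337593543950336))) n X

/-- check of the exception `i + 2^32 r + 2^44 x` of the class `ρ` -/
noncomputable def exC (q lo ρ e : ℕ) : Bool :=
  frobOK (Nat.add ρ (Nat.mul q (Nat.add lo (Nat.mod e (nat_lit 4294967296)))))
    (Nat.mod (Nat.div e (nat_lit 4294967296)) (nat_lit 4096)) (Nat.div e (nat_lit 17592186044416))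

/-- the valid exceptions -/
noncomputable def exL (q lo ρ : ℕ) (l : List ℕ) : List ℕ :=
  @List.rec ℕ (fun _ => List ℕ) []
    (fun e _ ih => @Bool.rec (fun _ => List ℕ) ih (Nat.mod e (nat_lit 4294967296) :: ih)
      (exC q lo ρ e)) l

theorem exL_spec {q lo ρ : ℕ} {l : List ℕ} {i : ℕ} (h : i ∈ exL q lo ρ l) :
    Good (ρ + q * (lo + i)) := by
  induction l with
  | nil => exact absurd h List.not_mem_nil
  | cons e l ih =>
    rcases hb : exC q lo ρ e with _ | _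
    · have h0 : exL q lo ρ (e :: l) = exL q lo ρ l := by
        change @Bool.rec (fun _ => List ℕ) _ _ (exC q lo ρ e) = _
        rw [hb]; rfl
      rw [h0] at h
      exact ih h
    · have h0 : exL q lo ρ (e :: l) = e % 4294967296 :: exL q lo ρ l := by
        change @Bool.rec (fun _ => List ℕ) _ _ (exC q lo ρ e) = _
        rw [hb]; rfl
      rw [h0] at h
      rcases List.mem_cons.1 h with rfl | h
      · exact frobOK_spec hb
      · exact ih h

/-- the numbers `t ≡ ρ mod q` of the window, prime to `3` -/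
def CL (q lo nn ρ : ℕ) : Prop :=
  ∀ t, t % q = ρ → t % 3 ≠ 0 → q * lo ≤ t → t < q * (lo + nn) → Good t

/-- `len` consecutive classes (step `16`) -/
def CLs (q lo nn ρ len : ℕ) : Prop := ∀ κ < len, CL q lo nn (ρ + 16 * κ)

/-- check of one class -/
noncomputable def clsC (g : ℕ → ℕ) (Y q lo mask ρ : ℕ) (p : (ℕ × ℕ) × (ℕ × ℕ)) : Bool :=
  Nat.beq (Nat.land (Nat.lor
    (orRel g Y lo (Nat.mul (nat_lit 9) q) (Nat.mul (nat_lit 9) ρ) (unpack p.1.1 p.1.2))
    (trF (nat_lit 1) (nat_lit 1) (exL q lo ρ (unpack96 p.2.1 p.2.2)))) mask) mask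

/-- check of consecutive classes -/
noncomputable def chkF (g : ℕ → ℕ) (Y q lo mask : ℕ) (L : List ((ℕ × ℕ) × (ℕ × ℕ))) : ℕ → Bool :=
  @List.rec ((ℕ × ℕ) × (ℕ × ℕ)) (fun _ => ℕ → Bool) (fun _ => true)
    (fun p _ ih ρ => bd (@Bool.rec (fun _ => Bool) (clsC g Y q lo mask ρ p) true
      (Nat.beq (Nat.mod ρ (nat_lit 3)) (nat_lit 0))) (ih (Nat.add ρ (nat_lit 16)))) L

theorem testBit_of_land_mask {X nn i : ℕ} (h : X &&& (2 ^ nn - 1) = 2 ^ nn - 1) (hi : i < nn) :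
    X.testBit i = true := by
  have h1 : (2 ^ nn - 1).testBit i = true := by
    rw [Nat.testBit_two_pow_sub_one]; exact decide_eq_true hi
  rw [← h, Nat.testBit_and, Bool.and_eq_true] at h1
  exact h1.1

theorem clsC_spec {g : ℕ → ℕ} {Y q lo nn ρ : ℕ} {p : (ℕ × ℕ) × (ℕ × ℕ)}
    (hρ3 : ρ % 3 ≠ 0)
    (hG : ∀ a u, g a = 9 * u → 0 < u → ∀ i, Y.testBit i = true → Good (u + q * i))
    (h : clsC g Y q lo (2 ^ nn - 1) ρ p = true) : CL q lo nn ρ := by
  intro t h1 h3 h4 h5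
  have hq0 : 0 < q := by
    rcases Nat.eq_zero_or_pos q with h0 | h0
    · rw [h0] at h5; omega
    · exact h0
  have h7 := Nat.div_add_mod t q
  rw [h1] at h7
  have h11 : lo ≤ t / q := by
    rw [Nat.le_div_iff_mul_le hq0, mul_comm]; exact h4
  have h12 : t / q < lo + nn := by
    rw [Nat.div_lt_iff_lt_mul hq0, mul_comm]; exact h5
  have h13 := testBit_of_land_mask (Nat.eq_of_beq_eq_true h)
    (show t / q - lo < nn by omega)
  have h14 : ((orRel g Y lo (9 * q) (9 * ρ) (unpack p.1.1 p.1.2)) |||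
      (trF 1 1 (exL q lo ρ (unpack96 p.2.1 p.2.2)))).testBit (t / q - lo) = true := h13
  rw [Nat.testBit_or, Bool.or_eq_true] at h14
  rcases h14 with h14 | h14
  · obtain ⟨a, _, h15, j, h16, h17⟩ := testBit_orRel _ _ _ _ _ _ _ h14
    have h18 := Nat.div_add_mod (g a) (9 * q)
    rw [h15] at h18
    obtain ⟨d, hd⟩ : ∃ d, d = g a / (9 * q) := ⟨_, rfl⟩
    rw [← hd] at h17 h18
    obtain ⟨u, hu⟩ : ∃ u, u = q * d + ρ := ⟨_, rfl⟩
    have hgu : g a = 9 * u := by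
      rw [hu, ← h18]
      have e1 : 9 * q * d = 9 * (q * d) := by ring
      omega
    have e2 : t / q = j + d := by omega
    have e1 : t = u + q * j := by
      rw [e2, Nat.mul_add] at h7
      omega
    rw [e1]
    exact hG a u hgu (by omega) j h16
  · obtain ⟨z, hz, j, h15, h16⟩ := testBit_trF h14
    have hj : j = 0 := by
      rw [Nat.testBit_one_eq_true_iff_self_eq_zero] at h15; exact h15
    have h17 := exL_spec hz
    have e2 : t / q = lo + z := by omega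
    have e1 : t = ρ + q * (lo + z) := by
      rw [e2] at h7
      omega
    rw [e1]; exact h17

theorem chkF_spec {g : ℕ → ℕ} {Y q lo nn : ℕ} (hq : q % 48 = 0)
    (hG : ∀ a u, g a = 9 * u → 0 < u → ∀ i, Y.testBit i = true → Good (u + q * i))
    (L : List ((ℕ × ℕ) × (ℕ × ℕ))) : ∀ ρ, chkF g Y q lo (2 ^ nn - 1) L ρ = true →
      CLs q lo nn ρ L.length := by
  induction L with
  | nil => intro ρ _ κ hκ; exact absurd hκ (by simp)
  | cons p L ih =>
    intro ρ h κ hκ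
    obtain ⟨h1, h2⟩ := bd_true (a := @Bool.rec (fun _ => Bool) (clsC g Y q lo (2 ^ nn - 1) ρ p) true
      (Nat.beq (Nat.mod ρ (nat_lit 3)) (nat_lit 0)))
      (b := chkF g Y q lo (2 ^ nn - 1) L (ρ + 16)) h
    cases κ with
    | zero =>
      rw [Nat.mul_zero, Nat.add_zero]
      rcases hb : Nat.beq (Nat.mod ρ (nat_lit 3)) (nat_lit 0) with _ | _
      · rw [hb] at h1
        refine clsC_spec ?_ hG h1
        intro h3
        have h4 : Nat.beq (Nat.mod ρ (nat_lit 3)) (nat_lit 0) = true := by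
          have h5 : Nat.mod ρ (nat_lit 3) = 0 := h3
          rw [h5]; rfl
        rw [hb] at h4
        exact Bool.noConfusion h4
      · have h3 : ρ % 3 = 0 := Nat.eq_of_beq_eq_true hb
        intro t h4 h5
        exfalso
        apply h5
        rw [← Nat.mod_mod_of_dvd t (show 3 ∣ q by omega), h4, h3]
    | succ κ =>
      have h3 := ih (ρ + 16) h2 κ (by simpa using hκ)
      have e : ρ + 16 * (κ + 1) = ρ + 16 + 16 * κ := by ring
      rw [e]; exact h3

theorem CLs.app {q lo nn ρ a ρ' b c : ℕ} (h1 : CLs q lo nn ρ a) (h2 : CLs q lo nn ρ' b)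
    (e1 : Nat.beq ρ' (Nat.add ρ (Nat.mul (nat_lit 16) a)) = true)
    (e2 : Nat.beq c (Nat.add a b) = true) : CLs q lo nn ρ c := by
  have e1' : ρ' = ρ + 16 * a := Nat.eq_of_beq_eq_true e1
  have e2' : c = a + b := Nat.eq_of_beq_eq_true e2
  intro κ hκ
  rcases Nat.lt_or_ge κ a with h | h
  · exact h1 κ h
  · have h3 := h2 (κ - a) (by omega)
    rw [e1'] at h3
    have e : ρ + 16 * κ = ρ + 16 * a + 16 * (κ - a) := by omega
    rw [e]; exact h3

theorem CLs.win {q lo nn r len lo' hi' : ℕ} (h : CLs q lo nn r len)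
    (e : bd (Nat.beq (Nat.mod q (nat_lit 48)) (nat_lit 0)) (bd (Nat.beq (Nat.mul (nat_lit 16) len) q)
      (bd (Nat.beq lo' (Nat.mul q lo)) (Nat.beq (Nat.succ hi') (Nat.mul q (Nat.add lo nn))))) = true) :
    Win r lo' hi' := by
  obtain ⟨h1, e⟩ := bd_true e
  obtain ⟨h2, e⟩ := bd_true e
  obtain ⟨h3, h4⟩ := bd_true e
  have h1' : q % 48 = 0 := Nat.eq_of_beq_eq_true h1
  have h2' : 16 * len = q := Nat.eq_of_beq_eq_true h2
  have h3' : lo' = q * lo := Nat.eq_of_beq_eq_true h3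
  have h4' : hi' + 1 = q * (lo + nn) := Nat.eq_of_beq_eq_true h4
  intro t ht1 ht3 ht4 ht5
  have hq0 : 0 < q := by
    rcases Nat.eq_zero_or_pos q with h0 | h0
    · rw [h0] at h4'; omega
    · exact h0
  have h10 : t % q < q := Nat.mod_lt _ hq0
  have h8 : t % q % 16 = r := by
    rw [Nat.mod_mod_of_dvd _ (by omega : 16 ∣ q)]; exact ht1
  refine h (t % q / 16) (by omega) t (by omega) ht3 (by omega) (by omega)

/-! ### complete checks over a geometry -/

section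

variable {n : ℕ} {A B : Fin n → Fin n → ZMod 3} {k : Fin n → ℕ} {FL FE OFF TD NP NU : ℕ}

/-- classes of a direct window, no extra line -/
noncomputable def dcN (FL FE OFF TD NP NU : ℕ) (M : ℕ → ℕ) (s : ℕ) (st : ℕ → ℕ × ℕ × ℕ)
    (c need : ℕ) (L : List ((ℕ × ℕ) × (ℕ × ℕ))) (ρ lo nn : ℕ) : Bool :=
  bd (Nat.ble OFF (ln FL NP)) (bd (posF st s)
    (bd (Nat.beq (K0F M (Nat.sub (ln FL NP) OFF) st s) (Nat.mul (nat_lit 3) c))
      (forceB (fun C => forceB (fun PPP => forceB (fun Y => forceB (fun mask =>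
        chkF (gval FL FE OFF TD NP NU M s evN C PPP) Y (nat_lit 96) lo mask L ρ)
        (Nat.sub (Nat.shiftLeft (nat_lit 1) nn) (nat_lit 1)))
        (Ytr need (msF M (ysF FL OFF NP M st) s)))
        (PPn M s)) (Nat.mul (nat_lit 27) c))))

theorem dcN_spec {M : ℕ → ℕ} (h : CoreOK A B k M) (hT : TabOK A B k FL FE OFF TD NP NU)
    {s : ℕ} (hs : 0 < s) {st : ℕ → ℕ × ℕ × ℕ} {c need : ℕ}
    {L : List ((ℕ × ℕ) × (ℕ × ℕ))} {ρ lo nn : ℕ}
    (hc : dcN FL FE OFF TD NP NU M s st c need L ρ lo nn = true) : CLs 96 lo nn ρ L.length := by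
  obtain ⟨h1, hc⟩ := bd_true hc
  obtain ⟨h2, hc⟩ := bd_true hc
  obtain ⟨h3, hc⟩ := bd_true hc
  rw [forceB_eq, forceB_eq, forceB_eq, forceB_eq, mask_eq] at hc
  have hM : ∀ i, 1 ≤ M i := fun i => (h.hM i).pos
  have hK := krepF hT M hM st s h2 h1
  have h4 : K0F M (Nat.sub (ln FL NP) OFF) st s = 3 * c := Nat.eq_of_beq_eq_true h3
  rw [h4] at hK
  push_cast at hK
  have hY := hY_of_Ytr (need := need) hK
  refine chkF_spec (by norm_num) ?_ L ρ hc
  intro a u hu hu0 i hi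
  have hg : 0 < gval FL FE OFF TD NP NU M s evN (Nat.mul (nat_lit 27) c) (PPn M s) a := by
    rw [hu]; omega
  obtain ⟨N', hN', h5⟩ := gval_specN hT M hM s (Nat.mul (nat_lit 27) c) a hg
  rw [hu] at h5
  refine good_core h hs (hY i hi) hN' _ ?_
  have h6 : ((9 * u : ℕ) : ℤ) = ((27 * c : ℕ) : ℤ) + 2 * N' := h5
  push_cast at h6 ⊢
  linarith

/-- classes of a direct window, with an extra line -/
noncomputable def dcE (FL FE OFF TD NP NU : ℕ) (M : ℕ → ℕ) (s : ℕ) (st : ℕ → ℕ × ℕ × ℕ)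
    (c need Q q : ℕ) (L : List ((ℕ × ℕ) × (ℕ × ℕ))) (ρ lo nn : ℕ) : Bool :=
  bd (Nat.ble OFF (ln FL NP)) (bd (posF st s)
    (bd (Nat.beq (K0F M (Nat.sub (ln FL NP) OFF) st s) (Nat.mul (nat_lit 3) c))
      (forceB (fun P => forceB (fun C => forceB (fun PPP => forceB (fun Y => forceB (fun mask =>
        bd (Nat.beq q (Nat.mul (nat_lit 96) P))
          (chkF (gval FL FE OFF TD NP NU M s (evE P Q) C PPP) Y q lo mask L ρ))
        (Nat.sub (Nat.shiftLeft (nat_lit 1) nn) (nat_lit 1)))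
        (Ytr need (msF M (ysF FL OFF NP M st) s)))
        (Nat.mul P (PPn M s))) (Nat.mul (Nat.mul (nat_lit 27) P) c)) (Nat.add Q (nat_lit 3)))))

theorem dcE_spec {M : ℕ → ℕ} (h : CoreOK A B k M) (hT : TabOK A B k FL FE OFF TD NP NU)
    {Q : ℕ} (hQ : Nm (3 * Q + 1))
    {s : ℕ} (hs : 0 < s) {st : ℕ → ℕ × ℕ × ℕ} {c need q : ℕ}
    {L : List ((ℕ × ℕ) × (ℕ × ℕ))} {ρ lo nn : ℕ}
    (hc : dcE FL FE OFF TD NP NU M s st c need Q q L ρ lo nn = true) : CLs q lo nn ρ L.length := by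
  obtain ⟨h1, hc⟩ := bd_true hc
  obtain ⟨h2, hc⟩ := bd_true hc
  obtain ⟨h3, hc⟩ := bd_true hc
  rw [forceB_eq, forceB_eq, forceB_eq, forceB_eq, forceB_eq, mask_eq] at hc
  obtain ⟨h9, hc⟩ := bd_true hc
  have hq : q = 96 * (Q + 3) := Nat.eq_of_beq_eq_true h9
  have hM : ∀ i, 1 ≤ M i := fun i => (h.hM i).pos
  have hK := krepF hT M hM st s h2 h1
  have h4 : K0F M (Nat.sub (ln FL NP) OFF) st s = 3 * c := Nat.eq_of_beq_eq_true h3
  rw [h4] at hK
  push_cast at hK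
  have hY := hY_of_Ytr (need := need) hK
  refine chkF_spec (by omega) ?_ L ρ hc
  intro a u hu hu0 i hi
  have hg : 0 < gval FL FE OFF TD NP NU M s (evE (Nat.add Q (nat_lit 3)) Q)
      (Nat.mul (Nat.mul (nat_lit 27) (Nat.add Q (nat_lit 3))) c)
      (Nat.mul (Nat.add Q (nat_lit 3)) (PPn M s)) a := by
    rw [hu]; omega
  obtain ⟨N', hN', h5⟩ := gval_specE hT M hM Q s (Nat.mul (Nat.mul (nat_lit 27) (Q + 3)) c) a hg
  have h5' : ((gval FL FE OFF TD NP NU M s (evE (Nat.add Q (nat_lit 3)) Q)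
      (Nat.mul (Nat.mul (nat_lit 27) (Nat.add Q (nat_lit 3))) c)
      (Nat.mul (Nat.add Q (nat_lit 3)) (PPn M s)) a : ℕ) : ℤ) =
      ((27 * (Q + 3) * c : ℕ) : ℤ) + 2 * N' := h5
  rw [hu] at h5'
  refine good_coreE h hQ hs (hY i hi) hN' _ ?_
  rw [hq]
  push_cast at h5' ⊢
  linarith

end

section

variable {n : ℕ} {A B : Fin n → Fin n → ZMod 3} {pts TL TE : List ℕ} {D NP NU : ℕ}

/-- length of the list of classes -/
noncomputable def lenC (L : List ((ℕ × ℕ) × (ℕ × ℕ))) : ℕ :=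
  @List.rec ((ℕ × ℕ) × (ℕ × ℕ)) (fun _ => ℕ) (nat_lit 0) (fun _ _ ih => Nat.succ ih) L

theorem lenC_eq (L : List ((ℕ × ℕ) × (ℕ × ℕ))) : lenC L = L.length := by
  induction L with
  | nil => rfl
  | cons a l ih =>
    change Nat.succ (lenC l) = _
    rw [ih]; rfl

/-- classes of a direct window, no extra line -/
noncomputable def cN (TL TE : List ℕ) (D NP NU : ℕ) (kl Ml : List ℕ) (s : ℕ)
    (st : List (ℕ × ℕ × ℕ)) (c need : ℕ) (L : List ((ℕ × ℕ) × (ℕ × ℕ))) (ρ lo nn len : ℕ) : Bool :=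
  bd (Nat.beq len (lenC L)) (bd (Nat.ble (nat_lit 1) s) (bd (coreC kl Ml)
  (runC TL TE kl fun FL FE OF => dcN FL FE OF D NP NU (seqM Ml) s (seqS st) c need L ρ lo nn)))

theorem cN_spec (hA : ∀ i j, A i j = - A j i) (hB : ∀ i j, B i j = - B j i)
    (G : Geo A B pts TL TE D NP NU) {kl Ml : List ℕ} {s : ℕ}
    {st : List (ℕ × ℕ × ℕ)} {c need : ℕ} {L : List ((ℕ × ℕ) × (ℕ × ℕ))}
    {ρ lo nn len : ℕ} (h : cN TL TE D NP NU kl Ml s st c need L ρ lo nn len = true) :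
    CLs 96 lo nn ρ len := by
  obtain ⟨h1, h⟩ := bd_true h
  obtain ⟨h2, h⟩ := bd_true h
  obtain ⟨h5, h⟩ := bd_true h
  rw [runC_eq] at h
  have h6 := dcN_spec (core_of_check h5 hA hB) (tab_of_geo G h5) (Nat.le_of_ble_eq_true h2) h
  rw [Nat.eq_of_beq_eq_true h1, lenC_eq]
  exact h6

/-- classes of a direct window, with an extra line -/
noncomputable def cE (TL TE : List ℕ) (D NP NU : ℕ) (kl Ml : List ℕ) (s : ℕ)
    (st : List (ℕ × ℕ × ℕ)) (c need Q q : ℕ) (L : List ((ℕ × ℕ) × (ℕ × ℕ))) (ρ lo nn len : ℕ) : Bool :=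
  bd (Nat.beq len (lenC L)) (bd (Nat.ble (nat_lit 1) s) (bd (coreC kl Ml)
  (bd (nmC (Nat.succ (Nat.mul (nat_lit 3) Q)))
  (runC TL TE kl fun FL FE OF => dcE FL FE OF D NP NU (seqM Ml) s (seqS st) c need Q q L ρ lo nn))))

theorem cE_spec (hA : ∀ i j, A i j = - A j i) (hB : ∀ i j, B i j = - B j i)
    (G : Geo A B pts TL TE D NP NU) {kl Ml : List ℕ} {s : ℕ}
    {st : List (ℕ × ℕ × ℕ)} {c need Q q : ℕ} {L : List ((ℕ × ℕ) × (ℕ × ℕ))}
    {ρ lo nn len : ℕ} (h : cE TL TE D NP NU kl Ml s st c need Q q L ρ lo nn len = true) :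
    CLs q lo nn ρ len := by
  obtain ⟨h1, h⟩ := bd_true h
  obtain ⟨h2, h⟩ := bd_true h
  obtain ⟨h5, h⟩ := bd_true h
  obtain ⟨h7, h⟩ := bd_true h
  rw [runC_eq] at h
  have h6 := dcE_spec (core_of_check h5 hA hB) (tab_of_geo G h5) (nmC_spec h7).1
    (Nat.le_of_ble_eq_true h2) h
  rw [Nat.eq_of_beq_eq_true h1, lenC_eq]
  exact h6

end

end Pool.Agent.Lib.MP_cfac74_al.Cov
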