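import Pool.Agent.Lib.MP_cfac74_al.Cov.Base

/-!
# MP_cfac74_al : half windows (residue classes mod `32`)
-/

set_option autoImplicit false
set_option linter.unusedSectionVars false

namespace Pool.Agent.Lib.MP_cfac74_al.Cov

open Finset Pool.Agent.Lib.MP_cfac74_al.Dec Pool.Agent.Lib.MP_cfac74_al.Ch
open Pool.Agent.Lib.MP_cfac74_al.Tab (evT monz lane dsc Geo)

/-! ### integers -/

/-- residue class mod `32` after `j` extensions; `e` = parity of the starting level -/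
def clH (e : ℕ) (r : ℤ) : ℕ → ℤ
  | 0 => r
  | j + 1 => 3 * clH e r j + 16 * (((j + e + 1) % 2 : ℕ) : ℤ)

theorem clH_add16 (e : ℕ) (r : ℤ) (j : ℕ) :
    ∃ z, clH e (r + 16) j = clH e r j + 16 + 32 * z := by
  induction j with
  | zero => exact ⟨0, by simp [clH]⟩
  | succ j ih =>
    obtain ⟨z, hz⟩ := ih
    refine ⟨3 * z + 1, ?_⟩
    have h1 : clH e (r + 16) (j + 1) = 3 * clH e (r + 16) j + 16 * (((j + e + 1) % 2 : ℕ) : ℤ) := rfl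
    have h2 : clH e r (j + 1) = 3 * clH e r j + 16 * (((j + e + 1) % 2 : ℕ) : ℤ) := rfl
    rw [h1, h2, hz]; ring

theorem clH_mod16 (e : ℕ) (r : ℤ) (j : ℕ) : (16 : ℤ) ∣ clH e r j - 3 ^ j * r := by
  induction j with
  | zero => simp [clH]
  | succ j ih =>
    obtain ⟨z, hz⟩ := ih
    refine ⟨3 * z + (((j + e + 1) % 2 : ℕ) : ℤ), ?_⟩
    have h2 : clH e r (j + 1) = 3 * clH e r j + 16 * (((j + e + 1) % 2 : ℕ) : ℤ) := rfl
    rw [h2, pow_succ]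
    have : clH e r j = 3 ^ j * r + 16 * z := by linarith
    rw [this]; ring

theorem clH_congr (e : ℕ) (r r' : ℤ) (h : (32 : ℤ) ∣ r - r') (j : ℕ) :
    (32 : ℤ) ∣ clH e r j - clH e r' j := by
  induction j with
  | zero => simpa [clH] using h
  | succ j ih =>
    obtain ⟨z, hz⟩ := ih
    refine ⟨3 * z, ?_⟩
    have h1 : clH e r (j + 1) = 3 * clH e r j + 16 * (((j + e + 1) % 2 : ℕ) : ℤ) := rfl
    have h2 : clH e r' (j + 1) = 3 * clH e r' j + 16 * (((j + e + 1) % 2 : ℕ) : ℤ) := rfl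
    rw [h1, h2]; linarith

theorem clH_shift (e : ℕ) (r : ℤ) (j : ℕ) :
    (32 : ℤ) ∣ clH e r (j + 1) - clH (e + 1) (3 * r + 16 * (((e + 1) % 2 : ℕ) : ℤ)) j := by
  induction j with
  | zero =>
    have h1 : clH e r 1 = 3 * r + 16 * (((0 + e + 1) % 2 : ℕ) : ℤ) := rfl
    have h2 : clH (e + 1) (3 * r + 16 * (((e + 1) % 2 : ℕ) : ℤ)) 0 =
      3 * r + 16 * (((e + 1) % 2 : ℕ) : ℤ) := rfl
    rw [h1, h2, Nat.zero_add]
    simp
  | succ j ih =>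
    obtain ⟨z, hz⟩ := ih
    refine ⟨3 * z, ?_⟩
    have h1 : clH e r (j + 1 + 1) = 3 * clH e r (j + 1) + 16 * (((j + 1 + e + 1) % 2 : ℕ) : ℤ) := rfl
    have h2 : clH (e + 1) (3 * r + 16 * (((e + 1) % 2 : ℕ) : ℤ)) (j + 1) =
      3 * clH (e + 1) (3 * r + 16 * (((e + 1) % 2 : ℕ) : ℤ)) j +
        16 * (((j + (e + 1) + 1) % 2 : ℕ) : ℤ) := rfl
    have h3 : j + 1 + e + 1 = j + (e + 1) + 1 := by ring
    rw [h1, h2, h3]; linarith

/-- `t ≡ clH e r j mod 32` prime to `3`, between `81^j lo` and `81^j hi` -/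
def Half (e r lo hi : ℕ) : Prop :=
  ∀ j t : ℕ, (32 : ℤ) ∣ (t : ℤ) - clH e r j → t % 3 ≠ 0 → 81 ^ j * lo ≤ t → t ≤ 81 ^ j * hi → Good t

/-- two halves give a stable window -/
theorem Half.stab {e r r' lo hi lo' hi' a b r'' : ℕ} (h : Half e r lo hi) (h' : Half e r' lo' hi')
    (hc : bd (Nat.beq (Nat.mod (Nat.add r (nat_lit 16)) (nat_lit 32)) (Nat.mod r' (nat_lit 32)))
      (bd (Nat.beq (Nat.mod r'' (nat_lit 16)) (Nat.mod r (nat_lit 16)))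
      (bd (bd (Nat.ble lo a) (Nat.ble lo' a)) (bd (Nat.ble b hi) (Nat.ble b hi')))) = true) :
    Stab r'' a b := by
  obtain ⟨h1, hc⟩ := bd_true hc
  obtain ⟨h2, hc⟩ := bd_true hc
  obtain ⟨h3, h4⟩ := bd_true hc
  obtain ⟨h3, h5⟩ := bd_true h3
  obtain ⟨h4, h6⟩ := bd_true h4
  have h1' : (r + 16) % 32 = r' % 32 := Nat.eq_of_beq_eq_true h1
  have h2' : r'' % 16 = r % 16 := Nat.eq_of_beq_eq_true h2
  have h3' : lo ≤ a := Nat.le_of_ble_eq_true h3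
  have h5' : lo' ≤ a := Nat.le_of_ble_eq_true h5
  have h4' : b ≤ hi := Nat.le_of_ble_eq_true h4
  have h6' : b ≤ hi' := Nat.le_of_ble_eq_true h6
  intro j t ht ht3 hl hh
  have e1 : (16 : ℤ) ∣ (t : ℤ) - 3 ^ j * r'' := mod_to_dvd ht
  obtain ⟨x, hx⟩ := e1
  obtain ⟨y, hy⟩ := clH_mod16 e r j
  obtain ⟨w, hw⟩ : ∃ w : ℤ, (r'' : ℤ) = r + 16 * w := by
    refine ⟨((r'' / 16 : ℕ) : ℤ) - ((r / 16 : ℕ) : ℤ), ?_⟩
    omega
  -- `t - clH` is a multiple of `16`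
  obtain ⟨z, hz⟩ : ∃ z : ℤ, (t : ℤ) - clH e r j = 16 * z :=
    ⟨x - y + 3 ^ j * w, by
      have e2 : (t : ℤ) = 3 ^ j * r'' + 16 * x := by linarith
      have e3 : clH e r j = 3 ^ j * r + 16 * y := by linarith
      rw [e2, e3, hw]; ring⟩
  rcases Int.even_or_odd' z with ⟨v, hv | hv⟩
  · refine h j t ⟨v, by rw [hz, hv]; ring⟩ ht3 ?_ ?_
    · exact (Nat.mul_le_mul_left _ h3').trans hl
    · exact hh.trans (Nat.mul_le_mul_left _ h4')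
  · refine h' j t ?_ ht3 ((Nat.mul_le_mul_left _ h5').trans hl)
      (hh.trans (Nat.mul_le_mul_left _ h6'))
    obtain ⟨u, hu⟩ := clH_add16 e r j
    have e4 : (32 : ℤ) ∣ ((r : ℤ) + 16) - r' := by
      refine ⟨(((r + 16) / 32 : ℕ) : ℤ) - ((r' / 32 : ℕ) : ℤ), ?_⟩
      omega
    obtain ⟨u', hu'⟩ := clH_congr e _ _ e4 j
    refine ⟨v + u' - u, ?_⟩
    have e5 : clH e (r' : ℤ) j = clH e ((r : ℤ) + 16) j - 32 * u' := by linarith
    rw [e5, hu]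
    have e6 : (t : ℤ) = clH e r j + 16 * (2 * v + 1) := by rw [← hv]; linarith
    rw [e6]; ring

/-- scaling of a half window -/
theorem Half.scale {e r lo hi r' : ℕ} (h : Half e r lo hi)
    (hr : Nat.beq (Nat.mod r' (nat_lit 32)) (Nat.mod (Nat.add (Nat.mul (nat_lit 3) r)
      (Nat.mul (nat_lit 16) (Nat.mod (Nat.succ e) (nat_lit 2)))) (nat_lit 32)) = true) :
    Half (e + 1) r' (81 * lo) (81 * hi) := by
  have hr' : r' % 32 = (3 * r + 16 * ((e + 1) % 2)) % 32 := Nat.eq_of_beq_eq_true hr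
  intro j t ht ht3 hl hh
  have e4 : (32 : ℤ) ∣ (3 * (r : ℤ) + 16 * (((e + 1) % 2 : ℕ) : ℤ)) - r' := by
    refine ⟨(((3 * r + 16 * ((e + 1) % 2)) / 32 : ℕ) : ℤ) - ((r' / 32 : ℕ) : ℤ), ?_⟩
    omega
  refine h (j + 1) t ?_ ht3 ?_ ?_
  · obtain ⟨x, hx⟩ := ht
    obtain ⟨y, hy⟩ := clH_shift e r j
    obtain ⟨z, hz⟩ := clH_congr (e + 1) _ _ e4 j
    refine ⟨x - y - z, ?_⟩
    linarith
  · rw [pow_succ, mul_assoc]; exact hl
  · rw [pow_succ, mul_assoc]; exact hh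

/-- scaling of a stable window -/
theorem Stab.scale {r lo hi r' : ℕ} (h : Stab r lo hi)
    (hr : Nat.beq (Nat.mod r' (nat_lit 16)) (Nat.mod (Nat.mul (nat_lit 3) r) (nat_lit 16)) = true) :
    Stab r' (81 * lo) (81 * hi) := by
  have hr' : r' % 16 = (3 * r) % 16 := Nat.eq_of_beq_eq_true hr
  intro j t ht ht3 hl hh
  refine h (j + 1) t ?_ ht3 ?_ ?_
  · rw [ht, Nat.mul_mod, hr', ← Nat.mul_mod, pow_succ]
    congr 1; ring
  · rw [pow_succ, mul_assoc]; exact hl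
  · rw [pow_succ, mul_assoc]; exact hh

/-- parity of the level -/
theorem Half.par {e e' r lo hi : ℕ} (h : Half e r lo hi) (he : e % 2 = e' % 2) :
    Half e' r lo hi := by
  have key : ∀ j, clH e' (r : ℤ) j = clH e (r : ℤ) j := by
    intro j
    induction j with
    | zero => rfl
    | succ j ih =>
      have h1 : clH e' (r : ℤ) (j + 1) = 3 * clH e' r j + 16 * (((j + e' + 1) % 2 : ℕ) : ℤ) := rfl
      have h2 : clH e (r : ℤ) (j + 1) = 3 * clH e r j + 16 * (((j + e + 1) % 2 : ℕ) : ℤ) := rfl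
      have h3 : (j + e' + 1) % 2 = (j + e + 1) % 2 := by omega
      rw [h1, h2, ih, h3]
  intro j t ht
  rw [key] at ht
  exact h j t ht

/-! ### the class of the chain values mod `16` and `32` -/

theorem ccH_mod (c β : ℤ) (hc : Odd c) (h : (16 : ℤ) ∣ β - c - 8) (k : ℕ) :
    (16 : ℤ) ∣ 11 ^ k * β - cc1 c β k - 8 * (k + 1) ∧ Odd (cc1 c β k) := by
  induction k with
  | zero => simpa [cc1] using ⟨h, hc⟩
  | succ k ih =>
    obtain ⟨⟨x, hx⟩, ⟨z, hz⟩⟩ := ih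
    have e : cc1 c β (k + 1) = 81 * cc1 c β k + 2 * 11 ^ k * β := rfl
    have e1 : (11 : ℤ) ^ k * β = cc1 c β k + 8 * (k + 1) + 16 * x := by linarith
    constructor
    · rw [e, pow_succ]
      push_cast
      have e3 : (11 : ℤ) ^ k * 11 * β = 11 * (11 ^ k * β) := by ring
      have e4 : 2 * (11 : ℤ) ^ k * β = 2 * (11 ^ k * β) := by ring
      rw [e3, e4, e1, hz]
      -- 9 (11^k β) - 81 cc1 - 8 (k+2)
      refine ⟨9 * x + 4 * (k + 1) - 9 * z - 5, ?_⟩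
      ring
    · rw [e]
      have e4 : 2 * (11 : ℤ) ^ k * β = 2 * (11 ^ k * β) := by ring
      rw [e4]
      have h1 : Odd (81 * cc1 c β k) := Odd.mul (by decide) ⟨z, hz⟩
      exact h1.add_even (even_two_mul _)

theorem ccH_class (P c β β' r : ℤ) (hP : Odd P) (hc : Odd c) (hβ' : Odd β')
    (h : (16 : ℤ) ∣ β - c - 8) (hr : (32 : ℤ) ∣ 3 * P * c + 2 * β' - r) (k : ℕ) :
    (32 : ℤ) ∣ 3 * P * cc1 c β k + 2 * 11 ^ k * β' - clH 0 r k := by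
  induction k with
  | zero => simpa [cc1, clH] using hr
  | succ k ih =>
    obtain ⟨x, hx⟩ := ih
    obtain ⟨⟨y, hy⟩, ⟨z, hz⟩⟩ := ccH_mod c β hc h k
    have e : cc1 c β (k + 1) = 81 * cc1 c β k + 2 * 11 ^ k * β := rfl
    have e2 : clH 0 r (k + 1) = 3 * clH 0 r k + 16 * (((k + 0 + 1) % 2 : ℕ) : ℤ) := rfl
    have e1 : (11 : ℤ) ^ k * β = cc1 c β k + 8 * (k + 1) + 16 * y := by linarith
    have e3 : clH 0 r k = 3 * P * cc1 c β k + 2 * (11 ^ k * β') - 32 * x := by linarith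
    have e4 : 3 * P * (81 * cc1 c β k + 2 * 11 ^ k * β) + 2 * (11 : ℤ) ^ (k + 1) * β' =
      3 * P * (81 * cc1 c β k + 2 * (11 ^ k * β)) + 22 * (11 ^ k * β') := by ring
    obtain ⟨p, hp⟩ := hP
    obtain ⟨b, hb⟩ : Odd ((11 : ℤ) ^ k * β') := Odd.mul (Odd.pow (by decide)) hβ'
    -- parity of `k + 1`
    obtain ⟨w, hw⟩ : ∃ w : ℤ, ((k : ℤ) + 1) = 2 * w + (((k + 0 + 1) % 2 : ℕ) : ℤ) :=
      ⟨(((k + 1) / 2 : ℕ) : ℤ), by omega⟩
    rw [e, e2, e4, e3, e1, hw, hb, hz, hp]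
    generalize (((k + 0 + 1) % 2 : ℕ) : ℤ) = ε
    refine ⟨3 * x + b + 3 * y + ε + 3 * w + 15 * z + 6 * p * y + 3 * p * ε + 6 * p * w +
      30 * p * z + 15 * p + 8, ?_⟩
    ring

/-- **C1, half windows** -/
theorem extendH {KS NS TS : ℕ → Set ℤ} {s₀ : ℕ}
    (hK : ∀ i, s₀ ≤ i → ∀ K ∈ KS i, ∀ N ∈ NS i, 81 * K + 2 * N ∈ KS (i + 1))
    (hN : ∀ i, s₀ ≤ i → ∀ z ∈ NS i, 11 * z ∈ NS (i + 1))
    (hT : ∀ i, s₀ ≤ i → ∀ z ∈ TS i, 11 * z ∈ TS (i + 1))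
    (P a b c β β' r Bmax Bmax' lo hi : ℤ) (hP : 0 < P) (hP2 : Odd P)
    (hP11 : IsCoprime P 11) (hc : Odd c) (hβ'1 : Odd β')
    (h1 : ∀ T, (32 : ℤ) ∣ T - c → a ≤ T → T ≤ b → 3 * T ∈ KS s₀)
    (h2 : ∀ ρ : ℤ, ∃ B, 3 * B ∈ NS s₀ ∧ (16 : ℤ) ∣ B - β ∧ 0 ≤ B ∧ B ≤ Bmax ∧
      (81 : ℤ) ∣ 2 * B - ρ)
    (h3 : ∀ ρ : ℤ, ¬ (3 : ℤ) ∣ ρ → ∃ B', 9 * B' ∈ TS s₀ ∧ (16 : ℤ) ∣ B' - β' ∧
      0 ≤ B' ∧ B' ≤ Bmax' ∧ (3 * P) ∣ 2 * B' - ρ)
    (hβ : (16 : ℤ) ∣ β - c - 8) (hr : (32 : ℤ) ∣ 3 * P * c + 2 * β' - r)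
    (hlo : 3 * P * (70 * a + 2 * Bmax) + 140 * Bmax' ≤ 70 * lo) (hhi : hi ≤ 3 * P * b)
    (k : ℕ) (t : ℤ) (ht : (32 : ℤ) ∣ t - clH 0 r k) (ht3 : ¬ (3 : ℤ) ∣ t)
    (hl : 81 ^ k * lo ≤ t) (hh : t ≤ 81 ^ k * hi) :
    ∃ K ∈ KS (s₀ + k), ∃ N ∈ TS (s₀ + k), 9 * t = 9 * (P * K) + 2 * N := by
  obtain ⟨x, hx⟩ := ht
  obtain ⟨y, hy⟩ := ccH_class P c β β' r hP2 hc hβ'1 hβ hr k
  obtain ⟨u, v, huv⟩ := pow11_invP hP11 k
  have hu3 : ¬ (3 : ℤ) ∣ u * t := by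
    intro h
    rcases Int.prime_three.dvd_or_dvd h with h | h
    · obtain ⟨w, hw⟩ := h
      rw [hw] at huv
      have : (3 : ℤ) ∣ 1 := ⟨w * 11 ^ k + P * v, by linear_combination -huv⟩
      omega
    · exact ht3 h
  obtain ⟨B', hB1, ⟨w, hw⟩, hB3, hB4, ⟨q, hq⟩⟩ := h3 (u * t) hu3
  have hp : (0 : ℤ) < 11 ^ k := by positivity
  have hp81 : (0 : ℤ) < 81 ^ k := by positivity
  obtain ⟨T, hT₁⟩ : ∃ T, t = 3 * P * T + 2 * 11 ^ k * B' := by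
    refine ⟨v * t - 11 ^ k * q, ?_⟩
    have e1 : 2 * B' = u * t + 3 * P * q := by linarith
    have e2 : 2 * (11 : ℤ) ^ k * B' = 11 ^ k * (2 * B') := by ring
    rw [e2, e1]
    linear_combination (-t) * huv
  have hmem : 3 * T ∈ KS (s₀ + k) := by
    apply ext_KS hK hN a b c β Bmax h1 h2 k
    · have h6 : (32 : ℤ) ∣ 3 * P * (T - cc1 c β k) := by
        have e1 : B' = β' + 16 * w := by linarith
        refine ⟨x - y - 11 ^ k * w, ?_⟩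
        have e5 : 3 * P * (T - cc1 c β k) = t - 2 * 11 ^ k * B' - 3 * P * cc1 c β k := by
          linarith
        rw [e5, e1]
        have e7 : 2 * (11 : ℤ) ^ k * (β' + 16 * w) = 2 * 11 ^ k * β' + 32 * (11 ^ k * w) := by ring
        rw [e7]
        linarith
      have h7 : IsCoprime (32 : ℤ) (3 * P) := by
        have h8 : IsCoprime P 2 := by
          obtain ⟨m, hm⟩ := hP2
          exact ⟨1, -m, by rw [hm]; ring⟩
        have : (32 : ℤ) = 2 ^ 5 := by norm_num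
        rw [this]
        exact IsCoprime.mul_right (by norm_num) (h8.symm.pow_left)
      exact h7.dvd_of_dvd_mul_left h6
    · have h6 : 11 ^ k * B' ≤ 81 ^ k * Bmax' := by
        have h7 : (11 : ℤ) ^ k ≤ 81 ^ k := pow_le_pow_left₀ (by norm_num) (by norm_num) k
        calc (11 : ℤ) ^ k * B' ≤ 81 ^ k * B' := mul_le_mul_of_nonneg_right h7 hB3
          _ ≤ 81 ^ k * Bmax' := mul_le_mul_of_nonneg_left hB4 hp81.le
      have h7 : (81 : ℤ) ^ k * (3 * P * (70 * a + 2 * Bmax) + 140 * Bmax') ≤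
          81 ^ k * (70 * lo) := mul_le_mul_of_nonneg_left hlo hp81.le
      have e1 : (81 : ℤ) ^ k * (3 * P * (70 * a + 2 * Bmax) + 140 * Bmax') =
        3 * P * (81 ^ k * (70 * a + 2 * Bmax)) + 140 * (81 ^ k * Bmax') := by ring
      have e2 : (81 : ℤ) ^ k * (70 * lo) = 70 * (81 ^ k * lo) := by ring
      rw [e1, e2] at h7
      have hBm : 0 ≤ Bmax := by
        obtain ⟨B, -, -, h8, h9, -⟩ := h2 0
        exact h8.trans h9
      have h8 : 0 ≤ (11 : ℤ) ^ k * (2 * Bmax) := by positivity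
      have h9 : 3 * P * (81 ^ k * (70 * a + 2 * Bmax)) ≤ 3 * P * (70 * T) := by
        have e3 : 3 * P * (70 * T) = 70 * t - 140 * (11 ^ k * B') := by
          rw [hT₁]; ring
        rw [e3]; linarith
      have h10 : 81 ^ k * (70 * a + 2 * Bmax) ≤ 70 * T :=
        le_of_mul_le_mul_left h9 (by linarith)
      linarith
    · have h6 : 0 ≤ 11 ^ k * B' := mul_nonneg hp.le hB3
      have h7 : (81 : ℤ) ^ k * hi ≤ 81 ^ k * (3 * P * b) := mul_le_mul_of_nonneg_left hhi hp81.le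
      have h8 : 3 * P * T ≤ 3 * P * (81 ^ k * b) := by
        have e3 : 3 * P * T = t - 2 * (11 ^ k * B') := by rw [hT₁]; ring
        have e4 : 3 * P * (81 ^ k * b) = 81 ^ k * (3 * P * b) := by ring
        rw [e3, e4]; linarith
      exact le_of_mul_le_mul_left h8 (by linarith)
  refine ⟨3 * T, hmem, 11 ^ k * (9 * B'), ext_NS hT hB1 k, ?_⟩
  rw [hT₁]; ring

section

variable {n : ℕ}

/-- half stable windows, with an extra line of parameter `Q` (`P = Q + 3`) -/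
theorem half_ofE {A B : Fin n → Fin n → ZMod 3} {k : Fin n → ℕ} {M : ℕ → ℕ}
    (h : CoreOK A B k M) {Q : ℕ} (hQ : Nm (3 * Q + 1)) (hQ11 : (Q + 3) % 11 ≠ 0)
    {s₀ : ℕ} (hs : 0 < s₀) (hM : ∀ i, s₀ ≤ i → M i = 1)
    (a b c β β' Bmax Bmax' : ℤ) (r lo hi : ℕ) (hc : Odd c) (hβ'1 : Odd β')
    (h1 : ∀ T, (32 : ℤ) ∣ T - c → a ≤ T → T ≤ b → 3 * T ∈ KInt (Hf A B k) M s₀)
    (h2 : ∀ ρ : ℤ, ∃ B', 3 * B' ∈ NInt (Hf A B k) M s₀ ∧ (16 : ℤ) ∣ B' - β ∧ 0 ≤ B' ∧ B' ≤ Bmax ∧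
      (81 : ℤ) ∣ 2 * B' - ρ)
    (h3 : ∀ ρ : ℤ, ¬ (3 : ℤ) ∣ ρ → ∃ B', 9 * B' ∈ TIntE (Hf A B k) M Q s₀ ∧
      (16 : ℤ) ∣ B' - β' ∧ 0 ≤ B' ∧ B' ≤ Bmax' ∧ (3 * ((Q : ℤ) + 3)) ∣ 2 * B' - ρ)
    (hβ : (16 : ℤ) ∣ β - c - 8) (hr : (32 : ℤ) ∣ 3 * ((Q : ℤ) + 3) * c + 2 * β' - r)
    (hlo : 3 * ((Q : ℤ) + 3) * (70 * a + 2 * Bmax) + 140 * Bmax' ≤ 70 * lo)
    (hhi : (hi : ℤ) ≤ 3 * ((Q : ℤ) + 3) * b) :
    Half 0 r lo hi := by
  intro j t h4 h5 h6 h7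
  have e1 : ∀ i, s₀ ≤ i → ∀ K ∈ KInt (Hf A B k) M i, ∀ N ∈ NInt (Hf A B k) M i,
      81 * K + 2 * N ∈ KInt (Hf A B k) M (i + 1) := by
    intro i hi K hK N hN
    refine ⟨K, hK, N, hN, ?_⟩
    rw [hM i hi]; push_cast; ring
  have e2 : ∀ i, s₀ ≤ i → ∀ z ∈ NInt (Hf A B k) M i, 11 * z ∈ NInt (Hf A B k) M (i + 1) := by
    intro i hi z hz
    have := NInt_ext (Hf A B k) M i hz
    rw [hM i hi] at this
    norm_num at this
    exact this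
  have e3 : ∀ i, s₀ ≤ i → ∀ z ∈ TIntE (Hf A B k) M Q i,
      11 * z ∈ TIntE (Hf A B k) M Q (i + 1) := by
    intro i hi z hz
    have := TIntE_ext (Hf A B k) M Q i hz
    rw [hM i hi] at this
    norm_num at this
    exact this
  have hQodd : Q % 2 = 0 := by
    have := hQ.1
    rw [Nat.odd_iff] at this
    omega
  have hc2 : Odd ((Q : ℤ) + 3) := by
    have h9 : Odd (Q + 3) := Nat.odd_iff.2 (by omega)
    exact_mod_cast h9
  have hc11 : IsCoprime ((Q : ℤ) + 3) 11 := by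
    have h9 : Nat.Coprime (Q + 3) 11 := by
      rw [Nat.coprime_comm, Nat.Prime.coprime_iff_not_dvd (by norm_num)]
      intro h10
      exact hQ11 (Nat.mod_eq_zero_of_dvd h10)
    have := (Nat.isCoprime_iff_coprime (m := Q + 3) (n := 11)).2 h9
    exact_mod_cast this
  obtain ⟨K, hK, N, hN, h8⟩ := extendH e1 e2 e3 ((Q : ℤ) + 3) a b c β β' r Bmax Bmax' lo hi
    (by positivity) hc2 hc11 hc hβ'1 h1 h2 h3 hβ hr hlo hhi
    j t h4 (three_dvd h5) (by exact_mod_cast h6) (by exact_mod_cast h7)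
  exact good_coreE h hQ (by omega) hK hN t h8

end

/-! ### check of the top values -/

/-- check of (h3): the `B' = β' + 16 x` hit all the residues mod `3 P` prime to `3` -/
noncomputable def libHalf (β' P xmax : ℕ) (l : List ℕ) : Bool :=
  @Bool.rec (fun _ => Bool) false (leAll xmax l)
    (window (resB (fun x => Nat.mod (Nat.mul (nat_lit 2) (Nat.add β' (Nat.mul (nat_lit 16) x)))
      (Nat.mul (nat_lit 3) P)) l) (mask3 0 P) 0)

theorem libHalf_spec {β' P xmax : ℕ} {l : List ℕ} (hP : 0 < P) (h : libHalf β' P xmax l = true)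
    (ρ : ℤ) (hρ : ¬ (3 : ℤ) ∣ ρ) :
    ∃ x ∈ l, x ≤ xmax ∧ (3 * (P : ℤ)) ∣ 2 * ((β' : ℤ) + 16 * (x : ℤ)) - ρ := by
  have h' : @Bool.rec (fun _ => Bool) false (leAll xmax l)
    (window (resB (fun x => (2 * (β' + 16 * x)) % (3 * P)) l) (mask3 0 P) 0) = true := h
  rcases hb : window (resB (fun x => (2 * (β' + 16 * x)) % (3 * P)) l) (mask3 0 P) 0 with _ | _
  · rw [hb] at h'; exact Bool.noConfusion h'
  · rw [hb] at h'
    have hf : (0 : ℤ) < 3 * (P : ℤ) := by positivity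
    obtain ⟨σ, hσ⟩ : ∃ σ : ℕ, (σ : ℤ) = ρ % (3 * (P : ℤ)) :=
      ⟨(ρ % (3 * (P : ℤ))).toNat, Int.toNat_of_nonneg (Int.emod_nonneg _ hf.ne')⟩
    have hσ2 : σ < 3 * P := by
      have := Int.emod_lt_of_pos ρ hf
      rw [← hσ] at this
      exact_mod_cast this
    have hσ3 : σ % 3 ≠ 0 := by
      intro h3
      apply hρ
      have h4 : (3 : ℤ) ∣ ρ % (3 * (P : ℤ)) := by rw [← hσ]; omega
      have h5 : (3 : ℤ) ∣ 3 * (P : ℤ) := Dvd.intro _ rfl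
      rw [← Int.emod_add_mul_ediv ρ (3 * (P : ℤ))]
      exact dvd_add h4 (Dvd.dvd.mul_right h5 _)
    have hbit : (mask3 0 P).testBit σ = true := testBit_mask3 _ _ _ (by norm_num) hσ2 hσ3
    have h2 := testBit_of_window hb hbit
    rw [zero_add] at h2
    obtain ⟨x, hx, h3⟩ := testBit_resB _ _ _ h2
    refine ⟨x, hx, leAll_spec h' x hx, ?_⟩
    have h6 : (3 * (P : ℤ)) ∣ 2 * ((β' : ℤ) + 16 * (x : ℤ)) - σ := by
      have := Nat.div_add_mod (2 * (β' + 16 * x)) (3 * P)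
      rw [← h3] at this
      refine ⟨((2 * (β' + 16 * x) / (3 * P) : ℕ) : ℤ), ?_⟩
      have h7 : (((3 * P) * (2 * (β' + 16 * x) / (3 * P)) + σ : ℕ) : ℤ) =
        ((2 * (β' + 16 * x) : ℕ) : ℤ) := by rw [this]
      push_cast at h7 ⊢
      linarith
    have h7 : (3 * (P : ℤ)) ∣ (σ : ℤ) - ρ := by
      rw [hσ]
      have := Int.emod_add_mul_ediv ρ (3 * (P : ℤ))
      exact ⟨-(ρ / (3 * (P : ℤ))), by linarith⟩
    have h8 := dvd_add h6 h7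
    have e1 : 2 * ((β' : ℤ) + 16 * (x : ℤ)) - σ + ((σ : ℤ) - ρ) =
      2 * ((β' : ℤ) + 16 * (x : ℤ)) - ρ := by ring
    rwa [e1] at h8

section

variable {n : ℕ} {A B : Fin n → Fin n → ZMod 3} {pts TL TE : List ℕ} {D NP NU : ℕ}

/-- half window, with an extra line -/
noncomputable def hE (TL TE : List ℕ) (D NP NU : ℕ) (kl Ml : List ℕ) (s₀ a b c Bmax β Q : ℕ)
    (β' xmax len X r lo hi : ℕ) : Bool :=
  bd (coreC kl Ml) (bd (Nat.ble (nat_lit 1) s₀) (bd (Nat.ble (lenL Ml) s₀)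
  (bd (Nat.beq (Nat.mod β' (nat_lit 2)) (nat_lit 1)) (bd (nmC (Nat.succ (Nat.mul (nat_lit 3) Q)))
  (bd (Nat.beq (Nat.mod c (nat_lit 2)) (nat_lit 1))
  (bd (Nat.beq (Nat.mod β (nat_lit 16)) (Nat.mod (Nat.add c (nat_lit 8)) (nat_lit 16)))
  (forceB (fun P =>
  (bd (Nat.ble (nat_lit 1) (Nat.mod P (nat_lit 11)))
  (bd (Nat.beq (Nat.mod (Nat.add (Nat.mul (Nat.mul (nat_lit 3) P) c) (Nat.mul (nat_lit 2) β'))
    (nat_lit 32)) (Nat.mod r (nat_lit 32)))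
  (bd (Nat.ble (Nat.add (Nat.mul (Nat.mul (nat_lit 3) P)
      (Nat.add (Nat.mul (nat_lit 70) a) (Nat.mul (nat_lit 2) Bmax)))
      (Nat.mul (nat_lit 140) (Nat.add β' (Nat.mul (nat_lit 16) xmax)))) (Nat.mul (nat_lit 70) lo))
  (bd (Nat.ble hi (Nat.mul (Nat.mul (nat_lit 3) P) b))
  (runC TL TE kl fun FL FE OF =>
    libHalf β' P xmax (mapD (nat_lit 288) (gval FL FE OF D NP NU (seqM Ml) s₀ (evE P Q)
      (nat_lit 0) (Nat.mul P (PPn (seqM Ml) s₀))) (Nat.mul (nat_lit 18) β') (unpack len X))))))))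
    (Nat.add Q (nat_lit 3)))))))))

theorem hE_spec (hA : ∀ i j, A i j = - A j i) (hB : ∀ i j, B i j = - B j i)
    (G : Geo A B pts TL TE D NP NU) {kl Ml : List ℕ} {s₀ a b c Bmax β Q : ℕ}
    (hb : BaseOK A B (kf (seqZ kl)) (seqM Ml) s₀ a b c Bmax β)
    {β' xmax len X r lo hi : ℕ}
    (h : hE TL TE D NP NU kl Ml s₀ a b c Bmax β Q β' xmax len X r lo hi = true) :
    Half 0 r lo hi := by
  obtain ⟨h1, h⟩ := bd_true h
  obtain ⟨h2, h⟩ := bd_true h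
  obtain ⟨h3, h⟩ := bd_true h
  obtain ⟨h4, h⟩ := bd_true h
  obtain ⟨h9, h⟩ := bd_true h
  obtain ⟨h12, h⟩ := bd_true h
  obtain ⟨h13, h⟩ := bd_true h
  rw [forceB_eq] at h
  obtain ⟨h10, h⟩ := bd_true h
  obtain ⟨h5, h⟩ := bd_true h
  obtain ⟨h6, h⟩ := bd_true h
  obtain ⟨h7, h⟩ := bd_true h
  rw [runC_eq] at h
  have h8 : Ml.length ≤ s₀ := by rw [← lenL_eq]; exact Nat.le_of_ble_eq_true h3
  have h11 : 1 ≤ (Q + 3) % 11 := Nat.le_of_ble_eq_true h10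
  have hβ'1 : β' % 2 = 1 := Nat.eq_of_beq_eq_true h4
  have hc1 : c % 2 = 1 := Nat.eq_of_beq_eq_true h12
  have hβc : β % 16 = (c + 8) % 16 := Nat.eq_of_beq_eq_true h13
  have hr : (3 * (Q + 3) * c + 2 * β') % 32 = r % 32 := Nat.eq_of_beq_eq_true h5
  have hlo : 3 * (Q + 3) * (70 * a + 2 * Bmax) + 140 * (β' + 16 * xmax) ≤ 70 * lo :=
    Nat.le_of_ble_eq_true h6
  have hhi : hi ≤ 3 * (Q + 3) * b := Nat.le_of_ble_eq_true h7
  have hC := core_of_check (A := A) (B := B) h1 hA hB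
  have hT := tab_of_geo G h1
  have hM : ∀ i, 1 ≤ seqM Ml i := fun i => (hC.hM i).pos
  have hr2 : (32 : ℤ) ∣ ((3 * (Q + 3) * c + 2 * β' : ℕ) : ℤ) - (r : ℕ) := by omega
  have hlo2 : ((3 * (Q + 3) * (70 * a + 2 * Bmax) + 140 * (β' + 16 * xmax) : ℕ) : ℤ) ≤
    ((70 * lo : ℕ) : ℤ) := by exact_mod_cast hlo
  have hhi2 : ((hi : ℕ) : ℤ) ≤ ((3 * (Q + 3) * b : ℕ) : ℤ) := by exact_mod_cast hhi
  push_cast at hr2 hlo2 hhi2
  refine half_ofE hC (nmC_spec h9).1 (by omega) (Nat.le_of_ble_eq_true h2)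
    (fun i hi => seqM_ge Ml i (h8.trans hi)) (a : ℤ) b c β β' Bmax ((β' + 16 * xmax : ℕ) : ℤ)
    r lo hi ?_ ?_ hb.h1 hb.h2 ?_ (by omega) hr2 (by push_cast; exact hlo2) hhi2
  · have : Odd c := Nat.odd_iff.2 hc1
    exact_mod_cast this
  · have : Odd β' := Nat.odd_iff.2 hβ'1
    exact_mod_cast this
  · intro ρ hρ
    obtain ⟨x, hx, h1', h3'⟩ := libHalf_spec (show 0 < Q + 3 by omega) h ρ hρ
    obtain ⟨a', _, ha'⟩ := mapD_spec hx
    have hg : 0 < gval (evT TL (monz (seqZ kl) 5)) (evT TE (monz (seqZ kl) 5)) (16384 * prodK kl)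
        D NP NU (seqM Ml) s₀ (evE (Q + 3) Q) (nat_lit 0)
        (Nat.mul (Q + 3) (PPn (seqM Ml) s₀)) a' := by
      have ha'' : gval (evT TL (monz (seqZ kl) 5)) (evT TE (monz (seqZ kl) 5)) (16384 * prodK kl)
        D NP NU (seqM Ml) s₀ (evE (Q + 3) Q) (nat_lit 0)
        (Nat.mul (Q + 3) (PPn (seqM Ml) s₀)) a' = 18 * β' + 288 * x := ha'
      rw [ha'']
      omega
    obtain ⟨N', hN', h5'⟩ := gval_specE hT (seqM Ml) hM Q s₀ (nat_lit 0) a' hg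
    have h6' : ((18 * β' + 288 * x : ℕ) : ℤ) = ((0 : ℕ) : ℤ) + 2 * N' := by
      rw [← show gval (evT TL (monz (seqZ kl) 5)) (evT TE (monz (seqZ kl) 5)) (16384 * prodK kl)
        D NP NU (seqM Ml) s₀ (evE (Q + 3) Q) (nat_lit 0)
        (Nat.mul (Q + 3) (PPn (seqM Ml) s₀)) a' = 18 * β' + 288 * x from ha']
      exact h5'
    have h7' : N' = 9 * ((β' : ℤ) + 16 * (x : ℤ)) := by push_cast at h6'; linarith
    rw [h7'] at hN'
    refine ⟨(β' : ℤ) + 16 * (x : ℤ), hN', ⟨(x : ℤ), by ring⟩, by positivity, by push_cast; omega, ?_⟩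
    push_cast at h3'
    exact h3'

end

end Pool.Agent.Lib.MP_cfac74_al.Cov
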