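import Pool.Agent.Lib.MP_cfac74_al.Dec.Frob

/-!
# MP_cfac74_al : covering and induction (pure integer statements)
-/

set_option autoImplicit false

namespace Pool.Agent.Lib.MP_cfac74_al.Cov

open Pool.Agent.Lib.MP_cfac74_al.Dec

/-! ### C1 : extension of a window by undecorated planes -/

/-- residue class of the chain values after `k` extensions -/
def cc1 (c β : ℤ) : ℕ → ℤ
  | 0 => c
  | k + 1 => 81 * cc1 c β k + 2 * 11 ^ k * β

theorem cc1_mod (c β : ℤ) (h : (8 : ℤ) ∣ β - c) (k : ℕ) : (8 : ℤ) ∣ 11 ^ k * β - cc1 c β k := by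
  induction k with
  | zero => simpa [cc1] using h
  | succ k ih =>
    obtain ⟨x, hx⟩ := ih
    have e : cc1 c β (k + 1) = 81 * cc1 c β k + 2 * 11 ^ k * β := rfl
    rw [e, pow_succ]
    refine ⟨9 * x - 9 * cc1 c β k, ?_⟩
    have e2 : (11 : ℤ) ^ k * β = cc1 c β k + 8 * x := by linarith
    have e3 : (11 : ℤ) ^ k * 11 * β = 11 * (11 ^ k * β) := by ring
    have e4 : 2 * (11 : ℤ) ^ k * β = 2 * (11 ^ k * β) := by ring
    rw [e3, e4, e2]; ring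

theorem cc1_class (c β β' r : ℤ) (h : (8 : ℤ) ∣ β - c) (hr : (16 : ℤ) ∣ 3 * c + 2 * β' - r)
    (k : ℕ) : (16 : ℤ) ∣ 3 * cc1 c β k + 2 * 11 ^ k * β' - 3 ^ k * r := by
  induction k with
  | zero => simpa [cc1] using hr
  | succ k ih =>
    obtain ⟨x, hx⟩ := ih
    obtain ⟨y, hy⟩ := cc1_mod c β h k
    have e : cc1 c β (k + 1) = 81 * cc1 c β k + 2 * 11 ^ k * β := rfl
    rw [e, pow_succ, pow_succ]
    have e1 : (3 : ℤ) ^ k * r = 3 * cc1 c β k + 2 * (11 ^ k * β') - 16 * x := by linarith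
    have e2 : (11 : ℤ) ^ k * β = cc1 c β k + 8 * y := by linarith
    refine ⟨15 * cc1 c β k + 3 * y + (11 ^ k * β') + 3 * x, ?_⟩
    have e3 : 3 * (81 * cc1 c β k + 2 * 11 ^ k * β) + 2 * ((11 : ℤ) ^ k * 11) * β' -
        3 ^ k * 3 * r = 3 * (81 * cc1 c β k + 2 * (11 ^ k * β)) + 22 * (11 ^ k * β') -
        3 * (3 ^ k * r) := by ring
    rw [e3, e1, e2]; ring

section

variable {KS NS TS : ℕ → Set ℤ} {s₀ : ℕ}

theorem ext_NS (hN : ∀ i, s₀ ≤ i → ∀ z ∈ NS i, 11 * z ∈ NS (i + 1)) {z : ℤ} (hz : z ∈ NS s₀)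
    (k : ℕ) : 11 ^ k * z ∈ NS (s₀ + k) := by
  induction k with
  | zero => simpa using hz
  | succ k ih =>
    have := hN (s₀ + k) (by omega) _ ih
    have e : (11 : ℤ) ^ (k + 1) * z = 11 * (11 ^ k * z) := by ring
    rw [e, ← Nat.add_assoc]; exact this

theorem pow11_inv (k : ℕ) : ∃ u v : ℤ, u * 11 ^ k + 81 * v = 1 := by
  induction k with
  | zero => exact ⟨1, 0, by norm_num⟩
  | succ k ih =>
    obtain ⟨u, v, h⟩ := ih
    -- 11 * 59 = 649 = 8 * 81 + 1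
    refine ⟨59 * u, v - 8 * u * 11 ^ k, ?_⟩
    rw [pow_succ]
    linear_combination h

/-- windows of chain values at all later stages -/
theorem ext_KS
    (hK : ∀ i, s₀ ≤ i → ∀ K ∈ KS i, ∀ N ∈ NS i, 81 * K + 2 * N ∈ KS (i + 1))
    (hN : ∀ i, s₀ ≤ i → ∀ z ∈ NS i, 11 * z ∈ NS (i + 1))
    (a b c β Bmax : ℤ)
    (h1 : ∀ T, (32 : ℤ) ∣ T - c → a ≤ T → T ≤ b → 3 * T ∈ KS s₀)
    (h2 : ∀ ρ : ℤ, ∃ B, 3 * B ∈ NS s₀ ∧ (16 : ℤ) ∣ B - β ∧ 0 ≤ B ∧ B ≤ Bmax ∧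
      (81 : ℤ) ∣ 2 * B - ρ)
    (k : ℕ) : ∀ T, (32 : ℤ) ∣ T - cc1 c β k →
      81 ^ k * (70 * a + 2 * Bmax) - 11 ^ k * (2 * Bmax) ≤ 70 * T → T ≤ 81 ^ k * b →
      3 * T ∈ KS (s₀ + k) := by
  induction k with
  | zero =>
    intro T h3 h4 h5
    simp only [pow_zero, one_mul] at h4 h5
    exact h1 T h3 (by omega) h5
  | succ k ih =>
    intro T h3 h4 h5
    obtain ⟨u, v, huv⟩ := pow11_inv k
    obtain ⟨B, hB1, hB2, hB3, hB4, hB5⟩ := h2 (u * T)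
    have hp : (0 : ℤ) < 11 ^ k := by positivity
    -- `T ≡ 2 * 11^k * B mod 81`
    obtain ⟨x, hx⟩ := hB5
    obtain ⟨T₁, hT₁⟩ : ∃ T₁, T = 81 * T₁ + 2 * 11 ^ k * B := by
      refine ⟨v * T - 11 ^ k * x, ?_⟩
      have e1 : 2 * B = u * T + 81 * x := by linarith
      have e2 : 2 * (11 : ℤ) ^ k * B = 11 ^ k * (2 * B) := by ring
      rw [e2, e1]
      linear_combination (-T) * huv
    have hmem : 3 * T₁ ∈ KS (s₀ + k) := by
      apply ih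
      · obtain ⟨y, hy⟩ := h3
        obtain ⟨w, hw⟩ := hB2
        have e : cc1 c β (k + 1) = 81 * cc1 c β k + 2 * 11 ^ k * β := rfl
        rw [e, hT₁] at hy
        have e3 : 81 * (T₁ - cc1 c β k) = 32 * (y - 11 ^ k * w) := by
          have : B = β + 16 * w := by linarith
          rw [this] at hy
          linear_combination hy
        have h6 : (32 : ℤ) ∣ 81 * (T₁ - cc1 c β k) := ⟨_, e3⟩
        exact (IsCoprime.dvd_of_dvd_mul_left (by norm_num) h6)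
      · have h6 : 11 ^ k * B ≤ 11 ^ k * Bmax := mul_le_mul_of_nonneg_left hB4 hp.le
        rw [hT₁, pow_succ, pow_succ] at h4
        have e1 : (81 : ℤ) ^ k * 81 * (70 * a + 2 * Bmax) =
            81 * (81 ^ k * (70 * a + 2 * Bmax)) := by ring
        have e2 : (11 : ℤ) ^ k * 11 * (2 * Bmax) = 22 * (11 ^ k * Bmax) := by ring
        have e3 : 70 * (81 * T₁ + 2 * (11 : ℤ) ^ k * B) = 81 * (70 * T₁) + 140 * (11 ^ k * B) := by
          ring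
        rw [e1, e2, e3] at h4
        have e4 : (11 : ℤ) ^ k * (2 * Bmax) = 2 * (11 ^ k * Bmax) := by ring
        rw [e4]
        linarith
      · have h6 : 0 ≤ 11 ^ k * B := mul_nonneg hp.le hB3
        rw [hT₁, pow_succ] at h5
        have e1 : (81 : ℤ) ^ k * 81 * b = 81 * (81 ^ k * b) := by ring
        have e2 : 2 * (11 : ℤ) ^ k * B = 2 * (11 ^ k * B) := by ring
        rw [e1, e2] at h5
        linarith
    have h7 := hK (s₀ + k) (by omega) _ hmem _ (ext_NS hN hB1 k)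
    rw [← Nat.add_assoc, hT₁]
    have e : 3 * (81 * T₁ + 2 * 11 ^ k * B) = 81 * (3 * T₁) + 2 * (11 ^ k * (3 * B)) := by ring
    rw [e]; exact h7

/-- residue class with an extra factor `P` -/
theorem cc1_classP (P c β β' r : ℤ) (h : (8 : ℤ) ∣ β - c)
    (hr : (16 : ℤ) ∣ 3 * P * c + 2 * β' - r) (k : ℕ) :
    (16 : ℤ) ∣ 3 * P * cc1 c β k + 2 * 11 ^ k * β' - 3 ^ k * r := by
  induction k with
  | zero => simpa [cc1] using hr
  | succ k ih =>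
    obtain ⟨x, hx⟩ := ih
    obtain ⟨y, hy⟩ := cc1_mod c β h k
    have e : cc1 c β (k + 1) = 81 * cc1 c β k + 2 * 11 ^ k * β := rfl
    rw [e, pow_succ, pow_succ]
    have e1 : (3 : ℤ) ^ k * r = 3 * P * cc1 c β k + 2 * (11 ^ k * β') - 16 * x := by linarith
    have e2 : (11 : ℤ) ^ k * β = cc1 c β k + 8 * y := by linarith
    refine ⟨15 * P * cc1 c β k + 3 * P * y + (11 ^ k * β') + 3 * x, ?_⟩
    have e3 : 3 * P * (81 * cc1 c β k + 2 * 11 ^ k * β) + 2 * ((11 : ℤ) ^ k * 11) * β' -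
        3 ^ k * 3 * r = 3 * P * (81 * cc1 c β k + 2 * (11 ^ k * β)) + 22 * (11 ^ k * β') -
        3 * (3 ^ k * r) := by ring
    rw [e3, e1, e2]; ring

theorem pow11_invP {P : ℤ} (hP : IsCoprime P 11) (k : ℕ) :
    ∃ u v : ℤ, u * 11 ^ k + 3 * P * v = 1 := by
  have h3 : IsCoprime (3 * P) 11 := IsCoprime.mul_left (by norm_num) hP
  obtain ⟨a, b, h⟩ := h3.pow_right (n := k)
  exact ⟨b, a, by linear_combination h⟩

/-- **C1.**  A window of chain values (all `T ≡ c mod 32` in `[a, b]`), a library which is complete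
mod `81`, and top values (for the core with an extra decorated line, parameter `P`) hitting all the
residues mod `3 P` prime to `3`: the class `r 3^k mod 16` in `[81^k lo, 81^k hi]`. -/
theorem extendP
    (hK : ∀ i, s₀ ≤ i → ∀ K ∈ KS i, ∀ N ∈ NS i, 81 * K + 2 * N ∈ KS (i + 1))
    (hN : ∀ i, s₀ ≤ i → ∀ z ∈ NS i, 11 * z ∈ NS (i + 1))
    (hT : ∀ i, s₀ ≤ i → ∀ z ∈ TS i, 11 * z ∈ TS (i + 1))
    (P a b c β β' r Bmax Bmax' lo hi : ℤ) (hP : 0 < P) (hP2 : IsCoprime P 2)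
    (hP11 : IsCoprime P 11)
    (h1 : ∀ T, (32 : ℤ) ∣ T - c → a ≤ T → T ≤ b → 3 * T ∈ KS s₀)
    (h2 : ∀ ρ : ℤ, ∃ B, 3 * B ∈ NS s₀ ∧ (16 : ℤ) ∣ B - β ∧ 0 ≤ B ∧ B ≤ Bmax ∧
      (81 : ℤ) ∣ 2 * B - ρ)
    (h3 : ∀ ρ : ℤ, ¬ (3 : ℤ) ∣ ρ → ∀ e : ℤ, ∃ B', 9 * B' ∈ TS s₀ ∧ (16 : ℤ) ∣ B' - β' - 8 * e ∧
      0 ≤ B' ∧ B' ≤ Bmax' ∧ (3 * P) ∣ 2 * B' - ρ)
    (hβ : (8 : ℤ) ∣ β - c) (hr : (16 : ℤ) ∣ 3 * P * c + 2 * β' - r)
    (hlo : 3 * P * (70 * a + 2 * Bmax) + 140 * Bmax' ≤ 70 * lo) (hhi : hi ≤ 3 * P * b)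
    (k : ℕ) (t : ℤ) (ht : (16 : ℤ) ∣ t - 3 ^ k * r) (ht3 : ¬ (3 : ℤ) ∣ t)
    (hl : 81 ^ k * lo ≤ t) (hh : t ≤ 81 ^ k * hi) :
    ∃ K ∈ KS (s₀ + k), ∃ N ∈ TS (s₀ + k), 9 * t = 9 * (P * K) + 2 * N := by
  obtain ⟨x, hx⟩ := ht
  obtain ⟨y, hy⟩ := cc1_classP P c β β' r hβ hr k
  obtain ⟨u, v, huv⟩ := pow11_invP hP11 k
  obtain ⟨z, hz⟩ : ∃ z : ℤ, (11 : ℤ) ^ k = 2 * z + 1 := by
    have : Odd ((11 : ℤ) ^ k) := Odd.pow (by decide)
    exact this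
  have hu3 : ¬ (3 : ℤ) ∣ u * t := by
    intro h
    rcases Int.prime_three.dvd_or_dvd h with h | h
    · obtain ⟨w, hw⟩ := h
      rw [hw] at huv
      have : (3 : ℤ) ∣ 1 := ⟨w * 11 ^ k + P * v, by linear_combination -huv⟩
      omega
    · exact ht3 h
  obtain ⟨B', hB1, ⟨w, hw⟩, hB3, hB4, ⟨q, hq⟩⟩ := h3 (u * t) hu3 (x + y)
  have hp : (0 : ℤ) < 11 ^ k := by positivity
  have hp81 : (0 : ℤ) < 81 ^ k := by positivity
  obtain ⟨T, hT₁⟩ : ∃ T, t = 3 * P * T + 2 * 11 ^ k * B' := by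
    refine ⟨v * t - 11 ^ k * q, ?_⟩
    have e1 : 2 * B' = u * t + 3 * P * q := by linarith
    have e2 : 2 * (11 : ℤ) ^ k * B' = 11 ^ k * (2 * B') := by ring
    rw [e2, e1]
    linear_combination (-t) * huv
  have hmem : 3 * T ∈ KS (s₀ + k) := by
    apply ext_KS hK hN a b c β Bmax h1 h2 k
    · have h6 : (32 : ℤ) ∣ 3 * P * (T - cc1 c β k) := by
        have e1 : B' = β' + 8 * (x + y) + 16 * w := by linarith
        have e2 : t = 3 ^ k * r + 16 * x := by linarith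
        have e3 : 3 * P * (T - cc1 c β k) = 32 * (-(z * (x + y)) - y - 11 ^ k * w) := by
          have e5 : 3 * P * (T - cc1 c β k) = t - 2 * 11 ^ k * B' - 3 * P * cc1 c β k := by
            linarith
          rw [e5, e1, e2]
          have e6 : (3 : ℤ) ^ k * r = 3 * P * cc1 c β k + 2 * 11 ^ k * β' - 16 * y := by linarith
          rw [e6]
          have e7 : 2 * (11 : ℤ) ^ k * (β' + 8 * (x + y) + 16 * w) =
            2 * 11 ^ k * β' + 16 * (11 ^ k * (x + y)) + 32 * (11 ^ k * w) := by ring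
          rw [e7]
          have e8 : (11 : ℤ) ^ k * (x + y) = 2 * (z * (x + y)) + (x + y) := by rw [hz]; ring
          rw [e8]; ring
        exact ⟨_, e3⟩
      have h7 : IsCoprime (32 : ℤ) (3 * P) := by
        have : (32 : ℤ) = 2 ^ 5 := by norm_num
        rw [this]
        exact IsCoprime.mul_right (by norm_num) (hP2.symm.pow_left)
      exact h7.dvd_of_dvd_mul_left h6
    · have h6 : 11 ^ k * B' ≤ 81 ^ k * Bmax' := by
        have h7 : (11 : ℤ) ^ k ≤ 81 ^ k := pow_le_pow_left₀ (by norm_num) (by norm_num) k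
        calc (11 : ℤ) ^ k * B' ≤ 81 ^ k * B' := mul_le_mul_of_nonneg_right h7 hB3
          _ ≤ 81 ^ k * Bmax' := mul_le_mul_of_nonneg_left hB4 hp81.le
      have h7 : (81 : ℤ) ^ k * (3 * P * (70 * a + 2 * Bmax) + 140 * Bmax') ≤
          81 ^ k * (70 * lo) := mul_le_mul_of_nonneg_left hlo hp81.le
      have e1 : (81 : ℤ) ^ k * (3 * P * (70 * a + 2 * Bmax) + 140 * Bmax') =
        3 * P * (81 ^ k * (70 * a + 2 * Bmax)) + 140 * (81 ^ k * Bmax') := by ring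
      have e2 : (81 : ℤ) ^ k * (70 * lo) = 70 * (81 ^ k * lo) := by ring
      rw [e1, e2] at h7
      have hBm : 0 ≤ Bmax := by
        obtain ⟨B, -, -, h8, h9, -⟩ := h2 0
        exact h8.trans h9
      have h8 : 0 ≤ (11 : ℤ) ^ k * (2 * Bmax) := by positivity
      have h9 : 3 * P * (81 ^ k * (70 * a + 2 * Bmax)) ≤ 3 * P * (70 * T) := by
        have e3 : 3 * P * (70 * T) = 70 * t - 140 * (11 ^ k * B') := by
          rw [hT₁]; ring
        rw [e3]; linarith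
      have h10 : 81 ^ k * (70 * a + 2 * Bmax) ≤ 70 * T :=
        le_of_mul_le_mul_left h9 (by linarith)
      linarith
    · have h6 : 0 ≤ 11 ^ k * B' := mul_nonneg hp.le hB3
      have h7 : (81 : ℤ) ^ k * hi ≤ 81 ^ k * (3 * P * b) := mul_le_mul_of_nonneg_left hhi hp81.le
      have h8 : 3 * P * T ≤ 3 * P * (81 ^ k * b) := by
        have e3 : 3 * P * T = t - 2 * (11 ^ k * B') := by rw [hT₁]; ring
        have e4 : 3 * P * (81 ^ k * b) = 81 ^ k * (3 * P * b) := by ring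
        rw [e3, e4]; linarith
      exact le_of_mul_le_mul_left h8 (by linarith)
  refine ⟨3 * T, hmem, 11 ^ k * (9 * B'), ext_NS hT hB1 k, ?_⟩
  rw [hT₁]; ring

/-- **C1** without extra line -/
theorem extend
    (hK : ∀ i, s₀ ≤ i → ∀ K ∈ KS i, ∀ N ∈ NS i, 81 * K + 2 * N ∈ KS (i + 1))
    (hN : ∀ i, s₀ ≤ i → ∀ z ∈ NS i, 11 * z ∈ NS (i + 1))
    (hT : ∀ i, s₀ ≤ i → ∀ z ∈ TS i, 11 * z ∈ TS (i + 1))
    (a b c β β' r Bmax Bmax' lo hi : ℤ)
    (h1 : ∀ T, (32 : ℤ) ∣ T - c → a ≤ T → T ≤ b → 3 * T ∈ KS s₀)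
    (h2 : ∀ ρ : ℤ, ∃ B, 3 * B ∈ NS s₀ ∧ (16 : ℤ) ∣ B - β ∧ 0 ≤ B ∧ B ≤ Bmax ∧
      (81 : ℤ) ∣ 2 * B - ρ)
    (h3 : ∀ ρ : ℤ, ¬ (3 : ℤ) ∣ ρ → ∀ e : ℤ, ∃ B', 9 * B' ∈ TS s₀ ∧ (16 : ℤ) ∣ B' - β' - 8 * e ∧
      0 ≤ B' ∧ B' ≤ Bmax' ∧ (3 : ℤ) ∣ 2 * B' - ρ)
    (hβ : (8 : ℤ) ∣ β - c) (hr : (16 : ℤ) ∣ 3 * c + 2 * β' - r)
    (hlo : 210 * a + 6 * Bmax + 140 * Bmax' ≤ 70 * lo) (hhi : hi ≤ 3 * b)
    (k : ℕ) (t : ℤ) (ht : (16 : ℤ) ∣ t - 3 ^ k * r) (ht3 : ¬ (3 : ℤ) ∣ t)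
    (hl : 81 ^ k * lo ≤ t) (hh : t ≤ 81 ^ k * hi) :
    ∃ K ∈ KS (s₀ + k), ∃ N ∈ TS (s₀ + k), 9 * t = 9 * K + 2 * N := by
  have h := extendP hK hN hT 1 a b c β β' r Bmax Bmax' lo hi (by norm_num) isCoprime_one_left
    isCoprime_one_left h1 h2 (by simpa using h3) hβ (by simpa using hr) (by linarith)
    (by linarith) k t ht ht3 hl hh
  obtain ⟨K, hK1, N, hN1, h⟩ := h
  exact ⟨K, hK1, N, hN1, by rw [h, one_mul]⟩

end

/-! ### C2, C3 : coverings -/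

/-- `t ≡ r 3^k mod 16` prime to `3` and between `81^k lo` and `81^k hi`: good -/
def Stab (r lo hi : ℕ) : Prop :=
  ∀ k t : ℕ, t % 16 = (r * 3 ^ k) % 16 → t % 3 ≠ 0 → 81 ^ k * lo ≤ t → t ≤ 81 ^ k * hi → Good t

/-- `t ≡ r mod 16` prime to `3` and between `lo` and `hi`: good -/
def Win (r lo hi : ℕ) : Prop :=
  ∀ t : ℕ, t % 16 = r → t % 3 ≠ 0 → lo ≤ t → t ≤ hi → Good t

/-- the intervals of the list cover `[x, y]` (in this order, with overlaps) -/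
def cover : ℕ → List (ℕ × ℕ) → ℕ → Bool
  | x, [], y => Nat.ble y x
  | x, w :: l, y => Nat.ble w.1 x && cover w.2 l y

theorem cover_spec (P : ℕ) : ∀ (l : List (ℕ × ℕ)) (x y : ℕ), cover x l y = true →
    ∀ t, P * x ≤ t → t < P * y → ∃ w ∈ l, P * w.1 ≤ t ∧ t ≤ P * w.2 := by
  intro l
  induction l with
  | nil =>
    intro x y h t h1 h2
    have h3 : y ≤ x := Nat.le_of_ble_eq_true h
    have := Nat.mul_le_mul_left P h3
    omega
  | cons w l ih =>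
    intro x y h t h1 h2
    rw [cover, Bool.and_eq_true] at h
    have h3 : w.1 ≤ x := Nat.le_of_ble_eq_true h.1
    rcases Nat.lt_or_ge (P * w.2) t with h4 | h4
    · obtain ⟨w', hw', h5⟩ := ih w.2 y h.2 t h4.le h2
      exact ⟨w', List.mem_cons_of_mem _ hw', h5⟩
    · exact ⟨w, List.mem_cons_self, (Nat.mul_le_mul_left P h3).trans h1, h4⟩

/-- covering with exact integers: `[x, y)` covered if consecutive windows leave no integer -/
def cover1 : ℕ → List (ℕ × ℕ) → ℕ → Bool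
  | x, [], y => Nat.ble y x
  | x, w :: l, y => Nat.ble w.1 x && cover1 (w.2 + 1) l y

theorem cover1_spec : ∀ (l : List (ℕ × ℕ)) (x y : ℕ), cover1 x l y = true →
    ∀ t, x ≤ t → t < y → ∃ w ∈ l, w.1 ≤ t ∧ t ≤ w.2 := by
  intro l
  induction l with
  | nil =>
    intro x y h t h1 h2
    have h3 : y ≤ x := Nat.le_of_ble_eq_true h
    omega
  | cons w l ih =>
    intro x y h t h1 h2
    rw [cover1, Bool.and_eq_true] at h
    have h3 : w.1 ≤ x := Nat.le_of_ble_eq_true h.1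
    rcases Nat.lt_or_ge w.2 t with h4 | h4
    · obtain ⟨w', hw', h5⟩ := ih (w.2 + 1) y h.2 t h4 h2
      exact ⟨w', List.mem_cons_of_mem _ hw', h5⟩
    · exact ⟨w, List.mem_cons_self, h3.trans h1, h4⟩

/-- **C3.**  Covering of a middle range. -/
theorem middle {x y : ℕ} (L : ℕ → List (ℕ × ℕ)) (hL : ∀ r, r < 16 → r % 2 = 1 →
    (∀ w ∈ L r, Win r w.1 w.2) ∧ cover1 x (L r) y = true) (t : ℕ) (ht : Odd t) (h3 : t % 3 ≠ 0)
    (h1 : x ≤ t) (h2 : t < y) : Good t := by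
  have ht2 : t % 2 = 1 := Nat.odd_iff.1 ht
  obtain ⟨h4, h5⟩ := hL (t % 16) (Nat.mod_lt _ (by norm_num)) (by omega)
  obtain ⟨w, hw, h6, h7⟩ := cover1_spec _ _ _ h5 t h1 h2
  exact h4 w hw t rfl h3 h6 h7

theorem inv3 (t k : ℕ) (ht : t % 2 = 1) :
    ∃ r, r < 16 ∧ r % 2 = 1 ∧ t % 16 = (r * 3 ^ k) % 16 := by
  induction k with
  | zero => exact ⟨t % 16, Nat.mod_lt _ (by norm_num), by omega, by simp⟩
  | succ k ih =>
    obtain ⟨r, h1, h2, h3⟩ := ih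
    refine ⟨(r * 11) % 16, Nat.mod_lt _ (by norm_num), by omega, ?_⟩
    rw [h3, pow_succ]
    have e1 : ((r * 11) % 16 * (3 ^ k * 3)) % 16 = (r * 11 * (3 ^ k * 3)) % 16 := by
      rw [Nat.mul_mod, Nat.mod_mod, ← Nat.mul_mod]
    have e2 : r * 11 * (3 ^ k * 3) = r * 3 ^ k + 16 * (2 * (r * 3 ^ k)) := by ring
    rw [e1, e2, Nat.add_mul_mod_self_left]

/-- **C2.**  Covering by stable windows. -/
theorem large {X : ℕ} (hX : 0 < X) (L : ℕ → List (ℕ × ℕ)) (hL : ∀ r, r < 16 → r % 2 = 1 →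
    (∀ w ∈ L r, Stab r w.1 w.2) ∧ cover X (L r) (81 * X) = true) (t : ℕ) (ht : Odd t)
    (h3 : t % 3 ≠ 0) (h1 : X ≤ t) : Good t := by
  obtain ⟨k, hk1, hk2⟩ : ∃ k, 81 ^ k * X ≤ t ∧ t < 81 ^ k * (81 * X) := by
    have hex : ∃ k, t < 81 ^ k * X := by
      refine ⟨t, ?_⟩
      calc t < 81 ^ t := Nat.lt_pow_self (by norm_num)
        _ ≤ 81 ^ t * X := Nat.le_mul_of_pos_right _ hX
    classical
    have hf := Nat.find_spec hex
    have hmin : ∀ m, m < Nat.find hex → ¬ t < 81 ^ m * X := fun m hm => Nat.find_min hex hm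
    obtain ⟨k, hk⟩ : ∃ k, Nat.find hex = k + 1 := by
      rcases hz : Nat.find hex with _ | k
      · rw [hz, pow_zero, one_mul] at hf; omega
      · exact ⟨k, rfl⟩
    refine ⟨k, ?_, ?_⟩
    · exact Nat.le_of_not_lt (hmin k (by omega))
    · rw [hk, pow_succ] at hf
      rw [← mul_assoc]; exact hf
  obtain ⟨r, hr1, hr2, hr3⟩ := inv3 t k (Nat.odd_iff.1 ht)
  obtain ⟨h4, h5⟩ := hL r hr1 hr2
  obtain ⟨w, hw, h6, h7⟩ := cover_spec (81 ^ k) _ _ _ h5 t hk1 hk2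
  exact h4 w hw k t hr3 h3 h6 h7

/-- **final assembly** -/
theorem all_good {X₀ X : ℕ} (hX : 0 < X)
    (hsmall : ∀ t, Odd t → 3 < t → t < X₀ → Good t)
    (Lm : ℕ → List (ℕ × ℕ)) (hLm : ∀ r, r < 16 → r % 2 = 1 →
      (∀ w ∈ Lm r, Win r w.1 w.2) ∧ cover1 X₀ (Lm r) X = true)
    (Ls : ℕ → List (ℕ × ℕ)) (hLs : ∀ r, r < 16 → r % 2 = 1 →
      (∀ w ∈ Ls r, Stab r w.1 w.2) ∧ cover X (Ls r) (81 * X) = true) :
    ∀ t, Odd t → 3 < t → Good t := by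
  intro t
  induction t using Nat.strong_induction_on with
  | _ t ih =>
    intro ht h3
    by_cases hm : t % 3 = 0
    · obtain ⟨s, rfl⟩ : ∃ s, t = 3 * s := ⟨t / 3, by omega⟩
      have hs : Odd s := (Nat.odd_mul.1 ht).2
      by_cases hs3 : s = 3
      · subst hs3; exact Good_nine
      · have hs4 : 3 < s := by
          obtain ⟨j, hj⟩ := hs
          omega
        have := ih s (by omega) hs hs4
        exact Good_mul this (by decide)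
    · rcases Nat.lt_or_ge t X₀ with h | h
      · exact hsmall t ht h3 h
      rcases Nat.lt_or_ge t X with h' | h'
      · exact middle Lm hLm t ht hm h h'
      · exact large hX Ls hLs t ht hm h'

end Pool.Agent.Lib.MP_cfac74_al.Cov
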