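import Pool.Agent.Lib.MP_cfac74_al.Cov.Norm
import Pool.Agent.Lib.MP_cfac74_al.Tab.Plane

/-!
# MP_cfac74_al : complete window checks over a geometry
-/

set_option autoImplicit false
set_option linter.unusedSectionVars false

namespace Pool.Agent.Lib.MP_cfac74_al.Cov

open Finset Pool.Agent.Lib.MP_cfac74_al.Dec Pool.Agent.Lib.MP_cfac74_al.Ch
open Pool.Agent.Lib.MP_cfac74_al.Tab (evT monz lane dsc Geo)

/-- conjunction, left argument first -/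
noncomputable def bd (a b : Bool) : Bool := @Bool.rec (fun _ => Bool) false b a

theorem bd_true {a b : Bool} (h : bd a b = true) : a = true ∧ b = true := brec_true h

/-- evaluation with a forced argument -/
noncomputable def forceB (f : ℕ → Bool) (e : ℕ) : Bool :=
  @Nat.rec (fun _ => Bool) (f (nat_lit 0)) (fun n _ => f (Nat.succ n)) e

theorem forceB_eq (f : ℕ → Bool) (e : ℕ) : forceB f e = f e := by cases e <;> rfl

/-- `∏ (1 + k)` -/
noncomputable def prodK (l : List ℕ) : ℕ :=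
  @List.rec ℕ (fun _ => ℕ) (nat_lit 1) (fun a _ ih => Nat.mul (Nat.succ a) ih) l

/-- length -/
noncomputable def lenL (l : List ℕ) : ℕ :=
  @List.rec ℕ (fun _ => ℕ) (nat_lit 0) (fun _ _ ih => Nat.succ ih) l

theorem lenL_eq (l : List ℕ) : lenL l = l.length := by
  induction l with
  | nil => rfl
  | cons a l ih =>
    change Nat.succ (lenL l) = _
    rw [ih]; rfl

theorem prodK_eq : ∀ l : List ℕ, prodK l = ∏ j ∈ range l.length, (1 + seqZ l j) := by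
  intro l
  induction l with
  | nil => rfl
  | cons a l ih =>
    have h : prodK (a :: l) = (a + 1) * prodK l := rfl
    rw [h, ih, List.length_cons, Finset.prod_range_succ']
    have h2 : ∀ j, seqZ (a :: l) (j + 1) = seqZ l j := fun _ => rfl
    have h3 : seqZ (a :: l) 0 = a := rfl
    simp_rw [h2]
    rw [h3]; ring

/-- all data checks of a core -/
noncomputable def coreC (kl Ml : List ℕ) : Bool :=
  bd (allNk kl) (bd (allNm Ml) (bd (Nat.beq (lenL kl) (nat_lit 5))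
    (Nat.ble (Nat.mul (nat_lit 65536) (prodK kl)) (nat_lit 1099511627776))))

/-- run a check over the tables of a core -/
noncomputable def runC (TL TE kl : List ℕ) (f : ℕ → ℕ → ℕ → Bool) : Bool :=
  forceB (fun OF => forceB (fun FL => forceB (fun FE => f FL FE OF)
    (evT TE (monz (seqZ kl) (nat_lit 5)))) (evT TL (monz (seqZ kl) (nat_lit 5))))
    (Nat.mul (nat_lit 16384) (prodK kl))

theorem runC_eq (TL TE kl : List ℕ) (f : ℕ → ℕ → ℕ → Bool) :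
    runC TL TE kl f = f (evT TL (monz (seqZ kl) 5)) (evT TE (monz (seqZ kl) 5))
      (16384 * prodK kl) := by
  unfold runC
  rw [forceB_eq, forceB_eq, forceB_eq]
  rfl

section

variable {n : ℕ} {A B : Fin n → Fin n → ZMod 3} {pts TL TE : List ℕ} {D NP NU : ℕ}

theorem tab_of_geo (G : Geo A B pts TL TE D NP NU) {kl Ml : List ℕ} (h : coreC kl Ml = true) :
    TabOK A B (kf (seqZ kl)) (evT TL (monz (seqZ kl) 5)) (evT TE (monz (seqZ kl) 5))
      (16384 * prodK kl) D NP NU := by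
  obtain ⟨_, h⟩ := bd_true h
  obtain ⟨_, h⟩ := bd_true h
  obtain ⟨h1, h2⟩ := bd_true h
  have h3 : kl.length = 5 := by rw [← lenL_eq]; exact Nat.eq_of_beq_eq_true h1
  have h4 : prodK kl = ∏ j ∈ range 5, (1 + seqZ kl j) := by rw [prodK_eq, h3]
  have h5 : ∀ j, 5 ≤ j → seqZ kl j = 0 := fun j hj => seqZ_ge kl j (by omega)
  have h6 : 65536 * ∏ j ∈ range 5, (1 + seqZ kl j) ≤ Tab.W := by
    rw [← h4]; exact Nat.le_of_ble_eq_true h2
  have h7 : Tab.OFF (seqZ kl) = 16384 * prodK kl := by rw [h4]; rfl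
  rw [← h7]
  exact ⟨G.line_val _ h5 h6, G.plane_val _ h5 h6, G.zero_val _ h5 h6⟩

theorem core_of_check {kl Ml : List ℕ} (h : coreC kl Ml = true)
    (hA : ∀ i j, A i j = - A j i) (hB : ∀ i j, B i j = - B j i) :
    CoreOK A B (kf (seqZ kl)) (seqM Ml) := by
  obtain ⟨h1, h⟩ := bd_true h
  obtain ⟨h2, h⟩ := bd_true h
  have h3 := allNm_spec Ml h2
  have h4 := seqM_prop (Φ := fun m => Nm m ∧ m % 3 = 1) ⟨nm_one, rfl⟩ Ml h3
  exact ⟨hA, hB, fun j => seqZ_nm kl h1 j, fun i => (h4 i).1, fun i => (h4 i).2⟩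

/-- direct window, no extra line -/
noncomputable def wN (TL TE : List ℕ) (D NP NU : ℕ) (kl Ml : List ℕ) (s : ℕ)
    (st : List (ℕ × ℕ × ℕ)) (c : ℕ) (L : List ((ℕ × ℕ) × List (ℕ × ℕ × ℕ)))
    (r lo nn lo' hi' : ℕ) : Bool :=
  bd (Nat.ble (nat_lit 1) s) (bd (Nat.beq (Nat.mod r (nat_lit 2)) (nat_lit 1))
  (bd (Nat.beq lo' (Nat.mul (nat_lit 96) lo))
  (bd (Nat.beq (Nat.succ hi') (Nat.mul (nat_lit 96) (Nat.add lo nn)))
  (bd (coreC kl Ml)
  (runC TL TE kl fun FL FE OF =>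
    dirN FL FE OF D NP NU (seqM Ml) s (seqS st) c L r lo nn)))))

theorem wN_spec (hA : ∀ i j, A i j = - A j i) (hB : ∀ i j, B i j = - B j i)
    (G : Geo A B pts TL TE D NP NU) {kl Ml : List ℕ} {s : ℕ}
    {st : List (ℕ × ℕ × ℕ)} {c : ℕ} {L : List ((ℕ × ℕ) × List (ℕ × ℕ × ℕ))}
    {r lo nn lo' hi' : ℕ} (h : wN TL TE D NP NU kl Ml s st c L r lo nn lo' hi' = true) :
    Win r lo' hi' := by
  obtain ⟨h1, h⟩ := bd_true h
  obtain ⟨h2, h⟩ := bd_true h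
  obtain ⟨h3, h⟩ := bd_true h
  obtain ⟨h4, h⟩ := bd_true h
  obtain ⟨h5, h⟩ := bd_true h
  rw [runC_eq] at h
  have h6 := dirN_spec (core_of_check h5 hA hB) (tab_of_geo G h5) (Nat.le_of_ble_eq_true h1)
    (Nat.eq_of_beq_eq_true h2) h
  have h3' : lo' = 96 * lo := Nat.eq_of_beq_eq_true h3
  have h4' : hi' + 1 = 96 * (lo + nn) := Nat.eq_of_beq_eq_true h4
  rw [h3', show hi' = 96 * (lo + nn) - 1 by omega]
  exact h6

/-- direct window, with an extra line of parameter `Q` -/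
noncomputable def wE (TL TE : List ℕ) (D NP NU : ℕ) (kl Ml : List ℕ) (s : ℕ)
    (st : List (ℕ × ℕ × ℕ)) (c Q : ℕ) (L : List ((ℕ × ℕ) × List (ℕ × ℕ × ℕ)))
    (r lo nn lo' hi' : ℕ) : Bool :=
  bd (Nat.ble (nat_lit 1) s) (bd (Nat.beq (Nat.mod r (nat_lit 2)) (nat_lit 1))
  (bd (coreC kl Ml) (bd (nmC (Nat.succ (Nat.mul (nat_lit 3) Q)))
  (forceB (fun P => forceB (fun q =>
    bd (Nat.beq lo' (Nat.mul q lo)) (bd (Nat.beq (Nat.succ hi') (Nat.mul q (Nat.add lo nn)))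
    (runC TL TE kl fun FL FE OF =>
      dirE FL FE OF D NP NU (seqM Ml) s (seqS st) c Q P q L r lo nn)))
    (Nat.mul (nat_lit 96) P)) (Nat.add Q (nat_lit 3))))))

theorem wE_spec (hA : ∀ i j, A i j = - A j i) (hB : ∀ i j, B i j = - B j i)
    (G : Geo A B pts TL TE D NP NU) {kl Ml : List ℕ} {s : ℕ}
    {st : List (ℕ × ℕ × ℕ)} {c Q : ℕ} {L : List ((ℕ × ℕ) × List (ℕ × ℕ × ℕ))}
    {r lo nn lo' hi' : ℕ} (h : wE TL TE D NP NU kl Ml s st c Q L r lo nn lo' hi' = true) :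
    Win r lo' hi' := by
  obtain ⟨h1, h⟩ := bd_true h
  obtain ⟨h2, h⟩ := bd_true h
  obtain ⟨h5, h⟩ := bd_true h
  obtain ⟨h7, h⟩ := bd_true h
  rw [forceB_eq, forceB_eq] at h
  obtain ⟨h3, h⟩ := bd_true h
  obtain ⟨h4, h⟩ := bd_true h
  rw [runC_eq] at h
  have h6 := dirE_spec (core_of_check h5 hA hB) (tab_of_geo G h5) (nmC_spec h7).1
    (P := Q + 3) (q := 96 * (Q + 3)) rfl rfl (Nat.le_of_ble_eq_true h1)
    (Nat.eq_of_beq_eq_true h2) h
  have h3' : lo' = 96 * (Q + 3) * lo := Nat.eq_of_beq_eq_true h3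
  have h4' : hi' + 1 = 96 * (Q + 3) * (lo + nn) := Nat.eq_of_beq_eq_true h4
  rw [h3', show hi' = 96 * (Q + 3) * (lo + nn) - 1 by omega]
  exact h6

/-- base window -/
noncomputable def bW (TL TE : List ℕ) (NP : ℕ) (kl Ml : List ℕ) (s s₀ : ℕ)
    (st : List (ℕ × ℕ × ℕ)) (c lo nn β : ℕ) (L : List (ℕ × ℕ)) (β₂ ymax len₂ X₂ c' a b Bmax : ℕ) :
    Bool :=
  bd (coreC kl Ml) (bd (Nat.beq s₀ (Nat.succ s)) (bd (Nat.beq Bmax (Nat.add β₂ (Nat.mul (nat_lit 16) ymax)))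
  (forceB (fun q =>
    bd (Nat.beq a (Nat.add c' (Nat.mul (nat_lit 32) (Nat.mul q lo))))
    (bd (Nat.beq (Nat.succ b) (Nat.add c' (Nat.mul (nat_lit 32) (Nat.mul q (Nat.add lo nn)))))
    (runC TL TE kl fun FL _ OF =>
      baseC FL OF NP (seqM Ml) s s₀ (seqS st) c q lo nn β L β₂ ymax len₂ X₂ c')))
    (Nat.mul (nat_lit 9) (Nat.add (seqM Ml s) (nat_lit 8))))))

theorem bW_spec (hA : ∀ i j, A i j = - A j i) (hB : ∀ i j, B i j = - B j i)
    (G : Geo A B pts TL TE D NP NU) {kl Ml : List ℕ} {s s₀ : ℕ}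
    {st : List (ℕ × ℕ × ℕ)} {c lo nn β : ℕ} {L : List (ℕ × ℕ)}
    {β₂ ymax len₂ X₂ c' a b Bmax : ℕ}
    (h : bW TL TE NP kl Ml s s₀ st c lo nn β L β₂ ymax len₂ X₂ c' a b Bmax = true) :
    BaseOK A B (kf (seqZ kl)) (seqM Ml) s₀ a b c' Bmax β₂ := by
  obtain ⟨h1, h⟩ := bd_true h
  obtain ⟨h2, h⟩ := bd_true h
  obtain ⟨h3, h⟩ := bd_true h
  rw [forceB_eq] at h
  obtain ⟨h4, h⟩ := bd_true h
  obtain ⟨h5, h⟩ := bd_true h
  rw [runC_eq] at h
  exact baseC_spec (core_of_check h1 hA hB) (tab_of_geo G h1) (Nat.eq_of_beq_eq_true h2) rfl h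
    (Nat.eq_of_beq_eq_true h4) (Nat.eq_of_beq_eq_true h5) (Nat.eq_of_beq_eq_true h3)

/-- `M i = 1` for `i ≥ s₀` -/
noncomputable def oneC (Ml : List ℕ) (s₀ : ℕ) : Bool := Nat.ble (lenL Ml) s₀

/-- stable window, no extra line -/
noncomputable def sN (TL TE : List ℕ) (D NP NU : ℕ) (kl Ml : List ℕ) (s₀ a b c Bmax : ℕ)
    (β' xmax len X r lo hi : ℕ) : Bool :=
  bd (coreC kl Ml) (bd (Nat.ble (nat_lit 1) s₀) (bd (Nat.ble (lenL Ml) s₀)
  (bd (Nat.ble (nat_lit 1) β')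
  (bd (Nat.beq (Nat.mod (Nat.add (Nat.mul (nat_lit 3) c) (Nat.mul (nat_lit 2) β')) (nat_lit 16))
    (Nat.mod r (nat_lit 16)))
  (bd (Nat.ble (Nat.add (Nat.add (Nat.mul (nat_lit 210) a) (Nat.mul (nat_lit 6) Bmax))
      (Nat.mul (nat_lit 140) (Nat.add β' (Nat.mul (nat_lit 8) xmax)))) (Nat.mul (nat_lit 70) lo))
  (bd (Nat.ble hi (Nat.mul (nat_lit 3) b))
  (runC TL TE kl fun FL FE OF =>
    libTop β' (nat_lit 1) xmax (mapD (nat_lit 144) (gval FL FE OF D NP NU (seqM Ml) s₀ evN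
      (nat_lit 0) (PPn (seqM Ml) s₀)) (Nat.mul (nat_lit 18) β') (unpack len X)))))))))

theorem sN_spec (hA : ∀ i j, A i j = - A j i) (hB : ∀ i j, B i j = - B j i)
    (G : Geo A B pts TL TE D NP NU) {kl Ml : List ℕ} {s₀ a b c Bmax β : ℕ}
    (hb : BaseOK A B (kf (seqZ kl)) (seqM Ml) s₀ a b c Bmax β)
    {β' xmax len X r lo hi : ℕ}
    (h : sN TL TE D NP NU kl Ml s₀ a b c Bmax β' xmax len X r lo hi = true) :
    Stab r lo hi := by
  obtain ⟨h1, h⟩ := bd_true h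
  obtain ⟨h2, h⟩ := bd_true h
  obtain ⟨h3, h⟩ := bd_true h
  obtain ⟨h4, h⟩ := bd_true h
  obtain ⟨h5, h⟩ := bd_true h
  obtain ⟨h6, h⟩ := bd_true h
  obtain ⟨h7, h⟩ := bd_true h
  rw [runC_eq] at h
  have h8 : Ml.length ≤ s₀ := by rw [← lenL_eq]; exact Nat.le_of_ble_eq_true h3
  exact stabN_of_base (core_of_check h1 hA hB) (tab_of_geo G h1) (Nat.le_of_ble_eq_true h2)
    (fun i hi => seqM_ge Ml i (h8.trans hi)) hb (Nat.le_of_ble_eq_true h4) h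
    (Nat.eq_of_beq_eq_true h5) (Nat.le_of_ble_eq_true h6) (Nat.le_of_ble_eq_true h7)

/-- stable window, with an extra line -/
noncomputable def sE (TL TE : List ℕ) (D NP NU : ℕ) (kl Ml : List ℕ) (s₀ a b c Bmax Q : ℕ)
    (β' xmax len X r lo hi : ℕ) : Bool :=
  bd (coreC kl Ml) (bd (Nat.ble (nat_lit 1) s₀) (bd (Nat.ble (lenL Ml) s₀)
  (bd (Nat.ble (nat_lit 1) β') (bd (nmC (Nat.succ (Nat.mul (nat_lit 3) Q)))
  (forceB (fun P =>
  (bd (Nat.ble (nat_lit 1) (Nat.mod P (nat_lit 11)))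
  (bd (Nat.beq (Nat.mod (Nat.add (Nat.mul (Nat.mul (nat_lit 3) P) c) (Nat.mul (nat_lit 2) β'))
    (nat_lit 16)) (Nat.mod r (nat_lit 16)))
  (bd (Nat.ble (Nat.add (Nat.mul (Nat.mul (nat_lit 3) P)
      (Nat.add (Nat.mul (nat_lit 70) a) (Nat.mul (nat_lit 2) Bmax)))
      (Nat.mul (nat_lit 140) (Nat.add β' (Nat.mul (nat_lit 8) xmax)))) (Nat.mul (nat_lit 70) lo))
  (bd (Nat.ble hi (Nat.mul (Nat.mul (nat_lit 3) P) b))
  (runC TL TE kl fun FL FE OF =>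
    libTop β' P xmax (mapD (nat_lit 144) (gval FL FE OF D NP NU (seqM Ml) s₀ (evE P Q)
      (nat_lit 0) (Nat.mul P (PPn (seqM Ml) s₀))) (Nat.mul (nat_lit 18) β') (unpack len X))))))))
    (Nat.add Q (nat_lit 3)))))))

theorem sE_spec (hA : ∀ i j, A i j = - A j i) (hB : ∀ i j, B i j = - B j i)
    (G : Geo A B pts TL TE D NP NU) {kl Ml : List ℕ} {s₀ a b c Bmax β Q : ℕ}
    (hb : BaseOK A B (kf (seqZ kl)) (seqM Ml) s₀ a b c Bmax β)
    {β' xmax len X r lo hi : ℕ}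
    (h : sE TL TE D NP NU kl Ml s₀ a b c Bmax Q β' xmax len X r lo hi = true) :
    Stab r lo hi := by
  obtain ⟨h1, h⟩ := bd_true h
  obtain ⟨h2, h⟩ := bd_true h
  obtain ⟨h3, h⟩ := bd_true h
  obtain ⟨h4, h⟩ := bd_true h
  obtain ⟨h9, h⟩ := bd_true h
  rw [forceB_eq] at h
  obtain ⟨h10, h⟩ := bd_true h
  obtain ⟨h5, h⟩ := bd_true h
  obtain ⟨h6, h⟩ := bd_true h
  obtain ⟨h7, h⟩ := bd_true h
  rw [runC_eq] at h
  have h8 : Ml.length ≤ s₀ := by rw [← lenL_eq]; exact Nat.le_of_ble_eq_true h3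
  have h11 : 1 ≤ (Q + 3) % 11 := Nat.le_of_ble_eq_true h10
  exact stabE_of_base (core_of_check h1 hA hB) (tab_of_geo G h1) (Nat.le_of_ble_eq_true h2)
    (fun i hi => seqM_ge Ml i (h8.trans hi)) hb (nmC_spec h9).1 (P := Q + 3) rfl (by omega)
    (Nat.le_of_ble_eq_true h4) h
    (Nat.eq_of_beq_eq_true h5) (Nat.le_of_ble_eq_true h6) (Nat.le_of_ble_eq_true h7)

end

end Pool.Agent.Lib.MP_cfac74_al.Cov
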