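import Pool.Agent.Lib.MP_cfac74_al.Cov.Bitw
import Pool.Agent.Lib.MP_cfac74_al.Small.Run

/-!
# MP_cfac74_al : window checker by residue classes, exceptions by Frobenius certificates
-/

set_option autoImplicit false
set_option linter.unusedSectionVars false

namespace Pool.Agent.Lib.MP_cfac74_al.Cov

open Pool.Agent.Lib.MP_cfac74_al.Dec Pool.Agent.Lib.MP_cfac74_al.Ch

/-! ### Frobenius certificates -/

/-- bit set of the odd primes below `1000` -/
def oddPrimes : ℕ :=
  nat_lit 0x20808208800208220200808800008a20008a20008028a00a00200800220220808820808020200808220028208a00800a20828208020a08200820000a00208808808008a20208828028020220208820808228020800228800200a20a08208028228800800a28028208820a00a08800228a20208828828208a20a08a28a8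

/-- product of the odd primes below `32` -/
def P31 : ℕ := 100280245065

theorem P31_spec : Small.PSpec P31 31 := by
  intro d h1 h2 h3
  interval_cases d <;> first | (exfalso; omega) | decide

theorem oddPrimes_chk : ∀ r < 1000, oddPrimes.testBit r = true →
    r % 2 = 1 ∧ 1 < r ∧ (Nat.gcd r P31 = 1 ∨ r < 32) := by
  decide +kernel

theorem oddPrimes_small : ∀ r < 32, oddPrimes.testBit r = true →
    r ∈ [3, 5, 7, 11, 13, 17, 19, 23, 29, 31] := by
  decide +kernel

theorem oddPrimes_spec (r : ℕ) (hr : r < 1000) (h : oddPrimes.testBit r = true) :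
    r.Prime ∧ r ≠ 2 := by
  obtain ⟨h1, h2, h3⟩ := oddPrimes_chk r hr h
  refine ⟨?_, by omega⟩
  rcases h3 with h3 | h3
  · exact Small.prime_of_gcd P31_spec h2 h1 (by omega) h3
  · have h4 := oddPrimes_small r h3 h
    simp only [List.mem_cons, List.not_mem_nil, or_false] at h4
    rcases h4 with rfl | rfl | rfl | rfl | rfl | rfl | rfl | rfl | rfl | rfl <;> norm_num

/-- check of a certificate `(t, r, x)` -/
noncomputable def frobOK (t r x : ℕ) : Bool :=
  @Bool.rec (fun _ => Bool) false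
    (@Bool.rec (fun _ => Bool) false
      (@Bool.rec (fun _ => Bool) false
        (@Bool.rec (fun _ => Bool) false
          (@Bool.rec (fun _ => Bool) false
            (@Bool.rec (fun _ => Bool) false
              (Nat.beq (Nat.gcd (Nat.sub x (nat_lit 1))
                (Nat.add (Nat.mul r (Nat.sub t r)) (nat_lit 1))) (nat_lit 1))
              (Nat.beq (Nat.mod (Nat.pow x r) (Nat.add (Nat.mul r (Nat.sub t r)) (nat_lit 1)))
                (nat_lit 1)))
            (Nat.ble (nat_lit 1) x))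
          (Nat.ble (Nat.succ r) t))
        (Nat.beq (Nat.mod t (nat_lit 2)) (nat_lit 1)))
      (Nat.ble r (nat_lit 999)))
    (Nat.beq (Nat.land (nat_lit 1) (Nat.shiftRight oddPrimes r)) (nat_lit 1))

theorem brec_true {a b : Bool} (h : @Bool.rec (fun _ => Bool) false b a = true) :
    a = true ∧ b = true := by
  cases a with
  | false => exact Bool.noConfusion h
  | true => exact ⟨rfl, h⟩

theorem frobOK_spec {t r x : ℕ} (h : frobOK t r x = true) : Good t := by
  unfold frobOK at h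
  obtain ⟨h1, h⟩ := brec_true h
  obtain ⟨h2, h⟩ := brec_true h
  obtain ⟨h3, h⟩ := brec_true h
  obtain ⟨h4, h⟩ := brec_true h
  obtain ⟨h5, h⟩ := brec_true h
  obtain ⟨h6, h7⟩ := brec_true h
  have e1 : (1 : ℕ) &&& (oddPrimes >>> r) = 1 := Nat.eq_of_beq_eq_true h1
  have hb : oddPrimes.testBit r = true := by
    unfold Nat.testBit
    rw [e1]; rfl
  have hr : r ≤ 999 := Nat.le_of_ble_eq_true h2
  obtain ⟨hp, hp2⟩ := oddPrimes_spec r (by omega) hb
  have ht : t % 2 = 1 := Nat.eq_of_beq_eq_true h3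
  have hrt : r + 1 ≤ t := Nat.le_of_ble_eq_true h4
  have hx : 1 ≤ x := Nat.le_of_ble_eq_true h5
  exact Good_frob r t x hp hp2 (Nat.odd_iff.2 ht) (by omega) (Nat.eq_of_beq_eq_true h6) hx
    (Nat.eq_of_beq_eq_true h7)

/-! ### residue classes -/

section

variable {α : Type}

/-- union over the choices `a` with `g a ≡ ρ mod q` of `Y` translated by `g a / q` -/
noncomputable def orRes (g : α → ℕ) (Y q ρ : ℕ) (l : List α) : ℕ :=
  @List.rec α (fun _ => ℕ) (nat_lit 0)
    (fun a _ ih => @Bool.rec (fun _ => ℕ) ih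
      (Nat.lor ih (Nat.shiftLeft Y (Nat.div (g a) q)))
      (Nat.beq (Nat.mod (g a) q) ρ)) l

theorem testBit_orRes (g : α → ℕ) (Y q ρ : ℕ) (l : List α) (i : ℕ)
    (h : (orRes g Y q ρ l).testBit i = true) :
    ∃ a ∈ l, g a % q = ρ ∧ ∃ j, Y.testBit j = true ∧ i = j + g a / q := by
  induction l with
  | nil =>
    have h0 : orRes g Y q ρ [] = 0 := rfl
    rw [h0, Nat.zero_testBit] at h
    exact Bool.noConfusion h
  | cons a l ih =>
    rcases hb : Nat.beq (Nat.mod (g a) q) ρ with _ | _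
    · have h0 : orRes g Y q ρ (a :: l) = orRes g Y q ρ l := by
        change @Bool.rec (fun _ => ℕ) _ _ (Nat.beq (Nat.mod (g a) q) ρ) = _
        rw [hb]; rfl
      rw [h0] at h
      obtain ⟨z, hz, h1⟩ := ih h
      exact ⟨z, List.mem_cons_of_mem _ hz, h1⟩
    · have h0 : orRes g Y q ρ (a :: l) = (orRes g Y q ρ l) ||| (Y <<< (g a / q)) := by
        change @Bool.rec (fun _ => ℕ) _ _ (Nat.beq (Nat.mod (g a) q) ρ) = _
        rw [hb]; rfl
      rw [h0, Nat.testBit_or, Bool.or_eq_true, Nat.testBit_shiftLeft, Bool.and_eq_true,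
        decide_eq_true_iff] at h
      rcases h with h | ⟨h1, h2⟩
      · obtain ⟨z, hz, h1⟩ := ih h
        exact ⟨z, List.mem_cons_of_mem _ hz, h1⟩
      · exact ⟨a, List.mem_cons_self, Nat.eq_of_beq_eq_true hb, i - g a / q, h2, by omega⟩

/-- exceptions `(t, r, x)` of the class `ρ mod q` -/
noncomputable def exRes (q ρ : ℕ) (l : List (ℕ × ℕ × ℕ)) : ℕ :=
  @List.rec (ℕ × ℕ × ℕ) (fun _ => ℕ) (nat_lit 0)
    (fun p _ ih => @Bool.rec (fun _ => ℕ) ih
      (@Bool.rec (fun _ => ℕ) ih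
        (Nat.lor ih (Nat.shiftLeft (nat_lit 1) (Nat.div p.1 q)))
        (Nat.beq (Nat.mod p.1 q) ρ))
      (frobOK p.1 p.2.1 p.2.2)) l

theorem testBit_exRes (q ρ : ℕ) (l : List (ℕ × ℕ × ℕ)) (i : ℕ)
    (h : (exRes q ρ l).testBit i = true) : ∃ t, Good t ∧ t % q = ρ ∧ i = t / q := by
  induction l with
  | nil =>
    have h0 : exRes q ρ [] = 0 := rfl
    rw [h0, Nat.zero_testBit] at h
    exact Bool.noConfusion h
  | cons p l ih =>
    have h0 : exRes q ρ (p :: l) = @Bool.rec (fun _ => ℕ) (exRes q ρ l)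
      (@Bool.rec (fun _ => ℕ) (exRes q ρ l)
        ((exRes q ρ l) ||| (1 <<< (p.1 / q))) (Nat.beq (Nat.mod p.1 q) ρ))
      (frobOK p.1 p.2.1 p.2.2) := rfl
    rw [h0] at h
    rcases hf : frobOK p.1 p.2.1 p.2.2 with _ | _
    · rw [hf] at h; exact ih h
    · rw [hf] at h
      rcases hb : Nat.beq (Nat.mod p.1 q) ρ with _ | _
      · rw [hb] at h; exact ih h
      · rw [hb] at h
        have h' : ((exRes q ρ l) ||| (1 <<< (p.1 / q))).testBit i = true := h
        rw [Nat.testBit_or, Bool.or_eq_true, Nat.testBit_shiftLeft, Bool.and_eq_true,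
          decide_eq_true_iff, Nat.testBit_one_eq_true_iff_self_eq_zero] at h'
        rcases h' with h' | ⟨h1, h2⟩
        · exact ih h'
        · exact ⟨p.1, frobOK_spec hf, Nat.eq_of_beq_eq_true hb, by omega⟩

/-- check of all the classes `ρ, ρ + 16, ...` prime to `3` -/
noncomputable def chkW (g : α → ℕ) (Y q lo mask : ℕ) (L : List (List α × List (ℕ × ℕ × ℕ))) :
    ℕ → Bool :=
  @List.rec (List α × List (ℕ × ℕ × ℕ)) (fun _ => ℕ → Bool) (fun ρ => Nat.ble q ρ)
    (fun p _ ih ρ => @Bool.rec (fun _ => Bool) false (ih (Nat.add ρ (nat_lit 16)))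
      (@Bool.rec (fun _ => Bool)
        (window (Nat.lor (orRes g Y q ρ p.1) (exRes q ρ p.2)) mask lo)
        true (Nat.beq (Nat.mod ρ (nat_lit 3)) (nat_lit 0)))) L

theorem chkW_spec {g : α → ℕ} {Y q lo mask : ℕ} (L : List (List α × List (ℕ × ℕ × ℕ))) :
    ∀ ρ, chkW g Y q lo mask L ρ = true → ∀ κ, ρ + 16 * κ < q → (ρ + 16 * κ) % 3 ≠ 0 →
      ∃ p ∈ L, window (Nat.lor (orRes g Y q (ρ + 16 * κ) p.1) (exRes q (ρ + 16 * κ) p.2))
        mask lo = true := by
  induction L with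
  | nil =>
    intro ρ h κ h1 h2
    have h3 : q ≤ ρ := Nat.le_of_ble_eq_true h
    omega
  | cons p L ih =>
    intro ρ h κ h1 h2
    have h' : @Bool.rec (fun _ => Bool) false (chkW g Y q lo mask L (ρ + 16))
      (@Bool.rec (fun _ => Bool)
        (window (Nat.lor (orRes g Y q ρ p.1) (exRes q ρ p.2)) mask lo)
        true (Nat.beq (Nat.mod ρ (nat_lit 3)) (nat_lit 0))) = true := h
    obtain ⟨h3, h4⟩ := brec_true h'
    rcases Nat.eq_zero_or_pos κ with rfl | hκ
    · rw [Nat.mul_zero, Nat.add_zero] at h2 ⊢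
      rcases hb : Nat.beq (Nat.mod ρ (nat_lit 3)) (nat_lit 0) with _ | _
      · rw [hb] at h3
        exact ⟨p, List.mem_cons_self, h3⟩
      · exact absurd (Nat.eq_of_beq_eq_true hb) h2
    · obtain ⟨κ', rfl⟩ : ∃ κ', κ = κ' + 1 := ⟨κ - 1, by omega⟩
      have e : ρ + 16 * (κ' + 1) = ρ + 16 + 16 * κ' := by ring
      rw [e] at h1 h2 ⊢
      obtain ⟨p', hp', h5⟩ := ih (ρ + 16) h4 κ' h1 h2
      exact ⟨p', List.mem_cons_of_mem _ hp', h5⟩

/-- **window checker** -/
theorem win_res {g : α → ℕ} {Y q lo n r : ℕ} {L : List (List α × List (ℕ × ℕ × ℕ))}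
    (hG : ∀ p ∈ L, ∀ a ∈ p.1, ∀ i, Y.testBit i = true → Good (g a + q * i))
    (hq : q % 48 = 0) (h : chkW g Y q lo (2 ^ n - 1) L r = true) :
    Win r (q * lo) (q * (lo + n) - 1) := by
  intro t h1 h3 h4 h5
  rcases Nat.eq_zero_or_pos q with rfl | hq0
  · simp only [Nat.zero_mul, Nat.zero_sub, Nat.le_zero] at h5
    subst h5; simp at h3
  have hn : 0 < q * (lo + n) := by
    rcases Nat.eq_zero_or_pos (q * (lo + n)) with h0 | h0
    · rw [h0] at h5
      have : t = 0 := by omega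
      subst this; simp at h3
    · exact h0
  have h6 : t < q * (lo + n) := by omega
  have h7 := Nat.div_add_mod t q
  have h8 : t % q % 16 = r := by
    rw [Nat.mod_mod_of_dvd _ (by omega : 16 ∣ q)]; exact h1
  have h9 : t % q % 3 ≠ 0 := by
    rw [Nat.mod_mod_of_dvd _ (by omega : 3 ∣ q)]; exact h3
  have h10 : t % q < q := Nat.mod_lt _ hq0
  obtain ⟨κ, hκ⟩ : ∃ κ, t % q = r + 16 * κ := ⟨(t % q) / 16, by omega⟩
  rw [hκ] at h9 h10
  obtain ⟨p, hp, hw⟩ := chkW_spec L r h κ h10 h9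
  have h11 : lo ≤ t / q := by
    rw [Nat.le_div_iff_mul_le hq0, mul_comm]; exact h4
  have h12 : t / q < lo + n := by
    rw [Nat.div_lt_iff_lt_mul hq0, mul_comm]; exact h6
  have h13 := mem_of_window_full hw h11 h12
  have h14 : ((orRes g Y q (r + 16 * κ) p.1) ||| (exRes q (r + 16 * κ) p.2)).testBit (t / q) =
    true := h13
  rw [Nat.testBit_or, Bool.or_eq_true] at h14
  rcases h14 with h14 | h14
  · obtain ⟨a, ha, h15, j, h16, h17⟩ := testBit_orRes _ _ _ _ _ _ h14
    have h18 := Nat.div_add_mod (g a) q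
    have e1 : t = g a + q * j := by
      rw [← h7, h17, hκ, ← h15]
      rw [Nat.mul_add]; omega
    rw [e1]
    exact hG p hp a ha j h16
  · obtain ⟨t', h15, h16, h17⟩ := testBit_exRes _ _ _ _ h14
    have h18 := Nat.div_add_mod t' q
    have e1 : t = t' := by
      rw [← h7, h17, hκ, ← h16]; exact h18
    rw [e1]; exact h15

end

/-! ### from cores -/

section

variable {n : ℕ}

/-- `u = 3 c + 2 B'`, no extra line -/
theorem good_u {A B : Fin n → Fin n → ZMod 3} {k : Fin n → ℕ} {M : ℕ → ℕ}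
    (h : CoreOK A B k M) {s : ℕ} (hs : 0 < s) {Y : ℕ} {c : ℤ}
    (hY : ∀ i, Y.testBit i = true → 3 * (c + 32 * (i : ℤ)) ∈ KInt (Hf A B k) M s) {u : ℕ}
    {B' : ℤ} (hB : 9 * B' ∈ TInt (Hf A B k) M s) (hu : (u : ℤ) = 3 * c + 2 * B') (i : ℕ)
    (hi : Y.testBit i = true) : Good (u + 96 * i) := by
  refine good_core h hs (hY i hi) hB _ ?_
  push_cast
  rw [hu]; ring

/-- `u = 3 P c + 2 B'`, with an extra line, `P = Q + 3` -/
theorem good_uE {A B : Fin n → Fin n → ZMod 3} {k : Fin n → ℕ} {M : ℕ → ℕ}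
    (h : CoreOK A B k M) {Q : ℕ} (hQ : Nm (3 * Q + 1)) {s : ℕ} (hs : 0 < s) {Y : ℕ} {c : ℤ}
    (hY : ∀ i, Y.testBit i = true → 3 * (c + 32 * (i : ℤ)) ∈ KInt (Hf A B k) M s) {u : ℕ}
    {B' : ℤ} (hB : 9 * B' ∈ TIntE (Hf A B k) M Q s)
    (hu : (u : ℤ) = 3 * ((Q : ℤ) + 3) * c + 2 * B') (i : ℕ)
    (hi : Y.testBit i = true) : Good (u + 96 * (Q + 3) * i) := by
  refine good_coreE h hQ hs (hY i hi) hB _ ?_
  push_cast
  rw [hu]; ring

/-- the chain bit set from folds (`δ = 2`) -/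
theorem hY_of_fold {V : Type} [AddCommGroup V] [Module (ZMod 3) V]
    {H : (V →+ ZMod 3) → (V →+ ZMod 3) → ℤ} {M : ℕ → ℕ} {s : ℕ} {c : ℤ}
    {ms : List (ℕ × List ℕ)} (hK : KRep H M s 2 (3 * c) ms) (i : ℕ)
    (hi : (foldSh 1 1 ms).testBit i = true) : 3 * (c + 32 * (i : ℤ)) ∈ KInt H M s := by
  obtain ⟨j, h1, x, h2, h3⟩ := testBit_foldSh _ _ _ _ hi
  rw [Nat.testBit_one_eq_true_iff_self_eq_zero] at h2
  have h4 := hK j h1
  have e : 3 * (c + 32 * (i : ℤ)) = 3 * c + 48 * ((2 : ℕ) : ℤ) * j := by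
    rw [h3, h2]; push_cast; ring
  rw [e]; exact h4

end

end Pool.Agent.Lib.MP_cfac74_al.Cov
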