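import Pool.Agent.Lib.MP_cfac74_al.Cov.Main
import Pool.Agent.Lib.MP_cfac74_al.Ch.Line
import Pool.Agent.Lib.MP_cfac74_al.Ch.Geo

/-!
# MP_cfac74_al : stable windows and finite windows from cores
-/

set_option autoImplicit false

namespace Pool.Agent.Lib.MP_cfac74_al.Cov

open Pool.Agent.Lib.MP_cfac74_al.Dec Pool.Agent.Lib.MP_cfac74_al.Ch

section

variable {n : ℕ}

/-- data of a core with a chain: all the numbers are norms `≡ 1 mod 3` -/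
structure CoreOK (A B : Fin n → Fin n → ZMod 3) (k : Fin n → ℕ) (M : ℕ → ℕ) : Prop where
  hA : ∀ i j, A i j = - A j i
  hB : ∀ i j, B i j = - B j i
  hk : ∀ j, Nm (3 * k j + 1)
  hM : ∀ i, Nm (M i)
  hM1 : ∀ i, M i % 3 = 1

theorem odd_card_V : Odd (Nat.card (Fin n → ZMod 3)) := by
  rw [Nat.card_eq_fintype_card, Fintype.card_fun, ZMod.card, Fintype.card_fin]
  exact Odd.pow (by decide)

theorem good_core {A B : Fin n → Fin n → ZMod 3} {k : Fin n → ℕ} {M : ℕ → ℕ}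
    (h : CoreOK A B k M) {s : ℕ} (hs : 0 < s) {K N : ℤ} (hK : K ∈ KInt (Hf A B k) M s)
    (hN : N ∈ TInt (Hf A B k) M s) (t : ℕ) (ht : 9 * (t : ℤ) = 9 * K + 2 * N) : Good t :=
  good_of_sets (L := ZMod 3 × ZMod 3) odd_card_V (om A B) (om_addL A B) (om_addX A B)
    (om_alt A B h.hA h.hB) (coordH n) (fun j => 3 * k j + 1) h.hk (fun j => by omega)
    (Hf A B k) (hV_Hf A B h.hA h.hB k) s hs M (fun i _ => h.hM i) (fun i _ => h.hM1 i)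
    hK hN t ht

theorem good_coreE {A B : Fin n → Fin n → ZMod 3} {k : Fin n → ℕ} {M : ℕ → ℕ}
    (h : CoreOK A B k M) {Q : ℕ} (hQ : Nm (3 * Q + 1)) {s : ℕ} (hs : 0 < s) {K N : ℤ}
    (hK : K ∈ KInt (Hf A B k) M s) (hN : N ∈ TIntE (Hf A B k) M Q s) (t : ℕ)
    (ht : 9 * (t : ℤ) = 9 * (((Q : ℤ) + 3) * K) + 2 * N) : Good t :=
  good_of_setsE (L := ZMod 3 × ZMod 3) odd_card_V (om A B) (om_addL A B) (om_addX A B)
    (om_alt A B h.hA h.hB) (coordH n) (fun j => 3 * k j + 1) h.hk (fun j => by omega)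
    (Hf A B k) (hV_Hf A B h.hA h.hB k) Q hQ s hs M (fun i _ => h.hM i) (fun i _ => h.hM1 i)
    hK hN t ht

theorem mod_to_dvd {t k r : ℕ} (h : t % 16 = (r * 3 ^ k) % 16) :
    (16 : ℤ) ∣ (t : ℤ) - 3 ^ k * r := by
  have h1 : r * 3 ^ k ≡ t [MOD 16] := h.symm
  have h2 := (Nat.modEq_iff_dvd).1 h1
  push_cast at h2
  rw [mul_comm] at h2
  exact_mod_cast h2

theorem three_dvd {t : ℕ} (h : t % 3 ≠ 0) : ¬ (3 : ℤ) ∣ (t : ℤ) := by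
  intro h1
  have h2 : (3 : ℕ) ∣ t := by exact_mod_cast h1
  omega

/-- **stable windows**, without extra line -/
theorem stab_of {A B : Fin n → Fin n → ZMod 3} {k : Fin n → ℕ} {M : ℕ → ℕ}
    (h : CoreOK A B k M) {s₀ : ℕ} (hs : 0 < s₀) (hM : ∀ i, s₀ ≤ i → M i = 1)
    (a b c β β' Bmax Bmax' : ℤ) (r lo hi : ℕ)
    (h1 : ∀ T, (32 : ℤ) ∣ T - c → a ≤ T → T ≤ b → 3 * T ∈ KInt (Hf A B k) M s₀)
    (h2 : ∀ ρ : ℤ, ∃ B', 3 * B' ∈ NInt (Hf A B k) M s₀ ∧ (16 : ℤ) ∣ B' - β ∧ 0 ≤ B' ∧ B' ≤ Bmax ∧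
      (81 : ℤ) ∣ 2 * B' - ρ)
    (h3 : ∀ ρ : ℤ, ¬ (3 : ℤ) ∣ ρ → ∀ e : ℤ, ∃ B', 9 * B' ∈ TInt (Hf A B k) M s₀ ∧
      (16 : ℤ) ∣ B' - β' - 8 * e ∧ 0 ≤ B' ∧ B' ≤ Bmax' ∧ (3 : ℤ) ∣ 2 * B' - ρ)
    (hβ : (8 : ℤ) ∣ β - c) (hr : (16 : ℤ) ∣ 3 * c + 2 * β' - r)
    (hlo : 210 * a + 6 * Bmax + 140 * Bmax' ≤ 70 * lo) (hhi : (hi : ℤ) ≤ 3 * b) :
    Stab r lo hi := by
  intro j t h4 h5 h6 h7
  have e1 : ∀ i, s₀ ≤ i → ∀ K ∈ KInt (Hf A B k) M i, ∀ N ∈ NInt (Hf A B k) M i,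
      81 * K + 2 * N ∈ KInt (Hf A B k) M (i + 1) := by
    intro i hi K hK N hN
    refine ⟨K, hK, N, hN, ?_⟩
    rw [hM i hi]; push_cast; ring
  have e2 : ∀ i, s₀ ≤ i → ∀ z ∈ NInt (Hf A B k) M i, 11 * z ∈ NInt (Hf A B k) M (i + 1) := by
    intro i hi z hz
    have := NInt_ext (Hf A B k) M i hz
    rw [hM i hi] at this
    norm_num at this
    exact this
  have e3 : ∀ i, s₀ ≤ i → ∀ z ∈ TInt (Hf A B k) M i, 11 * z ∈ TInt (Hf A B k) M (i + 1) := by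
    intro i hi z hz
    have := TInt_ext (Hf A B k) M i hz
    rw [hM i hi] at this
    norm_num at this
    exact this
  obtain ⟨K, hK, N, hN, h8⟩ := extend e1 e2 e3 a b c β β' r Bmax Bmax' lo hi h1 h2 h3 hβ hr hlo hhi
    j t (mod_to_dvd h4) (three_dvd h5) (by exact_mod_cast h6) (by exact_mod_cast h7)
  exact good_core h (by omega) hK hN t h8

/-- **stable windows**, with an extra line of parameter `Q` (`m' = 3 Q + 1`, `P = Q + 3`) -/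
theorem stab_ofE {A B : Fin n → Fin n → ZMod 3} {k : Fin n → ℕ} {M : ℕ → ℕ}
    (h : CoreOK A B k M) {Q : ℕ} (hQ : Nm (3 * Q + 1)) (hQ11 : (Q + 3) % 11 ≠ 0)
    {s₀ : ℕ} (hs : 0 < s₀) (hM : ∀ i, s₀ ≤ i → M i = 1)
    (a b c β β' Bmax Bmax' : ℤ) (r lo hi : ℕ)
    (h1 : ∀ T, (32 : ℤ) ∣ T - c → a ≤ T → T ≤ b → 3 * T ∈ KInt (Hf A B k) M s₀)
    (h2 : ∀ ρ : ℤ, ∃ B', 3 * B' ∈ NInt (Hf A B k) M s₀ ∧ (16 : ℤ) ∣ B' - β ∧ 0 ≤ B' ∧ B' ≤ Bmax ∧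
      (81 : ℤ) ∣ 2 * B' - ρ)
    (h3 : ∀ ρ : ℤ, ¬ (3 : ℤ) ∣ ρ → ∀ e : ℤ, ∃ B', 9 * B' ∈ TIntE (Hf A B k) M Q s₀ ∧
      (16 : ℤ) ∣ B' - β' - 8 * e ∧ 0 ≤ B' ∧ B' ≤ Bmax' ∧ (3 * ((Q : ℤ) + 3)) ∣ 2 * B' - ρ)
    (hβ : (8 : ℤ) ∣ β - c) (hr : (16 : ℤ) ∣ 3 * ((Q : ℤ) + 3) * c + 2 * β' - r)
    (hlo : 3 * ((Q : ℤ) + 3) * (70 * a + 2 * Bmax) + 140 * Bmax' ≤ 70 * lo)
    (hhi : (hi : ℤ) ≤ 3 * ((Q : ℤ) + 3) * b) :
    Stab r lo hi := by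
  intro j t h4 h5 h6 h7
  have e1 : ∀ i, s₀ ≤ i → ∀ K ∈ KInt (Hf A B k) M i, ∀ N ∈ NInt (Hf A B k) M i,
      81 * K + 2 * N ∈ KInt (Hf A B k) M (i + 1) := by
    intro i hi K hK N hN
    refine ⟨K, hK, N, hN, ?_⟩
    rw [hM i hi]; push_cast; ring
  have e2 : ∀ i, s₀ ≤ i → ∀ z ∈ NInt (Hf A B k) M i, 11 * z ∈ NInt (Hf A B k) M (i + 1) := by
    intro i hi z hz
    have := NInt_ext (Hf A B k) M i hz
    rw [hM i hi] at this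
    norm_num at this
    exact this
  have e3 : ∀ i, s₀ ≤ i → ∀ z ∈ TIntE (Hf A B k) M Q i,
      11 * z ∈ TIntE (Hf A B k) M Q (i + 1) := by
    intro i hi z hz
    have := TIntE_ext (Hf A B k) M Q i hz
    rw [hM i hi] at this
    norm_num at this
    exact this
  have hQodd : Q % 2 = 0 := by
    have := hQ.1
    rw [Nat.odd_iff] at this
    omega
  have hc2 : IsCoprime ((Q : ℤ) + 3) 2 := by
    have h9 : Nat.Coprime (Q + 3) 2 := by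
      rw [Nat.coprime_two_right]
      exact Nat.odd_iff.2 (by omega)
    have := (Nat.isCoprime_iff_coprime (m := Q + 3) (n := 2)).2 h9
    exact_mod_cast this
  have hc11 : IsCoprime ((Q : ℤ) + 3) 11 := by
    have h9 : Nat.Coprime (Q + 3) 11 := by
      rw [Nat.coprime_comm, Nat.Prime.coprime_iff_not_dvd (by norm_num)]
      intro h10
      exact hQ11 (Nat.mod_eq_zero_of_dvd h10)
    have := (Nat.isCoprime_iff_coprime (m := Q + 3) (n := 11)).2 h9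
    exact_mod_cast this
  obtain ⟨K, hK, N, hN, h8⟩ := extendP e1 e2 e3 ((Q : ℤ) + 3) a b c β β' r Bmax Bmax' lo hi
    (by positivity) hc2 hc11 h1 h2 h3 hβ hr hlo hhi
    j t (mod_to_dvd h4) (three_dvd h5) (by exact_mod_cast h6) (by exact_mod_cast h7)
  exact good_coreE h hQ (by omega) hK hN t h8

end

end Pool.Agent.Lib.MP_cfac74_al.Cov
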