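import Pool.Agent.Lib.MP_cfac74_al.Cov.VBase

/-!
# MP_cfac74_al : block folds of packed vectors
-/

set_option autoImplicit false
set_option linter.unusedSectionVars false

namespace Pool.Agent.Lib.MP_cfac74_al.Cov

open Finset Pool.Agent.Lib.MP_cfac74_al.Dec Pool.Agent.Lib.MP_cfac74_al.Ch
open Pool.Agent.Lib.MP_cfac74_al.Tab (evT monz lane dsc Geo W W_eq W_pos lane_eq lane_lt La_lanes)

theorem land_mask40 (x : ℕ) : Nat.land x (nat_lit 1099511627775) = x % 1099511627776 := by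
  have h : Nat.land x (nat_lit 1099511627775) = x &&& (2 ^ 40 - 1) := by
    have e : (nat_lit 1099511627775) = 2 ^ 40 - 1 := by norm_num
    rw [e]; rfl
  rw [h, Nat.and_two_pow_sub_one_eq_mod]

theorem land_mask16 (x : ℕ) : Nat.land x (nat_lit 65535) = x % 65536 := by
  have h : Nat.land x (nat_lit 65535) = x &&& (2 ^ 16 - 1) := by
    have e : (nat_lit 65535) = 2 ^ 16 - 1 := by norm_num
    rw [e]; rfl
  rw [h, Nat.and_two_pow_sub_one_eq_mod]

/-- lane, kernel form -/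
noncomputable def lnL (X i : ℕ) : ℕ :=
  Nat.land (Nat.shiftRight X (Nat.mul (nat_lit 40) i)) (nat_lit 1099511627775)

theorem lnL_eq (X i : ℕ) : lnL X i = lane X i := land_mask40 _

/-- index -/
noncomputable def ix (x j : ℕ) : ℕ := Nat.land (Nat.shiftRight x j) (nat_lit 65535)

theorem ix_lt (x j : ℕ) : ix x j < 65536 := by
  have h : ix x j = Nat.land (Nat.shiftRight x j) (nat_lit 65535) := rfl
  rw [h, land_mask16]
  exact Nat.mod_lt _ (by norm_num)

/-- all lanes -/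
@[irreducible] noncomputable def allL (BV : ℕ) : List ℕ := (List.range 65536).map (lane BV)

theorem mem_allL {BV z : ℕ} : z ∈ allL BV ↔ ∃ t < 65536, lane BV t = z := by
  unfold allL
  rw [List.mem_map]
  constructor
  · rintro ⟨t, h, rfl⟩; exact ⟨t, List.mem_range.1 h, rfl⟩
  · rintro ⟨t, h, rfl⟩; exact ⟨t, List.mem_range.2 h, rfl⟩

/-- the bits of `acc` come from translates of `B`, relative to `y` -/
def PB (m BV B y acc : ℕ) : Prop := ∀ b, acc.testBit b = true →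
  ∃ z ∈ allL BV, y ≤ z ∧ ∃ j, B.testBit j = true ∧ b + m * y = j + m * z

theorem PB_zero (m BV B y : ℕ) : PB m BV B y 0 := by
  intro b h
  rw [Nat.zero_testBit] at h; exact Bool.noConfusion h

theorem PB_base {m BV B y : ℕ} (h : y ∈ allL BV) : PB m BV B y B :=
  fun b hb => ⟨y, h, le_rfl, b, hb, rfl⟩

theorem PB_step {m BV B y acc z : ℕ} (hy : y ∈ allL BV) (h : PB m BV B y acc) (hz : z ∈ allL BV) :
    PB m BV B y (Nat.lor acc (Nat.shiftLeft B (Nat.mul m (Nat.sub z y)))) := by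
  intro b hb
  have hb' : (acc ||| (B <<< (m * (z - y)))).testBit b = true := hb
  rw [Nat.testBit_or, Bool.or_eq_true, Nat.testBit_shiftLeft, Bool.and_eq_true,
    decide_eq_true_iff] at hb'
  rcases hb' with hb' | ⟨h1, h2⟩
  · exact h b hb'
  rcases Nat.lt_or_ge z y with h3 | h3
  · have e : z - y = 0 := by omega
    rw [e, mul_zero, Nat.sub_zero] at h2
    exact ⟨y, hy, le_rfl, b, h2, rfl⟩
  · refine ⟨z, hz, h3, _, h2, ?_⟩
    obtain ⟨w, rfl⟩ : ∃ w, z = y + w := ⟨z - y, by omega⟩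
    rw [Nat.add_sub_cancel_left] at h1 ⊢
    rw [Nat.mul_add]
    omega

theorem lnL_mem (BV x j : ℕ) : lnL BV (ix x j) ∈ allL BV :=
  mem_allL.2 ⟨ix x j, ix_lt x j, (lnL_eq _ _).symm⟩

theorem ix_zero (x : ℕ) : ix x 0 = Nat.land x (nat_lit 65535) := rfl

/-- eight lanes, relative to the first one -/
noncomputable def blk8 (m BV B x : ℕ) : ℕ :=
  (Nat.lor (Nat.lor (Nat.lor (Nat.lor (Nat.lor (Nat.lor (Nat.lor B
      (Nat.shiftLeft B (Nat.mul m (Nat.sub
        (Nat.land (Nat.shiftRight BV (Nat.mul (nat_lit 40) (Nat.land (Nat.shiftRight x (nat_lit 16)) (nat_lit 65535)))) (nat_lit 1099511627775))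
        (Nat.land (Nat.shiftRight BV (Nat.mul (nat_lit 40) (Nat.land x (nat_lit 65535)))) (nat_lit 1099511627775))))))
      (Nat.shiftLeft B (Nat.mul m (Nat.sub
        (Nat.land (Nat.shiftRight BV (Nat.mul (nat_lit 40) (Nat.land (Nat.shiftRight x (nat_lit 32)) (nat_lit 65535)))) (nat_lit 1099511627775))
        (Nat.land (Nat.shiftRight BV (Nat.mul (nat_lit 40) (Nat.land x (nat_lit 65535)))) (nat_lit 1099511627775))))))
      (Nat.shiftLeft B (Nat.mul m (Nat.sub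
        (Nat.land (Nat.shiftRight BV (Nat.mul (nat_lit 40) (Nat.land (Nat.shiftRight x (nat_lit 48)) (nat_lit 65535)))) (nat_lit 1099511627775))
        (Nat.land (Nat.shiftRight BV (Nat.mul (nat_lit 40) (Nat.land x (nat_lit 65535)))) (nat_lit 1099511627775))))))
      (Nat.shiftLeft B (Nat.mul m (Nat.sub
        (Nat.land (Nat.shiftRight BV (Nat.mul (nat_lit 40) (Nat.land (Nat.shiftRight x (nat_lit 64)) (nat_lit 65535)))) (nat_lit 1099511627775))
        (Nat.land (Nat.shiftRight BV (Nat.mul (nat_lit 40) (Nat.land x (nat_lit 65535)))) (nat_lit 1099511627775))))))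
      (Nat.shiftLeft B (Nat.mul m (Nat.sub
        (Nat.land (Nat.shiftRight BV (Nat.mul (nat_lit 40) (Nat.land (Nat.shiftRight x (nat_lit 80)) (nat_lit 65535)))) (nat_lit 1099511627775))
        (Nat.land (Nat.shiftRight BV (Nat.mul (nat_lit 40) (Nat.land x (nat_lit 65535)))) (nat_lit 1099511627775))))))
      (Nat.shiftLeft B (Nat.mul m (Nat.sub
        (Nat.land (Nat.shiftRight BV (Nat.mul (nat_lit 40) (Nat.land (Nat.shiftRight x (nat_lit 96)) (nat_lit 65535)))) (nat_lit 1099511627775))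
        (Nat.land (Nat.shiftRight BV (Nat.mul (nat_lit 40) (Nat.land x (nat_lit 65535)))) (nat_lit 1099511627775))))))
      (Nat.shiftLeft B (Nat.mul m (Nat.sub
        (Nat.land (Nat.shiftRight BV (Nat.mul (nat_lit 40) (Nat.land (Nat.shiftRight x (nat_lit 112)) (nat_lit 65535)))) (nat_lit 1099511627775))
        (Nat.land (Nat.shiftRight BV (Nat.mul (nat_lit 40) (Nat.land x (nat_lit 65535)))) (nat_lit 1099511627775))))))

theorem blk8_spec (m BV B x : ℕ) : PB m BV B (lnL BV (Nat.land x (nat_lit 65535))) (blk8 m BV B x) := by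
  have h0 : lnL BV (Nat.land x (nat_lit 65535)) ∈ allL BV := lnL_mem BV x 0
  have h1 := PB_base (m := m) (B := B) h0
  have h2 := PB_step h0 h1 (lnL_mem BV x 16)
  have h3 := PB_step h0 h2 (lnL_mem BV x 32)
  have h4 := PB_step h0 h3 (lnL_mem BV x 48)
  have h5 := PB_step h0 h4 (lnL_mem BV x 64)
  have h6 := PB_step h0 h5 (lnL_mem BV x 80)
  have h7 := PB_step h0 h6 (lnL_mem BV x 96)
  exact PB_step h0 h7 (lnL_mem BV x 112)

/-- union over `n` blocks of `8`, at most `2 ^ d` of them; relative to the first member -/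
noncomputable def trB (m BV B : ℕ) (d : ℕ) : ℕ → ℕ → (ℕ → ℕ → ℕ → ℕ → ℕ) → ℕ :=
  @Nat.rec (fun _ => ℕ → ℕ → (ℕ → ℕ → ℕ → ℕ → ℕ) → ℕ)
    (fun n x k => @Nat.rec (fun _ => ℕ) (k (nat_lit 0) (nat_lit 0) (nat_lit 0) x)
      (fun n' _ => k (Nat.land (Nat.shiftRight BV (Nat.mul (nat_lit 40)
        (Nat.land x (nat_lit 65535)))) (nat_lit 1099511627775)) (blk8 m BV B x) n'
        (Nat.shiftRight x (nat_lit 128))) n)
    (fun _ ih n x k => @Nat.rec (fun _ => ℕ) (k (nat_lit 0) (nat_lit 0) (nat_lit 0) x)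
      (fun _ _ => ih n x (fun y1 b1 n1 x1 => ih n1 x1 (fun y2 b2 n2 x2 =>
        k y1 (@Bool.rec (fun _ => ℕ) b1
          (Nat.lor b1 (Nat.shiftLeft b2 (Nat.mul m (Nat.sub y2 y1)))) (Nat.ble y1 y2)) n2 x2))) n) d

theorem trB_spec (m BV B d : ℕ) : ∀ (n x : ℕ) (k : ℕ → ℕ → ℕ → ℕ → ℕ),
    ∃ y b n' x', trB m BV B d n x k = k y b n' x' ∧ PB m BV B y b := by
  induction d with
  | zero =>
    intro n x k
    cases n with
    | zero => exact ⟨0, 0, 0, x, rfl, PB_zero _ _ _ _⟩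
    | succ n => exact ⟨_, _, n, x >>> 128, rfl, blk8_spec m BV B x⟩
  | succ d ih =>
    intro n x k
    cases n with
    | zero => exact ⟨0, 0, 0, x, rfl, PB_zero _ _ _ _⟩
    | succ n =>
      have e : trB m BV B (d + 1) (n + 1) x k = trB m BV B d (n + 1) x (fun y1 b1 n1 x1 =>
        trB m BV B d n1 x1 (fun y2 b2 n2 x2 => k y1 (@Bool.rec (fun _ => ℕ) b1
          (Nat.lor b1 (Nat.shiftLeft b2 (Nat.mul m (Nat.sub y2 y1)))) (Nat.ble y1 y2)) n2 x2)) := rfl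
      obtain ⟨y1, b1, n1, x1, h1, h2⟩ := ih (n + 1) x (fun y1 b1 n1 x1 =>
        trB m BV B d n1 x1 (fun y2 b2 n2 x2 => k y1 (@Bool.rec (fun _ => ℕ) b1
          (Nat.lor b1 (Nat.shiftLeft b2 (Nat.mul m (Nat.sub y2 y1)))) (Nat.ble y1 y2)) n2 x2))
      obtain ⟨y2, b2, n2, x2, h4, h5⟩ := ih n1 x1 (fun y2 b2 n2 x2 => k y1
        (@Bool.rec (fun _ => ℕ) b1
          (Nat.lor b1 (Nat.shiftLeft b2 (Nat.mul m (Nat.sub y2 y1)))) (Nat.ble y1 y2)) n2 x2)
      refine ⟨y1, _, n2, x2, by rw [e, h1, h4], fun b hb => ?_⟩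
      rcases hc : Nat.ble y1 y2 with _ | _
      · rw [hc] at hb
        exact h2 b hb
      · rw [hc] at hb
        have hb' : (b1 ||| (b2 <<< (m * (y2 - y1)))).testBit b = true := hb
        have hle : y1 ≤ y2 := Nat.le_of_ble_eq_true hc
        rw [Nat.testBit_or, Bool.or_eq_true, Nat.testBit_shiftLeft, Bool.and_eq_true,
          decide_eq_true_iff] at hb'
        rcases hb' with hb' | ⟨h7, h8⟩
        · exact h2 b hb'
        · obtain ⟨z, hz, hyz, j, hj, h9⟩ := h5 _ h8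
          refine ⟨z, hz, hle.trans hyz, j, hj, ?_⟩
          rw [← h9]
          obtain ⟨w, rfl⟩ : ∃ w, y2 = y1 + w := ⟨y2 - y1, by omega⟩
          rw [Nat.add_sub_cancel_left] at h7 ⊢
          rw [Nat.mul_add]
          omega

/-- union of the translates of `B` by `m (z - β)`, `z` a lane -/
noncomputable def trX (m β BV n X B : ℕ) : ℕ :=
  trB m BV B (nat_lit 9) n X (fun y x _ _ => @Bool.rec (fun _ => ℕ) (nat_lit 0)
    (Nat.shiftLeft x (Nat.mul m (Nat.sub y β))) (Nat.ble β y))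

theorem testBit_trX {m β BV n X B b : ℕ} (h : (trX m β BV n X B).testBit b = true) :
    ∃ y ∈ dn β (allL BV), ∃ j, B.testBit j = true ∧ b = j + m * y := by
  obtain ⟨y, x, n', x', h1, h2⟩ := trB_spec m BV B 9 n X
    (fun y x _ _ => @Bool.rec (fun _ => ℕ) (nat_lit 0)
      (Nat.shiftLeft x (Nat.mul m (Nat.sub y β))) (Nat.ble β y))
  have e : trX m β BV n X B = @Bool.rec (fun _ => ℕ) (nat_lit 0)
    (Nat.shiftLeft x (Nat.mul m (Nat.sub y β))) (Nat.ble β y) := h1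
  rw [e] at h
  rcases hc : Nat.ble β y with _ | _
  · rw [hc] at h
    have h' : (0 : ℕ).testBit b = true := h
    rw [Nat.zero_testBit] at h'
    exact Bool.noConfusion h'
  · rw [hc] at h
    have h' : (x <<< (m * (y - β))).testBit b = true := h
    have hle : β ≤ y := Nat.le_of_ble_eq_true hc
    rw [Nat.testBit_shiftLeft, Bool.and_eq_true, decide_eq_true_iff] at h'
    obtain ⟨z, hz, hyz, j, hj, h3⟩ := h2 _ h'.2
    refine ⟨z - β, mem_dn.2 ⟨z, hz, hle.trans hyz, rfl⟩, j, hj, ?_⟩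
    obtain ⟨u, rfl⟩ : ∃ u, y = β + u := ⟨y - β, by omega⟩
    obtain ⟨v, rfl⟩ : ∃ v, z = β + v := ⟨z - β, by omega⟩
    rw [Nat.add_sub_cancel_left] at h'
    rw [Nat.add_sub_cancel_left] at h3 ⊢
    rw [Nat.mul_add, Nat.mul_add] at h3
    omega

/-- iterated union, first member of the list first; entries `(m, β, BV, n, X)` -/
noncomputable def foldX (ms : List (ℕ × ℕ × ℕ × ℕ × ℕ)) : ℕ → ℕ :=
  @List.rec (ℕ × ℕ × ℕ × ℕ × ℕ) (fun _ => ℕ → ℕ) (fun B => B)
    (fun p _ ih B => force ih (force (fun bv => force (fun m =>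
      trX m p.2.1 bv p.2.2.2.1 p.2.2.2.2 B) p.1) p.2.2.1)) ms

/-- the represented lists -/
noncomputable def dnx (p : ℕ × ℕ × ℕ × ℕ × ℕ) : ℕ × List ℕ := (p.1, dn p.2.1 (allL p.2.2.1))

theorem testBit_foldX (ms : List (ℕ × ℕ × ℕ × ℕ × ℕ)) : ∀ B i,
    (foldX ms B).testBit i = true → ∃ j, InSum (ms.map dnx) j ∧
      ∃ x, B.testBit x = true ∧ i = x + j := by
  induction ms with
  | nil =>
    intro B i h
    exact ⟨0, rfl, i, h, rfl⟩
  | cons p ms ih =>
    intro B i h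
    have e : foldX (p :: ms) B = force (foldX ms) (force (fun bv => force (fun m =>
      trX m p.2.1 bv p.2.2.2.1 p.2.2.2.2 B) p.1) p.2.2.1) := rfl
    rw [e, force_eq, force_eq, force_eq] at h
    obtain ⟨j, h1, x, h2, h3⟩ := ih _ _ h
    obtain ⟨z, hz, x', h4, h5⟩ := testBit_trX h2
    exact ⟨j + p.1 * z, ⟨z, hz, j, h1, rfl⟩, x', h4, by omega⟩

/-- scaling of the multipliers -/
noncomputable def scaleX (q : ℕ) (ms : List (ℕ × ℕ × ℕ × ℕ × ℕ)) : List (ℕ × ℕ × ℕ × ℕ × ℕ) :=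
  @List.rec (ℕ × ℕ × ℕ × ℕ × ℕ) (fun _ => List (ℕ × ℕ × ℕ × ℕ × ℕ)) []
    (fun p _ ih => (Nat.mul q p.1, p.2) :: ih) ms

theorem scaleX_dnx (q : ℕ) (ms : List (ℕ × ℕ × ℕ × ℕ × ℕ)) :
    (scaleX q ms).map dnx = scaleM q (ms.map dnx) := by
  induction ms with
  | nil => rfl
  | cons p ms ih =>
    have e : scaleX q (p :: ms) = (q * p.1, p.2) :: scaleX q ms := rfl
    rw [e, List.map_cons, ih]
    rfl

/-- multipliers and vectors -/
noncomputable def msX (M : ℕ → ℕ) (yb : ℕ → ℕ × ℕ × ℕ × ℕ) (s : ℕ) :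
    List (ℕ × ℕ × ℕ × ℕ × ℕ) :=
  @Nat.rec (fun _ => List (ℕ × ℕ × ℕ × ℕ × ℕ)) []
    (fun i ih => (M i, yb i) :: scaleX (Nat.mul (nat_lit 9) (Nat.add (M i) (nat_lit 8))) ih) s

theorem msX_dnx (M : ℕ → ℕ) (yb : ℕ → ℕ × ℕ × ℕ × ℕ) (s : ℕ) :
    (msX M yb s).map dnx = msF M (fun i => dn (yb i).1 (allL (yb i).2.1)) s := by
  induction s with
  | zero => rfl
  | succ s ih =>
    have e : msX M yb (s + 1) = (M s, yb s) :: scaleX (9 * (M s + 8)) (msX M yb s) := rfl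
    have e' : msF M (fun i => dn (yb i).1 (allL (yb i).2.1)) (s + 1) =
      (M s, dn (yb s).1 (allL (yb s).2.1)) :: scaleM (9 * (M s + 8))
        (msF M (fun i => dn (yb i).1 (allL (yb i).2.1)) s) := rfl
    rw [e, e', List.map_cons, scaleX_dnx, ih]
    rfl

/-- offset, vector, number of blocks and indices of stage `i` -/
noncomputable def ybX (FLm on hm w OFF T₀ NP : ℕ) (M : ℕ → ℕ) (sv : ℕ → ℕ × ℕ × List ℕ × ℕ × ℕ)
    (i : ℕ) : ℕ × ℕ × ℕ × ℕ :=
  ((sv i).2.1, bvF FLm on hm w OFF (Nat.mul T₀ (PPn M i)) (sv i).1 (sv i).2.1 NP M i (sv i).2.2.1,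
    (sv i).2.2.2.1, (sv i).2.2.2.2)

section

variable {n : ℕ} {A B : Fin n → Fin n → ZMod 3} {k : Fin n → ℕ} {FL FE OFF TD NP NU : ℕ}

theorem nrep_all (hT : TabOK A B k FL FE OFF TD NP NU) (M : ℕ → ℕ) (hM : ∀ i, 1 ≤ M i)
    {w n₀ β i : ℕ} (hoff : OFF ≤ ln FL NP) (hw : ∀ q < NP, lane (flm FL NP) q < 2 ^ w)
    (tcs : List ℕ) (hβ : 0 < β) :
    NRep (Hf A B k) M i 2 (n₀ : ℕ) (dn β (allL (bvF (flm FL NP) (ones NP)
      ((W - 2 ^ 34) * ones NP) (2 ^ w) OFF (Nat.mul (Nat.sub (ln FL NP) OFF) (PPn M i)) n₀ β NP M i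
        tcs))) := by
  intro y hy
  obtain ⟨z, hz, h1, rfl⟩ := mem_dn.1 hy
  obtain ⟨j, _, rfl⟩ := mem_allL.1 hz
  have h2 := nint_lane hT M hM (n₀ := n₀) (β := β) (i := i) hoff hw tcs j _
    (show lane (bvF (flm FL NP) (ones NP) ((W - 2 ^ 34) * ones NP) (2 ^ w) OFF
      ((ln FL NP - OFF) * PPn M i) n₀ β NP M i tcs) j = _ - β + β from
      (Nat.sub_add_cancel h1).symm) hβ
  have e : ∀ z : ℤ, (n₀ : ℤ) + 24 * ((2 : ℕ) : ℤ) * z = (n₀ : ℤ) + 48 * z := by
    intro z; push_cast; ring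
  rw [e]; exact h2

theorem krepX (hT : TabOK A B k FL FE OFF TD NP NU) (M : ℕ → ℕ) (hM : ∀ i, 1 ≤ M i)
    {w : ℕ} (hoff : OFF ≤ ln FL NP) (hw : ∀ q < NP, lane (flm FL NP) q < 2 ^ w)
    (sv : ℕ → ℕ × ℕ × List ℕ × ℕ × ℕ) (s : ℕ) (hpos : posV sv s = true) :
    KRep (Hf A B k) M s 2 ((K0F M (Nat.sub (ln FL NP) OFF) (stV sv) s : ℕ) : ℤ)
      ((msX M (ybX (flm FL NP) (ones NP) ((W - 2 ^ 34) * ones NP) (2 ^ w) OFF
        (Nat.sub (ln FL NP) OFF) NP M sv) s).map dnx) := by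
  rw [msX_dnx]
  refine krep_gen M _ ?_ (stV sv) _ s fun i hi => ?_
  · change ((ln FL NP - OFF : ℕ) : ℤ) = _
    rw [Nat.cast_sub hoff, hT.zero]; ring
  · exact nrep_all hT M hM hoff hw _ (posV_spec hpos i hi)

end

/-- truncated bit set of a chain -/
noncomputable def YtX (need : ℕ) (ms : List (ℕ × ℕ × ℕ × ℕ × ℕ)) : ℕ :=
  Nat.mod (foldX ms (nat_lit 1)) (Nat.shiftLeft (nat_lit 1) need)

theorem hY_of_YtX {V : Type} [AddCommGroup V] [Module (ZMod 3) V]
    {H : (V →+ ZMod 3) → (V →+ ZMod 3) → ℤ} {M : ℕ → ℕ} {s need : ℕ} {c : ℤ}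
    {ms : List (ℕ × ℕ × ℕ × ℕ × ℕ)} (hK : KRep H M s 2 (3 * c) (ms.map dnx)) (i : ℕ)
    (hi : (YtX need ms).testBit i = true) : 3 * (c + 32 * (i : ℤ)) ∈ KInt H M s := by
  unfold YtX at hi
  rw [shl_one] at hi
  have h : (foldX ms 1 % 2 ^ need).testBit i = true := hi
  rw [Nat.testBit_mod_two_pow, Bool.and_eq_true] at h
  obtain ⟨j, h1, x, h2, h3⟩ := testBit_foldX _ _ _ h.2
  rw [Nat.testBit_one_eq_true_iff_self_eq_zero] at h2
  have h4 := hK j h1
  have e : 3 * (c + 32 * (i : ℤ)) = 3 * c + 48 * ((2 : ℕ) : ℤ) * j := by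
    rw [h3, h2]; push_cast; ring
  rw [e]; exact h4

/-! ### direct windows -/

section

variable {n : ℕ} {A B : Fin n → Fin n → ZMod 3} {k : Fin n → ℕ} {FL FE OFF TD NP NU : ℕ}

/-- classes of a direct window, no extra line -/
noncomputable def dcX (FL FE OFF TD NP NU : ℕ) (M : ℕ → ℕ) (s : ℕ)
    (sv : ℕ → ℕ × ℕ × List ℕ × ℕ × ℕ)
    (w c need : ℕ) (L : List ((ℕ × ℕ) × (ℕ × ℕ))) (ρ lo nn : ℕ) : Bool :=
  runV FL OFF NP w fun FLm on hm w2 =>
  bd (posV sv s)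
    (bd (Nat.beq (K0F M (Nat.sub (ln FL NP) OFF) (stV sv) s) (Nat.mul (nat_lit 3) c))
      (forceB (fun C => forceB (fun PPP => forceB (fun Y => forceB (fun mask =>
        chkF (gval FL FE OFF TD NP NU M s evN C PPP) Y (nat_lit 96) lo mask L ρ)
        (Nat.sub (Nat.shiftLeft (nat_lit 1) nn) (nat_lit 1)))
        (YtX need (msX M (ybX FLm on hm w2 OFF (Nat.sub (ln FL NP) OFF) NP M sv) s)))
        (PPn M s)) (Nat.mul (nat_lit 27) c)))

theorem dcX_spec {M : ℕ → ℕ} (h : CoreOK A B k M) (hT : TabOK A B k FL FE OFF TD NP NU)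
    {s : ℕ} (hs : 0 < s) {sv : ℕ → ℕ × ℕ × List ℕ × ℕ × ℕ} {w c need : ℕ}
    {L : List ((ℕ × ℕ) × (ℕ × ℕ))} {ρ lo nn : ℕ}
    (hc : dcX FL FE OFF TD NP NU M s sv w c need L ρ lo nn = true) : CLs 96 lo nn ρ L.length := by
  obtain ⟨h1, h2, hc⟩ := runV_spec hc
  obtain ⟨h3, hc⟩ := bd_true hc
  obtain ⟨h4, hc⟩ := bd_true hc
  rw [forceB_eq, forceB_eq, forceB_eq, forceB_eq, mask_eq] at hc
  have hM : ∀ i, 1 ≤ M i := fun i => (h.hM i).pos
  have hK := krepX hT M hM h1 h2 sv s h3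
  have h5 : K0F M (Nat.sub (ln FL NP) OFF) (stV sv) s = 3 * c := Nat.eq_of_beq_eq_true h4
  rw [h5] at hK
  push_cast at hK
  have hY := hY_of_YtX (need := need) hK
  refine chkF_spec (by norm_num) ?_ L ρ hc
  intro a u hu hu0 i hi
  have hg : 0 < gval FL FE OFF TD NP NU M s evN (Nat.mul (nat_lit 27) c) (PPn M s) a := by
    rw [hu]; omega
  obtain ⟨N', hN', h6⟩ := gval_specN hT M hM s (Nat.mul (nat_lit 27) c) a hg
  rw [hu] at h6
  refine good_core h hs (hY i hi) hN' _ ?_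
  have h7 : ((9 * u : ℕ) : ℤ) = ((27 * c : ℕ) : ℤ) + 2 * N' := h6
  push_cast at h7 ⊢
  linarith

end

section

variable {n : ℕ} {A B : Fin n → Fin n → ZMod 3} {pts TL TE : List ℕ} {D NP NU : ℕ}

/-- classes of a direct window, no extra line -/
noncomputable def cX (TL TE : List ℕ) (D NP NU : ℕ) (kl Ml : List ℕ) (s : ℕ)
    (st : List (ℕ × ℕ × List ℕ × ℕ × ℕ)) (w c need : ℕ) (L : List ((ℕ × ℕ) × (ℕ × ℕ)))
    (ρ lo nn len : ℕ) : Bool :=
  bd (Nat.beq len (lenC L)) (bd (Nat.ble (nat_lit 1) s) (bd (coreC kl Ml)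
  (runC TL TE kl fun FL FE OF => dcX FL FE OF D NP NU (seqM Ml) s (seqT st) w c need L ρ lo nn)))

theorem cX_spec (hA : ∀ i j, A i j = - A j i) (hB : ∀ i j, B i j = - B j i)
    (G : Geo A B pts TL TE D NP NU) {kl Ml : List ℕ} {s : ℕ}
    {st : List (ℕ × ℕ × List ℕ × ℕ × ℕ)} {w c need : ℕ} {L : List ((ℕ × ℕ) × (ℕ × ℕ))}
    {ρ lo nn len : ℕ} (h : cX TL TE D NP NU kl Ml s st w c need L ρ lo nn len = true) :
    CLs 96 lo nn ρ len := by
  obtain ⟨h1, h⟩ := bd_true h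
  obtain ⟨h2, h⟩ := bd_true h
  obtain ⟨h5, h⟩ := bd_true h
  rw [runC_eq] at h
  have h6 := dcX_spec (core_of_check h5 hA hB) (tab_of_geo G h5) (Nat.le_of_ble_eq_true h2) h
  rw [Nat.eq_of_beq_eq_true h1, lenC_eq]
  exact h6

end

/-! ### base windows -/

/-- one translate: `g = m z` with quotient `≥ e` and residue `σ` -/
noncomputable def oneT (Y lo e q σ g : ℕ) : ℕ :=
  @Bool.rec (fun _ => ℕ) (nat_lit 0)
    (@Bool.rec (fun _ => ℕ)
      (@Bool.rec (fun _ => ℕ) (nat_lit 0) (Nat.shiftRight Y (Nat.sub lo (Nat.div g q)))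
        (Nat.ble e (Nat.div g q)))
      (Nat.shiftLeft Y (Nat.sub (Nat.div g q) lo)) (Nat.ble lo (Nat.div g q)))
    (Nat.beq (Nat.mod g q) σ)

theorem testBit_oneT {Y lo e q σ g i : ℕ} (he : e ≤ lo)
    (h : (oneT Y lo e q σ g).testBit i = true) :
    g % q = σ ∧ e ≤ g / q ∧ ∃ j, Y.testBit j = true ∧ i + lo = j + g / q := by
  unfold oneT at h
  rcases h1 : Nat.beq (Nat.mod g q) σ with _ | _
  · rw [h1] at h
    have h' : (0 : ℕ).testBit i = true := h
    rw [Nat.zero_testBit] at h'; exact Bool.noConfusion h'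
  rw [h1] at h
  refine ⟨Nat.eq_of_beq_eq_true h1, ?_⟩
  rcases h2 : Nat.ble lo (Nat.div g q) with _ | _
  · rw [h2] at h
    have h2' : ¬ lo ≤ g / q := fun h' => by
      rw [show Nat.ble lo (Nat.div g q) = true from Nat.ble_eq_true_of_le h'] at h2
      exact Bool.noConfusion h2
    rcases h3 : Nat.ble e (Nat.div g q) with _ | _
    · rw [h3] at h
      have h' : (0 : ℕ).testBit i = true := h
      rw [Nat.zero_testBit] at h'; exact Bool.noConfusion h'
    rw [h3] at h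
    have h' : (Y >>> (lo - g / q)).testBit i = true := h
    rw [Nat.testBit_shiftRight] at h'
    exact ⟨Nat.le_of_ble_eq_true h3, _, h', by omega⟩
  · rw [h2] at h
    have h2' : lo ≤ g / q := Nat.le_of_ble_eq_true h2
    have h' : (Y <<< (g / q - lo)).testBit i = true := h
    rw [Nat.testBit_shiftLeft, Bool.and_eq_true, decide_eq_true_iff] at h'
    exact ⟨he.trans h2', _, h'.2, by omega⟩

/-- what a bit set of a class means -/
def PO (m BV Y lo e q σ acc : ℕ) : Prop := ∀ i, acc.testBit i = true →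
  ∃ t, (m * lane BV t) % q = σ ∧ e ≤ (m * lane BV t) / q ∧
      ∃ j, Y.testBit j = true ∧ i + lo = j + (m * lane BV t) / q

theorem PO_zero (m BV Y lo e q σ : ℕ) : PO m BV Y lo e q σ 0 := by
  intro b h
  rw [Nat.zero_testBit] at h; exact Bool.noConfusion h

theorem PO_step {m BV Y lo e q σ acc i : ℕ} (he : e ≤ lo) (h : PO m BV Y lo e q σ acc) :
    PO m BV Y lo e q σ (Nat.lor acc (oneT Y lo e q σ (Nat.mul m (lnL BV i)))) := by
  intro b hb
  have hb' : (acc ||| oneT Y lo e q σ (m * lnL BV i)).testBit b = true := hb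
  rw [Nat.testBit_or, Bool.or_eq_true] at hb'
  rcases hb' with hb' | hb'
  · exact h b hb'
  · rw [lnL_eq] at hb'
    obtain ⟨h1, h2, h3⟩ := testBit_oneT he hb'
    exact ⟨i, h1, h2, h3⟩

/-- union over the codes of a class, four by four -/
noncomputable def or4 (m BV Y lo e q σ : ℕ) (n : ℕ) : ℕ → (ℕ → ℕ) → ℕ :=
  @Nat.rec (fun _ => ℕ → (ℕ → ℕ) → ℕ) (fun x k => k x)
    (fun _ ih x k => Nat.lor (Nat.lor (Nat.lor (Nat.lor (ih (Nat.shiftRight x (nat_lit 64)) k)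
      (oneT Y lo e q σ
        (Nat.mul m (Nat.land (Nat.shiftRight BV (Nat.mul (nat_lit 40) (Nat.land x (nat_lit 65535)))) (nat_lit 1099511627775)))))
      (oneT Y lo e q σ
        (Nat.mul m (Nat.land (Nat.shiftRight BV (Nat.mul (nat_lit 40) (Nat.land (Nat.shiftRight x (nat_lit 16)) (nat_lit 65535)))) (nat_lit 1099511627775)))))
      (oneT Y lo e q σ
        (Nat.mul m (Nat.land (Nat.shiftRight BV (Nat.mul (nat_lit 40) (Nat.land (Nat.shiftRight x (nat_lit 32)) (nat_lit 65535)))) (nat_lit 1099511627775)))))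
      (oneT Y lo e q σ
        (Nat.mul m (Nat.land (Nat.shiftRight BV (Nat.mul (nat_lit 40) (Nat.land (Nat.shiftRight x (nat_lit 48)) (nat_lit 65535)))) (nat_lit 1099511627775))))) n

/-- union over the codes of a class, one by one -/
noncomputable def or1 (m BV Y lo e q σ : ℕ) (n : ℕ) : ℕ → ℕ :=
  @Nat.rec (fun _ => ℕ → ℕ) (fun _ => nat_lit 0)
    (fun _ ih x => Nat.lor (ih (Nat.shiftRight x (nat_lit 16)))
      (oneT Y lo e q σ
        (Nat.mul m (Nat.land (Nat.shiftRight BV (Nat.mul (nat_lit 40) (Nat.land x (nat_lit 65535)))) (nat_lit 1099511627775))))) n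

theorem or1_spec (m BV Y lo e q σ : ℕ) (he : e ≤ lo) (n : ℕ) : ∀ x,
    PO m BV Y lo e q σ (or1 m BV Y lo e q σ n x) := by
  induction n with
  | zero => intro x; exact PO_zero _ _ _ _ _ _ _
  | succ n ih =>
    intro x
    exact PO_step he (ih (Nat.shiftRight x (nat_lit 16)))

theorem or4_spec (m BV Y lo e q σ : ℕ) (he : e ≤ lo) (k : ℕ → ℕ)
    (hk : ∀ x, PO m BV Y lo e q σ (k x)) (n : ℕ) : ∀ x,
    PO m BV Y lo e q σ (or4 m BV Y lo e q σ n x k) := by
  induction n with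
  | zero => intro x; exact hk x
  | succ n ih =>
    intro x
    exact PO_step he (PO_step he (PO_step he (PO_step he (ih (Nat.shiftRight x (nat_lit 64))))))

/-- union over the `n` codes of a class -/
noncomputable def orX (m BV Y lo e q σ n x : ℕ) : ℕ :=
  or4 m BV Y lo e q σ (Nat.shiftRight n (nat_lit 2)) x
    (or1 m BV Y lo e q σ (Nat.land n (nat_lit 3)))

theorem orX_spec {m BV Y lo e q σ : ℕ} (he : e ≤ lo) (n x : ℕ) :
    PO m BV Y lo e q σ (orX m BV Y lo e q σ n x) :=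
  or4_spec m BV Y lo e q σ he _ (or1_spec m BV Y lo e q σ he _) _ x

/-- check of `nc` consecutive residue classes; `LN` the lengths, `X` the indices -/
noncomputable def lvX (m BV Y q lo e mask : ℕ) (nc : ℕ) : ℕ → ℕ → ℕ → Bool :=
  @Nat.rec (fun _ => ℕ → ℕ → ℕ → Bool) (fun _ _ _ => true)
    (fun _ ih LN X σ => bd (Nat.beq (Nat.land
      (orX m BV Y lo e q σ (Nat.land LN (nat_lit 65535)) X) mask) mask)
      (ih (Nat.shiftRight LN (nat_lit 16))
        (Nat.shiftRight X (Nat.mul (nat_lit 16) (Nat.land LN (nat_lit 65535)))) (Nat.succ σ))) nc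

section

variable {n : ℕ}

theorem lvX1_spec {A B : Fin n → Fin n → ZMod 3} {k : Fin n → ℕ} {M : ℕ → ℕ} {s Y BV b : ℕ}
    {c β c' : ℕ}
    (hY : ∀ i, Y.testBit i = true → 3 * ((c : ℤ) + 32 * (i : ℤ)) ∈ KInt (Hf A B k) M s)
    {q lo nn σ : ℕ} (hm : 0 < M s)
    (hL : ∀ t y, lane BV t = y + q * b → 3 * ((β : ℤ) + 16 * (y : ℤ)) ∈ NInt (Hf A B k) M s)
    (hq : q = 9 * (M s + 8)) (hc' : c' = q * c + 2 * M s * β) {acc : ℕ}
    (hP : PO (M s) BV Y (lo + M s * b) (M s * b) q σ acc)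
    (h : Nat.land acc (2 ^ nn - 1) = 2 ^ nn - 1) :
    LV A B k M (s + 1) c' q lo nn σ := by
  intro x h1 h2 h3
  have hq0 : 0 < q := by omega
  have h7 := Nat.div_add_mod x q
  rw [h1] at h7
  have h11 : lo ≤ x / q := by
    rw [Nat.le_div_iff_mul_le hq0, mul_comm]; exact h2
  have h12 : x / q < lo + nn := by
    rw [Nat.div_lt_iff_lt_mul hq0, mul_comm]; exact h3
  have h13 := testBit_of_land_mask h (show x / q - lo < nn by omega)
  obtain ⟨t, h15, h16, j, h17, h18⟩ := hP _ h13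
  have h19 : q * (M s * b) ≤ M s * lane BV t := by
    have := (Nat.le_div_iff_mul_le hq0).1 h16
    rw [mul_comm q]; exact this
  have h20 : q * b ≤ lane BV t := by
    have e : q * (M s * b) = M s * (q * b) := by ring
    rw [e] at h19
    exact Nat.le_of_mul_le_mul_left h19 hm
  obtain ⟨y, hy⟩ : ∃ y, lane BV t = y + q * b := ⟨lane BV t - q * b, by omega⟩
  have e3 : M s * lane BV t = M s * y + q * (M s * b) := by rw [hy]; ring
  rw [e3, Nat.add_mul_mod_self_left] at h15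
  rw [e3, Nat.add_mul_div_left _ _ hq0] at h18
  have h21 := Nat.div_add_mod (M s * y) q
  rw [h15] at h21
  obtain ⟨d, hd⟩ : ∃ d, d = (M s * y) / q := ⟨_, rfl⟩
  rw [← hd] at h18 h21
  obtain ⟨z, hz⟩ : ∃ z, z = M s * b := ⟨_, rfl⟩
  rw [← hz] at h18
  have e2 : x / q = j + d := by omega
  have e1 : x = q * j + M s * y := by
    rw [e2, Nat.mul_add] at h7
    omega
  refine ⟨_, hY j h17, _, hL t y hy, ?_⟩
  rw [e1, hc', hq]
  push_cast
  ring

theorem lvX_spec {A B : Fin n → Fin n → ZMod 3} {k : Fin n → ℕ} {M : ℕ → ℕ} {s Y BV b : ℕ}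
    {c β c' : ℕ}
    (hY : ∀ i, Y.testBit i = true → 3 * ((c : ℤ) + 32 * (i : ℤ)) ∈ KInt (Hf A B k) M s)
    {q lo nn : ℕ} (hm : 0 < M s)
    (hL : ∀ t y, lane BV t = y + q * b → 3 * ((β : ℤ) + 16 * (y : ℤ)) ∈ NInt (Hf A B k) M s)
    (hq : q = 9 * (M s + 8)) (hc' : c' = q * c + 2 * M s * β)
    (nc : ℕ) : ∀ LN X σ,
      lvX (M s) BV Y q (lo + M s * b) (M s * b) (2 ^ nn - 1) nc LN X σ = true →
      LVs A B k M (s + 1) c' q lo nn σ nc := by
  induction nc with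
  | zero => intro LN X σ _ κ hκ; exact absurd hκ (Nat.not_lt_zero _)
  | succ nc ih =>
    intro LN X σ h κ hκ
    obtain ⟨h1, h2⟩ := bd_true (a := Nat.beq (Nat.land
        (orX (M s) BV Y (lo + M s * b) (M s * b) q σ (Nat.land LN (nat_lit 65535)) X)
          (2 ^ nn - 1)) (2 ^ nn - 1))
      (b := lvX (M s) BV Y q (lo + M s * b) (M s * b) (2 ^ nn - 1) nc
        (Nat.shiftRight LN (nat_lit 16))
        (Nat.shiftRight X (Nat.mul (nat_lit 16) (Nat.land LN (nat_lit 65535)))) (σ + 1)) h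
    cases κ with
    | zero =>
      rw [Nat.add_zero]
      exact lvX1_spec hY hm hL hq hc' (orX_spec (by omega) _ _) (Nat.eq_of_beq_eq_true h1)
    | succ κ =>
      have h3 := ih _ _ (σ + 1) h2 κ (by omega)
      have e : σ + (κ + 1) = σ + 1 + κ := by ring
      rw [e]; exact h3

end

section

variable {n : ℕ} {A B : Fin n → Fin n → ZMod 3} {pts TL TE : List ℕ} {D NP NU : ℕ}

/-- residue classes of a base window: stages `0..s-1` folded, stage `s` by residues -/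
noncomputable def bX (TL TE : List ℕ) (NP : ℕ) (kl Ml : List ℕ) (s : ℕ)
    (st : List (ℕ × ℕ × List ℕ × ℕ × ℕ)) (w c need q lo nn β b : ℕ) (tcs : List ℕ)
    (LN X σ len c' : ℕ) : Bool :=
  bd (Nat.ble (nat_lit 1) b) (bd (coreC kl Ml)
  (forceB (fun m =>
    bd (Nat.beq q (Nat.mul (nat_lit 9) (Nat.add m (nat_lit 8))))
    (bd (Nat.beq c' (Nat.add (Nat.mul q c) (Nat.mul (Nat.mul (nat_lit 2) m) β)))
    (runC TL TE kl fun FL _ OF =>
      runV FL OF NP w fun FLm on hm w2 =>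
      bd (posV (seqT st) s)
      (bd (Nat.beq (K0F (seqM Ml) (Nat.sub (ln FL NP) OF) (stV (seqT st)) s)
        (Nat.mul (nat_lit 3) c))
      (forceB (fun Y => forceB (fun mask => forceB (fun BV => forceB (fun e =>
        lvX m BV Y q (Nat.add lo e) e mask len LN X σ)
        (Nat.mul m b))
        (bvF FLm on hm w2 OF (Nat.mul (Nat.sub (ln FL NP) OF) (PPn (seqM Ml) s))
          (Nat.mul (nat_lit 3) β) (Nat.mul q b) NP (seqM Ml) s tcs))
        (Nat.sub (Nat.shiftLeft (nat_lit 1) nn) (nat_lit 1)))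
        (YtX need (msX (seqM Ml) (ybX FLm on hm w2 OF (Nat.sub (ln FL NP) OF) NP (seqM Ml)
          (seqT st)) s)))))))
    (seqM Ml s)))

theorem bX_spec (hA : ∀ i j, A i j = - A j i) (hB : ∀ i j, B i j = - B j i)
    (G : Geo A B pts TL TE D NP NU) {kl Ml : List ℕ} {s : ℕ}
    {st : List (ℕ × ℕ × List ℕ × ℕ × ℕ)} {w c need q lo nn β b : ℕ} {tcs : List ℕ}
    {LN X σ len c' : ℕ}
    (h : bX TL TE NP kl Ml s st w c need q lo nn β b tcs LN X σ len c' = true) :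
    LVs A B (kf (seqZ kl)) (seqM Ml) (s + 1) c' q lo nn σ len := by
  obtain ⟨h2, h⟩ := bd_true h
  obtain ⟨h3, h⟩ := bd_true h
  rw [forceB_eq] at h
  obtain ⟨h4, h⟩ := bd_true h
  obtain ⟨h5, h⟩ := bd_true h
  rw [runC_eq] at h
  obtain ⟨g1, g2, h⟩ := runV_spec h
  obtain ⟨h7, h⟩ := bd_true h
  obtain ⟨h8, h⟩ := bd_true h
  rw [forceB_eq, forceB_eq, forceB_eq, forceB_eq, mask_eq] at h
  have hC := core_of_check (A := A) (B := B) h3 hA hB
  have hT := tab_of_geo G h3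
  have hM : ∀ i, 1 ≤ seqM Ml i := fun i => (hC.hM i).pos
  have hb : 0 < b := Nat.le_of_ble_eq_true h2
  have hq : q = 9 * (seqM Ml s + 8) := Nat.eq_of_beq_eq_true h4
  have hK := krepX hT (seqM Ml) hM g1 g2 (seqT st) s h7
  have e4 : K0F (seqM Ml) (Nat.sub (ln (evT TL (monz (seqZ kl) 5)) NP) (16384 * prodK kl))
    (stV (seqT st)) s = 3 * c := Nat.eq_of_beq_eq_true h8
  rw [e4] at hK
  push_cast at hK
  have hY := hY_of_YtX (need := need) hK
  refine lvX_spec (b := b) (β := β) hY (hM s) ?_ hq (Nat.eq_of_beq_eq_true h5) len LN X σ h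
  intro t y hy
  have h9 := nint_lane hT (seqM Ml) hM (n₀ := 3 * β) (β := q * b) (i := s) g1 g2 tcs t y hy
    (Nat.mul_pos (by omega) hb)
  have e : ((3 * β : ℕ) : ℤ) + 48 * (y : ℤ) = 3 * ((β : ℤ) + 16 * (y : ℤ)) := by
    push_cast; ring
  rw [e] at h9; exact h9

end

end Pool.Agent.Lib.MP_cfac74_al.Cov
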