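import Pool.Agent.Lib.MP_cfac74_al.Cov.Vec

/-!
# MP_cfac74_al : base windows of the stable windows, vector version
-/

set_option autoImplicit false
set_option linter.unusedSectionVars false

namespace Pool.Agent.Lib.MP_cfac74_al.Cov

open Finset Pool.Agent.Lib.MP_cfac74_al.Dec Pool.Agent.Lib.MP_cfac74_al.Ch
open Pool.Agent.Lib.MP_cfac74_al.Tab (evT monz lane dsc Geo W W_eq W_pos lane_eq lane_lt La_lanes)

/-- union over the choices (indices packed with width `16`), relative to `lo` -/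
noncomputable def orV (m BV Y lo e q σ : ℕ) (len : ℕ) : ℕ → ℕ :=
  @Nat.rec (fun _ => ℕ → ℕ) (fun _ => nat_lit 0)
    (fun _ ih x => force (fun g =>
      @Bool.rec (fun _ => ℕ) (ih (Nat.div x (nat_lit 65536)))
        (@Bool.rec (fun _ => ℕ) (ih (Nat.div x (nat_lit 65536)))
          (Nat.lor (ih (Nat.div x (nat_lit 65536))) (relS Y lo (Nat.div g q)))
          (Nat.ble e (Nat.div g q)))
        (Nat.beq (Nat.mod g q) σ)) (Nat.mul m (lnV BV (Nat.mod x (nat_lit 65536))))) len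

theorem testBit_orV (m BV Y lo e q σ : ℕ) (len : ℕ) : ∀ (x i : ℕ),
    (orV m BV Y lo e q σ len x).testBit i = true →
    ∃ t, (m * lane BV t) % q = σ ∧ e ≤ (m * lane BV t) / q ∧
      ∃ j, Y.testBit j = true ∧ i + lo = j + (m * lane BV t) / q := by
  induction len with
  | zero =>
    intro x i h
    have h0 : orV m BV Y lo e q σ 0 x = 0 := rfl
    rw [h0, Nat.zero_testBit] at h
    exact Bool.noConfusion h
  | succ len ih =>
    intro x i h
    have e1 : orV m BV Y lo e q σ (len + 1) x = force (fun g =>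
      @Bool.rec (fun _ => ℕ) (orV m BV Y lo e q σ len (Nat.div x (nat_lit 65536)))
        (@Bool.rec (fun _ => ℕ) (orV m BV Y lo e q σ len (Nat.div x (nat_lit 65536)))
          (Nat.lor (orV m BV Y lo e q σ len (Nat.div x (nat_lit 65536))) (relS Y lo (Nat.div g q)))
          (Nat.ble e (Nat.div g q)))
        (Nat.beq (Nat.mod g q) σ)) (Nat.mul m (lnV BV (Nat.mod x (nat_lit 65536)))) := rfl
    rw [e1, force_eq] at h
    set t : ℕ := Nat.mod x (nat_lit 65536) with ht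
    have e2 : Nat.mul m (lnV BV t) = m * lane BV t := rfl
    rw [e2] at h
    rcases hb : Nat.beq (Nat.mod (m * lane BV t) q) σ with _ | _
    · rw [hb] at h
      exact ih _ _ h
    rw [hb] at h
    rcases hb2 : Nat.ble e (Nat.div (m * lane BV t) q) with _ | _
    · rw [hb2] at h
      exact ih _ _ h
    rw [hb2] at h
    have h' : ((orV m BV Y lo e q σ len (Nat.div x (nat_lit 65536))) |||
      (relS Y lo ((m * lane BV t) / q))).testBit i = true := h
    rw [Nat.testBit_or, Bool.or_eq_true] at h'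
    rcases h' with h' | h'
    · exact ih _ _ h'
    · have h3 := testBit_orRel (fun a => a) Y lo q σ [m * lane BV t] i (by
        have e3 : orRel (fun a => a) Y lo q σ [m * lane BV t] =
          @Bool.rec (fun _ => ℕ) (nat_lit 0)
            (Nat.lor (nat_lit 0) (relS Y lo (Nat.div (m * lane BV t) q)))
            (Nat.beq (Nat.mod (m * lane BV t) q) σ) := rfl
        rw [e3, hb]
        change (0 ||| relS Y lo ((m * lane BV t) / q)).testBit i = true
        rw [Nat.zero_or]; exact h')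
      obtain ⟨a, ha, h4, h5⟩ := h3
      rw [List.mem_singleton] at ha
      subst ha
      exact ⟨t, h4, Nat.le_of_ble_eq_true hb2, h5⟩

/-- check of consecutive residue classes -/
noncomputable def lvV (m BV Y q lo e mask : ℕ) (L : List (ℕ × ℕ)) : ℕ → Bool :=
  @List.rec (ℕ × ℕ) (fun _ => ℕ → Bool) (fun _ => true)
    (fun p _ ih σ => bd (Nat.beq (Nat.land (orV m BV Y lo e q σ p.1 p.2) mask) mask)
      (ih (Nat.succ σ))) L

section

variable {n : ℕ}

theorem lvV1_spec {A B : Fin n → Fin n → ZMod 3} {k : Fin n → ℕ} {M : ℕ → ℕ} {s Y BV b : ℕ}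
    {c β c' : ℕ}
    (hY : ∀ i, Y.testBit i = true → 3 * ((c : ℤ) + 32 * (i : ℤ)) ∈ KInt (Hf A B k) M s)
    {q lo nn σ : ℕ} (hm : 0 < M s)
    (hL : ∀ t y, lane BV t = y + q * b → 3 * ((β : ℤ) + 16 * (y : ℤ)) ∈ NInt (Hf A B k) M s)
    (hq : q = 9 * (M s + 8)) (hc' : c' = q * c + 2 * M s * β) {len X : ℕ}
    (h : Nat.land (orV (M s) BV Y (lo + M s * b) (M s * b) q σ len X) (2 ^ nn - 1) = 2 ^ nn - 1) :
    LV A B k M (s + 1) c' q lo nn σ := by
  intro x h1 h2 h3
  have hq0 : 0 < q := by omega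
  have h7 := Nat.div_add_mod x q
  rw [h1] at h7
  have h11 : lo ≤ x / q := by
    rw [Nat.le_div_iff_mul_le hq0, mul_comm]; exact h2
  have h12 : x / q < lo + nn := by
    rw [Nat.div_lt_iff_lt_mul hq0, mul_comm]; exact h3
  have h13 := testBit_of_land_mask h (show x / q - lo < nn by omega)
  obtain ⟨t, h15, h16, j, h17, h18⟩ := testBit_orV _ _ _ _ _ _ _ _ _ _ h13
  have h19 : q * (M s * b) ≤ M s * lane BV t := by
    have := (Nat.le_div_iff_mul_le hq0).1 h16
    rw [mul_comm q]; exact this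
  have h20 : q * b ≤ lane BV t := by
    have e : q * (M s * b) = M s * (q * b) := by ring
    rw [e] at h19
    exact Nat.le_of_mul_le_mul_left h19 hm
  obtain ⟨y, hy⟩ : ∃ y, lane BV t = y + q * b := ⟨lane BV t - q * b, by omega⟩
  have e3 : M s * lane BV t = M s * y + q * (M s * b) := by rw [hy]; ring
  rw [e3, Nat.add_mul_mod_self_left] at h15
  rw [e3, Nat.add_mul_div_left _ _ hq0] at h18
  have h21 := Nat.div_add_mod (M s * y) q
  rw [h15] at h21
  obtain ⟨d, hd⟩ : ∃ d, d = (M s * y) / q := ⟨_, rfl⟩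
  rw [← hd] at h18 h21
  obtain ⟨z, hz⟩ : ∃ z, z = M s * b := ⟨_, rfl⟩
  rw [← hz] at h18
  have e2 : x / q = j + d := by omega
  have e1 : x = q * j + M s * y := by
    rw [e2, Nat.mul_add] at h7
    omega
  refine ⟨_, hY j h17, _, hL t y hy, ?_⟩
  rw [e1, hc', hq]
  push_cast
  ring

theorem lvV_spec {A B : Fin n → Fin n → ZMod 3} {k : Fin n → ℕ} {M : ℕ → ℕ} {s Y BV b : ℕ}
    {c β c' : ℕ}
    (hY : ∀ i, Y.testBit i = true → 3 * ((c : ℤ) + 32 * (i : ℤ)) ∈ KInt (Hf A B k) M s)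
    {q lo nn : ℕ} (hm : 0 < M s)
    (hL : ∀ t y, lane BV t = y + q * b → 3 * ((β : ℤ) + 16 * (y : ℤ)) ∈ NInt (Hf A B k) M s)
    (hq : q = 9 * (M s + 8)) (hc' : c' = q * c + 2 * M s * β)
    (L : List (ℕ × ℕ)) : ∀ σ,
      lvV (M s) BV Y q (lo + M s * b) (M s * b) (2 ^ nn - 1) L σ = true →
      LVs A B k M (s + 1) c' q lo nn σ L.length := by
  induction L with
  | nil => intro σ _ κ hκ; exact absurd hκ (by simp)
  | cons p L ih =>
    intro σ h κ hκ
    obtain ⟨h1, h2⟩ := bd_true (a := Nat.beq (Nat.land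
        (orV (M s) BV Y (lo + M s * b) (M s * b) q σ p.1 p.2) (2 ^ nn - 1)) (2 ^ nn - 1))
      (b := lvV (M s) BV Y q (lo + M s * b) (M s * b) (2 ^ nn - 1) L (σ + 1)) h
    cases κ with
    | zero =>
      rw [Nat.add_zero]
      exact lvV1_spec hY hm hL hq hc' (Nat.eq_of_beq_eq_true h1)
    | succ κ =>
      have h3 := ih (σ + 1) h2 κ (by simpa using hκ)
      have e : σ + (κ + 1) = σ + 1 + κ := by ring
      rw [e]; exact h3

end

section

variable {n : ℕ} {A B : Fin n → Fin n → ZMod 3} {pts TL TE : List ℕ} {D NP NU : ℕ}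

/-- residue classes of a base window: stages `0..s-1` folded, stage `s` by residues -/
noncomputable def bV (TL TE : List ℕ) (NP : ℕ) (kl Ml : List ℕ) (s : ℕ)
    (st : List (ℕ × ℕ × List ℕ × ℕ × ℕ)) (w c need q lo nn β b : ℕ) (tcs : List ℕ)
    (L : List (ℕ × ℕ)) (σ len c' : ℕ) : Bool :=
  bd (Nat.beq len (lenP L)) (bd (Nat.ble (nat_lit 1) b) (bd (coreC kl Ml)
  (forceB (fun m =>
    bd (Nat.beq q (Nat.mul (nat_lit 9) (Nat.add m (nat_lit 8))))
    (bd (Nat.beq c' (Nat.add (Nat.mul q c) (Nat.mul (Nat.mul (nat_lit 2) m) β)))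
    (runC TL TE kl fun FL _ OF =>
      runV FL OF NP w fun FLm on hm w2 =>
      bd (posV (seqT st) s)
      (bd (Nat.beq (K0F (seqM Ml) (Nat.sub (ln FL NP) OF) (stV (seqT st)) s)
        (Nat.mul (nat_lit 3) c))
      (forceB (fun Y => forceB (fun mask => forceB (fun BV => forceB (fun e =>
        lvV m BV Y q (Nat.add lo e) e mask L σ)
        (Nat.mul m b))
        (bvF FLm on hm w2 OF (Nat.mul (Nat.sub (ln FL NP) OF) (PPn (seqM Ml) s))
          (Nat.mul (nat_lit 3) β) (Nat.mul q b) NP (seqM Ml) s tcs))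
        (Nat.sub (Nat.shiftLeft (nat_lit 1) nn) (nat_lit 1)))
        (YtW need (msW (seqM Ml) (ybF FLm on hm w2 OF (Nat.sub (ln FL NP) OF) NP (seqM Ml)
          (seqT st)) s)))))))
    (seqM Ml s))))

theorem bV_spec (hA : ∀ i j, A i j = - A j i) (hB : ∀ i j, B i j = - B j i)
    (G : Geo A B pts TL TE D NP NU) {kl Ml : List ℕ} {s : ℕ}
    {st : List (ℕ × ℕ × List ℕ × ℕ × ℕ)} {w c need q lo nn β b : ℕ} {tcs : List ℕ}
    {L : List (ℕ × ℕ)} {σ len c' : ℕ}
    (h : bV TL TE NP kl Ml s st w c need q lo nn β b tcs L σ len c' = true) :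
    LVs A B (kf (seqZ kl)) (seqM Ml) (s + 1) c' q lo nn σ len := by
  obtain ⟨h1, h⟩ := bd_true h
  obtain ⟨h2, h⟩ := bd_true h
  obtain ⟨h3, h⟩ := bd_true h
  rw [forceB_eq] at h
  obtain ⟨h4, h⟩ := bd_true h
  obtain ⟨h5, h⟩ := bd_true h
  rw [runC_eq] at h
  obtain ⟨g1, g2, h⟩ := runV_spec h
  obtain ⟨h7, h⟩ := bd_true h
  obtain ⟨h8, h⟩ := bd_true h
  rw [forceB_eq, forceB_eq, forceB_eq, forceB_eq, mask_eq] at h
  have hC := core_of_check (A := A) (B := B) h3 hA hB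
  have hT := tab_of_geo G h3
  have hM : ∀ i, 1 ≤ seqM Ml i := fun i => (hC.hM i).pos
  have hb : 0 < b := Nat.le_of_ble_eq_true h2
  have hq : q = 9 * (seqM Ml s + 8) := Nat.eq_of_beq_eq_true h4
  have hK := krepV hT (seqM Ml) hM g1 g2 (seqT st) s h7
  have e4 : K0F (seqM Ml) (Nat.sub (ln (evT TL (monz (seqZ kl) 5)) NP) (16384 * prodK kl))
    (stV (seqT st)) s = 3 * c := Nat.eq_of_beq_eq_true h8
  rw [e4] at hK
  push_cast at hK
  have hY := hY_of_YtW (need := need) hK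
  rw [Nat.eq_of_beq_eq_true h1, lenP_eq]
  refine lvV_spec (b := b) (β := β) hY (hM s) ?_ hq (Nat.eq_of_beq_eq_true h5) L σ h
  intro t y hy
  have h9 := nint_lane hT (seqM Ml) hM (n₀ := 3 * β) (β := q * b) (i := s) g1 g2 tcs t y hy
    (Nat.mul_pos (by omega) hb)
  have e : ((3 * β : ℕ) : ℤ) + 48 * (y : ℤ) = 3 * ((β : ℤ) + 16 * (y : ℤ)) := by
    push_cast; ring
  rw [e] at h9; exact h9

end

end Pool.Agent.Lib.MP_cfac74_al.Cov
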