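import Pool.Agent.Lib.MP_cfac74_al.Cov.Half

/-!
# MP_cfac74_al : the values of `N` as packed vectors
-/

set_option autoImplicit false
set_option linter.unusedSectionVars false

namespace Pool.Agent.Lib.MP_cfac74_al.Cov

open Finset Pool.Agent.Lib.MP_cfac74_al.Dec Pool.Agent.Lib.MP_cfac74_al.Ch
open Pool.Agent.Lib.MP_cfac74_al.Tab (evT monz lane dsc Geo W W_eq W_pos lane_eq lane_lt La_lanes)

/-! ### lanes -/

/-- `1 + W + ... + W ^ (N - 1)` -/
noncomputable def ones (N : ℕ) : ℕ :=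
  Nat.div (Nat.sub (Nat.shiftLeft (nat_lit 1) (Nat.mul (nat_lit 40) N)) (nat_lit 1))
    (nat_lit 1099511627775)

theorem ones_eq (N : ℕ) : ones N = La W N (fun _ => 1) := by
  have h : ones N = (1 <<< (40 * N) - 1) / 1099511627775 := rfl
  rw [h, Nat.one_shiftLeft, pow_mul]
  have h2 : (2 : ℕ) ^ 40 = W := W_eq.symm
  have h3 : 1099511627775 = W - 1 := by norm_num [W]
  rw [h2, h3, ← Nat.geomSum_eq (by norm_num [W])]
  unfold La
  exact Finset.sum_congr rfl fun i _ => (one_mul _).symm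

theorem ones_mul (a N : ℕ) : a * ones N = La W N (fun _ => a) := by
  rw [ones_eq, ← La_mul]
  exact La_congr fun i _ => mul_one a

theorem La_of_lt {X N : ℕ} (h : X < W ^ N) : X = La W N (lane X) := by
  have h1 := La_lanes X N
  rw [Nat.div_eq_of_lt h, mul_zero, add_zero] at h1
  exact h1

theorem lane_La {N : ℕ} {f : ℕ → ℕ} (h : ∀ i < N, f i < W) {q : ℕ} (hq : q < N) :
    lane (La W N f) q = f q := by
  rw [lane_eq]; exact La_get W N W_pos f h q hq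

theorem lane_ge {X N : ℕ} (h : X < W ^ N) {q : ℕ} (hq : N ≤ q) : lane X q = 0 := by
  have h1 : X < W ^ q := lt_of_lt_of_le h (Nat.pow_le_pow_right W_pos hq)
  rw [lane_eq, Nat.div_eq_of_lt h1, Nat.zero_mod]

theorem lt_of_and_mask {x w : ℕ} (hw : w ≤ 40) (hx : x < 2 ^ 40)
    (h : x &&& (2 ^ 40 - 2 ^ w) = 0) : x < 2 ^ w := by
  have e1 : 2 ^ 40 - 2 ^ w = (2 ^ (40 - w) - 1) <<< w := by
    rw [Nat.shiftLeft_eq, Nat.sub_mul, one_mul, ← pow_add, Nat.sub_add_cancel hw]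
  have e2 : (x &&& (2 ^ 40 - 2 ^ w)) >>> w = x >>> w := by
    rw [e1, Nat.shiftRight_and_distrib, Nat.shiftLeft_shiftRight, Nat.and_two_pow_sub_one_eq_mod,
      Nat.mod_eq_of_lt]
    rw [Nat.shiftRight_eq_div_pow, Nat.div_lt_iff_lt_mul (by positivity), ← pow_add,
      Nat.sub_add_cancel hw]
    exact hx
  rw [h, Nat.zero_shiftRight, Nat.shiftRight_eq_div_pow] at e2
  have h3 : x / 2 ^ w = 0 := e2.symm
  rcases (Nat.div_eq_zero_iff).1 h3 with h4 | h4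
  · have : 0 < 2 ^ w := by positivity
    omega
  · exact h4

/-- all lanes of `X` are below `2 ^ w` if no masked bit is set -/
theorem lane_lt_of_mask {X N w : ℕ} (hw : w ≤ 40) (hX : X < W ^ N)
    (h : X &&& ((W - 2 ^ w) * ones N) = 0) {q : ℕ} (hq : q < N) : lane X q < 2 ^ w := by
  have h1 : ∀ i, lane X i < 2 ^ 40 := fun i => by rw [← W_eq]; exact lane_lt X i
  rw [ones_mul, La_of_lt hX, W_eq] at h
  have h0 : 0 < 2 ^ w := by positivity
  have h00 : (2 : ℕ) ^ 40 - 2 ^ w < 2 ^ 40 := by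
    have : (0 : ℕ) < 2 ^ 40 := by positivity
    omega
  rw [La_land 40 N (lane X) _ (fun i _ => h1 i) (fun i _ => h00)] at h
  have h2 : (lane X q &&& (2 ^ 40 - 2 ^ w)) * (2 ^ 40) ^ q = 0 := by
    unfold La at h
    exact (Finset.sum_eq_zero_iff.1 h) q (Finset.mem_range.2 hq)
  have h3 : lane X q &&& (2 ^ 40 - 2 ^ w) = 0 := by
    rcases Nat.mul_eq_zero.1 h2 with h3 | h3
    · exact h3
    · exact absurd h3 (by positivity)
  exact lt_of_and_mask hw (h1 q) h3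

theorem lin_La {X N a κ : ℕ} (hX : X < W ^ N) :
    a * X + κ * ones N = La W N (fun q => a * lane X q + κ) := by
  rw [ones_mul, La_add W N (fun q => a * lane X q) (fun _ => κ), La_mul, ← La_of_lt hX]

/-- **exact division of all lanes by `48`** -/
theorem lane_div {X N a κ V w : ℕ} (hX : X < W ^ N) (hw : ∀ q < N, lane X q < 2 ^ w)
    (hb : a * 2 ^ w + κ < W) (hV : 48 * V = a * X + κ * ones N)
    (hm : V &&& ((W - 2 ^ 34) * ones N) = 0) :
    V < W ^ N ∧ ∀ q < N, 48 * lane V q = a * lane X q + κ := by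
  have h0 : ∀ q < N, a * lane X q + κ < W := by
    intro q hq
    have := Nat.mul_le_mul_left a (hw q hq).le
    omega
  rw [lin_La hX] at hV
  have h1 : 48 * V < W ^ N := by rw [hV]; exact La_lt _ _ _ h0
  have h2 : V < W ^ N := by omega
  refine ⟨h2, fun q hq => ?_⟩
  have h3 : ∀ i < N, 48 * lane V i < W := by
    intro i hi
    have := lane_lt_of_mask (by norm_num) h2 hm hi
    have h4 : W = 2 ^ 40 := W_eq
    omega
  have h5 : La W N (fun i => 48 * lane V i) = La W N (fun q => a * lane X q + κ) := by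
    rw [La_mul, ← La_of_lt h2]; exact hV
  exact La_inj W N W_pos _ _ h3 h0 h5 q hq

/-- lanes of a concatenation -/
theorem lane_cat {A B N : ℕ} (hA : A < W ^ N) (q : ℕ) :
    lane (A + B <<< (40 * N)) q = if q < N then lane A q else lane B (q - N) := by
  have e : A + B <<< (40 * N) = A + W ^ N * B := by
    rw [Nat.shiftLeft_eq, pow_mul, ← W_eq, mul_comm]
  rw [e]
  by_cases hq : q < N
  · rw [if_pos hq, lane_eq, lane_eq]
    obtain ⟨M, rfl⟩ : ∃ M, N = q + (M + 1) := ⟨N - q - 1, by omega⟩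
    have e2 : A + W ^ (q + (M + 1)) * B = A + W ^ q * (W * (W ^ M * B)) := by ring
    rw [e2, Nat.add_mul_div_left _ _ (Nat.pow_pos W_pos), Nat.add_mul_mod_self_left]
  · rw [if_neg hq, lane_eq, lane_eq]
    obtain ⟨M, rfl⟩ : ∃ M, q = N + M := ⟨q - N, by omega⟩
    rw [pow_add, ← Nat.div_div_eq_div_mul, Nat.add_mul_div_left _ _ (Nat.pow_pos W_pos),
      Nat.div_eq_of_lt hA, zero_add, Nat.add_sub_cancel_left]

/-! ### vectors of the numbers `y` -/

/-- lane, kernel form -/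
noncomputable def lnV (X i : ℕ) : ℕ :=
  Nat.mod (Nat.shiftRight X (Nat.mul (nat_lit 40) i)) (nat_lit 1099511627776)

theorem lnV_eq (X i : ℕ) : lnV X i = lane X i := rfl

/-- vector of one type; `0` if a condition fails -/
noncomputable def vecT (FLm on hm w a A B : ℕ) : ℕ :=
  @Bool.rec (fun _ => ℕ) (nat_lit 0)
    (@Bool.rec (fun _ => ℕ) (nat_lit 0)
      (force (fun R => force (fun V =>
        @Bool.rec (fun _ => ℕ) (nat_lit 0)
          (@Bool.rec (fun _ => ℕ) (nat_lit 0) V (Nat.beq (Nat.land V hm) (nat_lit 0)))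
          (Nat.beq (Nat.mul (nat_lit 48) V) R))
        (Nat.div R (nat_lit 48)))
        (Nat.add (Nat.mul a FLm) (Nat.mul (Nat.sub B A) on)))
      (Nat.ble (Nat.succ (Nat.add (Nat.mul a w) (Nat.sub B A))) (nat_lit 1099511627776)))
    (Nat.ble A B)

theorem vecT_spec {FLm N w a A B : ℕ} (hX : FLm < W ^ N) (hw : ∀ q < N, lane FLm q < 2 ^ w)
    (q : ℕ) (h : 0 < lane (vecT FLm (ones N) ((W - 2 ^ 34) * ones N) (2 ^ w) a A B) q) :
    q < N ∧ 48 * lane (vecT FLm (ones N) ((W - 2 ^ 34) * ones N) (2 ^ w) a A B) q + A =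
      a * lane FLm q + B := by
  have z : lane 0 q = 0 := by rw [lane_eq, Nat.zero_div, Nat.zero_mod]
  unfold vecT at h ⊢
  rcases h1 : Nat.ble A B with _ | _
  · rw [h1] at h; exact absurd h (by change ¬ 0 < lane 0 q; rw [z]; exact lt_irrefl 0)
  rw [h1] at h
  rcases h2 : Nat.ble (Nat.succ (Nat.add (Nat.mul a (2 ^ w)) (Nat.sub B A)))
    (nat_lit 1099511627776) with _ | _
  · rw [h2] at h; exact absurd h (by change ¬ 0 < lane 0 q; rw [z]; exact lt_irrefl 0)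
  rw [h2] at h
  simp only [force_eq] at h ⊢
  rcases h3 : Nat.beq (Nat.mul (nat_lit 48) (Nat.div (Nat.add (Nat.mul a FLm)
    (Nat.mul (Nat.sub B A) (ones N))) (nat_lit 48))) (Nat.add (Nat.mul a FLm)
    (Nat.mul (Nat.sub B A) (ones N))) with _ | _
  · rw [h3] at h; exact absurd h (by change ¬ 0 < lane 0 q; rw [z]; exact lt_irrefl 0)
  rw [h3] at h
  rcases h4 : Nat.beq (Nat.land (Nat.div (Nat.add (Nat.mul a FLm)
    (Nat.mul (Nat.sub B A) (ones N))) (nat_lit 48)) ((W - 2 ^ 34) * ones N)) (nat_lit 0) with _ | _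
  · rw [h4] at h; exact absurd h (by change ¬ 0 < lane 0 q; rw [z]; exact lt_irrefl 0)
  rw [h4] at h
  set V : ℕ := Nat.div (Nat.add (Nat.mul a FLm) (Nat.mul (Nat.sub B A) (ones N))) (nat_lit 48) with hV
  have h' : 0 < lane V q := h
  change q < N ∧ 48 * lane V q + A = a * lane FLm q + B
  have e1 : A ≤ B := Nat.le_of_ble_eq_true h1
  have e2 : a * 2 ^ w + (B - A) < 1099511627776 := Nat.le_of_ble_eq_true h2
  have e3 : 48 * V = a * FLm + (B - A) * ones N := Nat.eq_of_beq_eq_true h3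
  have e4 : V &&& ((W - 2 ^ 34) * ones N) = 0 := Nat.eq_of_beq_eq_true h4
  obtain ⟨h5, h6⟩ := lane_div hX hw e2 e3 e4
  have hq : q < N := by
    by_contra hq
    rw [lane_ge h5 (by omega)] at h'
    exact absurd h' (lt_irrefl 0)
  refine ⟨hq, ?_⟩
  have := h6 q hq
  omega

theorem vecT_lt {FLm N w a A B : ℕ} (hX : FLm < W ^ N) (hw : ∀ q < N, lane FLm q < 2 ^ w) :
    vecT FLm (ones N) ((W - 2 ^ 34) * ones N) (2 ^ w) a A B < W ^ N := by
  have z : 0 < W ^ N := Nat.pow_pos W_pos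
  unfold vecT
  rcases h1 : Nat.ble A B with _ | _
  · exact z
  rcases h2 : Nat.ble (Nat.succ (Nat.add (Nat.mul a (2 ^ w)) (Nat.sub B A)))
    (nat_lit 1099511627776) with _ | _
  · exact z
  simp only [force_eq]
  rcases h3 : Nat.beq (Nat.mul (nat_lit 48) (Nat.div (Nat.add (Nat.mul a FLm)
    (Nat.mul (Nat.sub B A) (ones N))) (nat_lit 48))) (Nat.add (Nat.mul a FLm)
    (Nat.mul (Nat.sub B A) (ones N))) with _ | _
  · exact z
  rcases h4 : Nat.beq (Nat.land (Nat.div (Nat.add (Nat.mul a FLm)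
    (Nat.mul (Nat.sub B A) (ones N))) (nat_lit 48)) ((W - 2 ^ 34) * ones N)) (nat_lit 0) with _ | _
  · exact z
  have e2 : a * 2 ^ w + (B - A) < 1099511627776 := Nat.le_of_ble_eq_true h2
  exact (lane_div hX hw e2 (Nat.eq_of_beq_eq_true h3) (Nat.eq_of_beq_eq_true h4)).1

/-- combined vector of the types `tcs` -/
noncomputable def bvF (FLm on hm w OFF TP n₀ β NP : ℕ) (M : ℕ → ℕ) (i : ℕ) (tcs : List ℕ) : ℕ :=
  @List.rec ℕ (fun _ => ℕ) (nat_lit 0)
    (fun tc _ ih => force (fun a => Nat.add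
      (vecT FLm on hm w a (Nat.add n₀ (Nat.mul a OFF)) (Nat.add TP (Nat.mul (nat_lit 48) β)))
      (Nat.shiftLeft ih (Nat.mul (nat_lit 40) NP)))
      (Nat.mul (nat_lit 8) (VP M tc i))) tcs

theorem bvF_spec {FLm NP w OFF TP n₀ β : ℕ} {M : ℕ → ℕ} {i : ℕ} (hX : FLm < W ^ NP)
    (hw : ∀ q < NP, lane FLm q < 2 ^ w) (tcs : List ℕ) : ∀ j,
    0 < lane (bvF FLm (ones NP) ((W - 2 ^ 34) * ones NP) (2 ^ w) OFF TP n₀ β NP M i tcs) j →
    ∃ tc p, p < NP ∧
      48 * lane (bvF FLm (ones NP) ((W - 2 ^ 34) * ones NP) (2 ^ w) OFF TP n₀ β NP M i tcs) j +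
        (n₀ + 8 * VP M tc i * OFF) = 8 * VP M tc i * lane FLm p + (TP + 48 * β) := by
  induction tcs with
  | nil =>
    intro j h
    have h' : 0 < lane 0 j := h
    rw [lane_eq, Nat.zero_div, Nat.zero_mod] at h'
    exact absurd h' (lt_irrefl 0)
  | cons tc tcs ih =>
    intro j h
    have e : bvF FLm (ones NP) ((W - 2 ^ 34) * ones NP) (2 ^ w) OFF TP n₀ β NP M i (tc :: tcs) =
        vecT FLm (ones NP) ((W - 2 ^ 34) * ones NP) (2 ^ w) (8 * VP M tc i)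
          (n₀ + 8 * VP M tc i * OFF) (TP + 48 * β) +
        (bvF FLm (ones NP) ((W - 2 ^ 34) * ones NP) (2 ^ w) OFF TP n₀ β NP M i tcs) <<< (40 * NP) :=
      force_eq (fun a => vecT FLm (ones NP) ((W - 2 ^ 34) * ones NP) (2 ^ w) a
          (n₀ + a * OFF) (TP + 48 * β) +
        (bvF FLm (ones NP) ((W - 2 ^ 34) * ones NP) (2 ^ w) OFF TP n₀ β NP M i tcs) <<< (40 * NP))
        (8 * VP M tc i)
    rw [e, lane_cat (vecT_lt hX hw)] at h ⊢
    by_cases hq : j < NP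
    · rw [if_pos hq] at h ⊢
      obtain ⟨h1, h2⟩ := vecT_spec hX hw j h
      exact ⟨tc, j, h1, h2⟩
    · rw [if_neg hq] at h ⊢
      exact ih (j - NP) h

section

variable {n : ℕ} {A B : Fin n → Fin n → ZMod 3} {k : Fin n → ℕ} {FL FE OFF TD NP NU : ℕ}

theorem nint_line (M : ℕ → ℕ) (hM : ∀ i, 1 ≤ M i) (i tc : ℕ) (x : (Fin n → ZMod 3) →+ ZMod 3) :
    Hf A B k 0 0 * ((PPn M i : ℕ) : ℤ) + 8 * (Hf A B k x 0 * ((VP M tc i : ℕ) : ℤ)) ∈
      NInt (Hf A B k) M i := by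
  refine ⟨x, fun j => ptL ((tc >>> (2 * j)) % 4), ?_⟩
  rw [← VP_eq M hM, ← PPn_eq]

/-- the table without its last lane -/
noncomputable def flm (FL NP : ℕ) : ℕ :=
  Nat.mod FL (Nat.shiftLeft (nat_lit 1) (Nat.mul (nat_lit 40) NP))

theorem flm_eq (FL NP : ℕ) : flm FL NP = FL % W ^ NP := by
  have h : flm FL NP = FL % (1 <<< (40 * NP)) := rfl
  rw [h, Nat.one_shiftLeft, pow_mul, ← W_eq]

theorem flm_lt (FL NP : ℕ) : flm FL NP < W ^ NP := by
  rw [flm_eq]; exact Nat.mod_lt _ (Nat.pow_pos W_pos)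

theorem lane_flm (FL NP : ℕ) {q : ℕ} (hq : q < NP) : lane (flm FL NP) q = lane FL q := by
  rw [flm_eq, lane_eq, lane_eq]
  obtain ⟨m, rfl⟩ : ∃ m, NP = q + (m + 1) := ⟨NP - q - 1, by omega⟩
  rw [pow_add, Nat.mod_mul_right_div_self, pow_succ, mul_comm (W ^ m) W, Nat.mod_mul_right_mod]

/-- **values from a lane of a combined vector** -/
theorem nint_lane (hT : TabOK A B k FL FE OFF TD NP NU) (M : ℕ → ℕ) (hM : ∀ i, 1 ≤ M i)
    {w n₀ β i : ℕ} (hoff : OFF ≤ ln FL NP) (hw : ∀ q < NP, lane (flm FL NP) q < 2 ^ w)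
    (tcs : List ℕ) (j y : ℕ)
    (hy : lane (bvF (flm FL NP) (ones NP) ((W - 2 ^ 34) * ones NP) (2 ^ w) OFF
      ((ln FL NP - OFF) * PPn M i) n₀ β NP M i tcs) j = y + β) (hpos : 0 < β) :
    (n₀ : ℤ) + 48 * (y : ℤ) ∈ NInt (Hf A B k) M i := by
  obtain ⟨tc, p, hp, h1⟩ := bvF_spec (OFF := OFF) (TP := (ln FL NP - OFF) * PPn M i) (n₀ := n₀)
    (β := β) (M := M) (i := i) (flm_lt FL NP) hw tcs j (by rw [hy]; omega)
  rw [hy, lane_flm FL NP hp] at h1
  obtain ⟨x, hx⟩ := hT.line p hp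
  have hx' : ((lane FL p : ℕ) : ℤ) = Hf A B k x 0 + (OFF : ℤ) := hx
  have h2 := nint_line (A := A) (B := B) (k := k) M hM i tc x
  have h3 : ((ln FL NP - OFF : ℕ) : ℤ) = Hf A B k 0 0 := by
    rw [Nat.cast_sub hoff, hT.zero]; ring
  have h4 : (48 * ((y : ℤ) + β) + (n₀ + 8 * (VP M tc i : ℕ) * OFF)) =
      8 * (VP M tc i : ℕ) * (lane FL p : ℕ) + (((ln FL NP - OFF : ℕ) : ℤ) * (PPn M i : ℕ) + 48 * β) := by
    exact_mod_cast h1
  rw [h3, hx'] at h4
  have e : (n₀ : ℤ) + 48 * (y : ℤ) = Hf A B k 0 0 * ((PPn M i : ℕ) : ℤ) +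
      8 * (Hf A B k x 0 * ((VP M tc i : ℕ) : ℤ)) := by linarith
  rw [e]; exact h2

end

/-! ### lists of the numbers `y + β` -/

/-- lanes of `BV` at packed indices of width `16` -/
noncomputable def ysV (BV n X : ℕ) : List ℕ :=
  @Nat.rec (fun _ => ℕ → List ℕ) (fun _ => [])
    (fun _ ih x => lnV BV (Nat.mod x (nat_lit 65536)) :: ih (Nat.div x (nat_lit 65536))) n X

theorem ysV_mem {BV n : ℕ} : ∀ {X z : ℕ}, z ∈ ysV BV n X → ∃ j, z = lane BV j := by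
  induction n with
  | zero => intro X z h; exact absurd h List.not_mem_nil
  | succ n ih =>
    intro X z h
    have e : ysV BV (n + 1) X = lnV BV (X % 65536) :: ysV BV n (X / 65536) := rfl
    rw [e] at h
    rcases List.mem_cons.1 h with rfl | h
    · exact ⟨_, rfl⟩
    · exact ih h

/-- subtract `β` -/
def dn (β : ℕ) (l : List ℕ) : List ℕ := (l.filter fun z => β ≤ z).map fun z => z - β

theorem mem_dn {β y : ℕ} {l : List ℕ} : y ∈ dn β l ↔ ∃ z ∈ l, β ≤ z ∧ y = z - β := by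
  unfold dn
  rw [List.mem_map]
  constructor
  · rintro ⟨z, hz, rfl⟩
    rw [List.mem_filter, decide_eq_true_iff] at hz
    exact ⟨z, hz.1, hz.2, rfl⟩
  · rintro ⟨z, hz, h, rfl⟩
    exact ⟨z, by rw [List.mem_filter, decide_eq_true_iff]; exact ⟨hz, h⟩, rfl⟩

/-- the tree fold, with the order -/
theorem tr_spec2 (m X d : ℕ) : ∀ (l : List ℕ) (k : ℕ → ℕ → List ℕ → ℕ),
    ∃ y x l', tr m X d l k = k y x l' ∧ (∀ z ∈ l', z ∈ l) ∧
      ∀ b, x.testBit b = true →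
        ∃ z ∈ l, y ≤ z ∧ ∃ j, X.testBit j = true ∧ b + m * y = j + m * z := by
  induction d with
  | zero =>
    intro l k
    cases l with
    | nil =>
      refine ⟨0, 0, [], rfl, fun z hz => hz, fun b hb => ?_⟩
      rw [Nat.zero_testBit] at hb; exact Bool.noConfusion hb
    | cons y l' =>
      exact ⟨y, X, l', rfl, fun z hz => List.mem_cons_of_mem _ hz,
        fun b hb => ⟨y, List.mem_cons_self, le_rfl, b, hb, rfl⟩⟩
  | succ d ih =>
    intro l k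
    cases l with
    | nil =>
      refine ⟨0, 0, [], rfl, fun z hz => hz, fun b hb => ?_⟩
      rw [Nat.zero_testBit] at hb; exact Bool.noConfusion hb
    | cons y l' =>
      have e : tr m X (d + 1) (y :: l') k = tr m X d (y :: l') (fun y1 x1 l1 =>
        tr m X d l1 (fun y2 x2 l2 => k y1 (@Bool.rec (fun _ => ℕ) x1
          (Nat.lor x1 (Nat.shiftLeft x2 (Nat.mul m (Nat.sub y2 y1)))) (Nat.ble y1 y2)) l2)) := rfl
      obtain ⟨y1, x1, l1, h1, h2, h3⟩ := ih (y :: l') (fun y1 x1 l1 =>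
        tr m X d l1 (fun y2 x2 l2 => k y1 (@Bool.rec (fun _ => ℕ) x1
          (Nat.lor x1 (Nat.shiftLeft x2 (Nat.mul m (Nat.sub y2 y1)))) (Nat.ble y1 y2)) l2))
      obtain ⟨y2, x2, l2, h4, h5, h6⟩ := ih l1 (fun y2 x2 l2 => k y1 (@Bool.rec (fun _ => ℕ) x1
          (Nat.lor x1 (Nat.shiftLeft x2 (Nat.mul m (Nat.sub y2 y1)))) (Nat.ble y1 y2)) l2)
      refine ⟨y1, _, l2, by rw [e, h1, h4], fun z hz => h2 z (h5 z hz), fun b hb => ?_⟩
      rcases hc : Nat.ble y1 y2 with _ | _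
      · rw [hc] at hb
        exact h3 b hb
      · rw [hc] at hb
        have hb' : (x1 ||| (x2 <<< (m * (y2 - y1)))).testBit b = true := hb
        have hle : y1 ≤ y2 := Nat.le_of_ble_eq_true hc
        rw [Nat.testBit_or, Bool.or_eq_true, Nat.testBit_shiftLeft, Bool.and_eq_true,
          decide_eq_true_iff] at hb'
        rcases hb' with hb' | ⟨h7, h8⟩
        · exact h3 b hb'
        · obtain ⟨z, hz, hyz, j, hj, h9⟩ := h6 _ h8
          refine ⟨z, h2 z hz, hle.trans hyz, j, hj, ?_⟩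
          rw [← h9]
          obtain ⟨w, rfl⟩ : ∃ w, y2 = y1 + w := ⟨y2 - y1, by omega⟩
          rw [Nat.add_sub_cancel_left] at h7 ⊢
          rw [Nat.mul_add]
          omega

/-- union of the translates of `X` by `m (z - β)` -/
noncomputable def trW (m β X : ℕ) (l : List ℕ) : ℕ :=
  tr m X (nat_lit 12) l (fun y x _ => @Bool.rec (fun _ => ℕ) (nat_lit 0)
    (Nat.shiftLeft x (Nat.mul m (Nat.sub y β))) (Nat.ble β y))

theorem testBit_trW {m β X : ℕ} {l : List ℕ} {b : ℕ} (h : (trW m β X l).testBit b = true) :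
    ∃ y ∈ dn β l, ∃ j, X.testBit j = true ∧ b = j + m * y := by
  obtain ⟨y, x, l', h1, _, h2⟩ := tr_spec2 m X 12 l (fun y x _ => @Bool.rec (fun _ => ℕ) (nat_lit 0)
    (Nat.shiftLeft x (Nat.mul m (Nat.sub y β))) (Nat.ble β y))
  have e : trW m β X l = @Bool.rec (fun _ => ℕ) (nat_lit 0)
    (Nat.shiftLeft x (Nat.mul m (Nat.sub y β))) (Nat.ble β y) := h1
  rw [e] at h
  rcases hc : Nat.ble β y with _ | _
  · rw [hc] at h
    have h' : (0 : ℕ).testBit b = true := h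
    rw [Nat.zero_testBit] at h'
    exact Bool.noConfusion h'
  · rw [hc] at h
    have h' : (x <<< (m * (y - β))).testBit b = true := h
    have hle : β ≤ y := Nat.le_of_ble_eq_true hc
    rw [Nat.testBit_shiftLeft, Bool.and_eq_true, decide_eq_true_iff] at h'
    obtain ⟨z, hz, hyz, j, hj, h3⟩ := h2 _ h'.2
    refine ⟨z - β, mem_dn.2 ⟨z, hz, hle.trans hyz, rfl⟩, j, hj, ?_⟩
    obtain ⟨u, rfl⟩ : ∃ u, y = β + u := ⟨y - β, by omega⟩
    obtain ⟨v, rfl⟩ : ∃ v, z = β + v := ⟨z - β, by omega⟩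
    rw [Nat.add_sub_cancel_left] at h'
    rw [Nat.add_sub_cancel_left] at h3 ⊢
    rw [Nat.mul_add, Nat.mul_add] at h3
    omega

/-- iterated union, first member of the list first -/
noncomputable def foldW (ms : List (ℕ × ℕ × List ℕ)) : ℕ → ℕ :=
  @List.rec (ℕ × ℕ × List ℕ) (fun _ => ℕ → ℕ) (fun X => X)
    (fun p _ ih X => force ih (trW p.1 p.2.1 X p.2.2)) ms

/-- the represented lists -/
def dnp (p : ℕ × ℕ × List ℕ) : ℕ × List ℕ := (p.1, dn p.2.1 p.2.2)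

theorem testBit_foldW (ms : List (ℕ × ℕ × List ℕ)) : ∀ X i,
    (foldW ms X).testBit i = true → ∃ j, InSum (ms.map dnp) j ∧
      ∃ x, X.testBit x = true ∧ i = x + j := by
  induction ms with
  | nil =>
    intro X i h
    exact ⟨0, rfl, i, h, rfl⟩
  | cons p ms ih =>
    intro X i h
    have e : foldW (p :: ms) X = force (foldW ms) (trW p.1 p.2.1 X p.2.2) := rfl
    rw [e, force_eq] at h
    obtain ⟨j, h1, x, h2, h3⟩ := ih _ _ h
    obtain ⟨z, hz, x', h4, h5⟩ := testBit_trW h2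
    exact ⟨j + p.1 * z, ⟨z, hz, j, h1, rfl⟩, x', h4, by omega⟩

/-- scaling of the multipliers -/
noncomputable def scaleW (q : ℕ) (ms : List (ℕ × ℕ × List ℕ)) : List (ℕ × ℕ × List ℕ) :=
  @List.rec (ℕ × ℕ × List ℕ) (fun _ => List (ℕ × ℕ × List ℕ)) []
    (fun p _ ih => (Nat.mul q p.1, p.2) :: ih) ms

theorem scaleW_dnp (q : ℕ) (ms : List (ℕ × ℕ × List ℕ)) :
    (scaleW q ms).map dnp = scaleM q (ms.map dnp) := by
  induction ms with
  | nil => rfl
  | cons p ms ih =>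
    have e : scaleW q (p :: ms) = (q * p.1, p.2) :: scaleW q ms := rfl
    rw [e, List.map_cons, ih]
    rfl

/-- multipliers and lists -/
noncomputable def msW (M : ℕ → ℕ) (yb : ℕ → ℕ × List ℕ) (s : ℕ) : List (ℕ × ℕ × List ℕ) :=
  @Nat.rec (fun _ => List (ℕ × ℕ × List ℕ)) []
    (fun i ih => (M i, yb i) :: scaleW (Nat.mul (nat_lit 9) (Nat.add (M i) (nat_lit 8))) ih) s

theorem msW_dnp (M : ℕ → ℕ) (yb : ℕ → ℕ × List ℕ) (s : ℕ) :
    (msW M yb s).map dnp = msF M (fun i => dn (yb i).1 (yb i).2) s := by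
  induction s with
  | zero => rfl
  | succ s ih =>
    have e : msW M yb (s + 1) = (M s, yb s) :: scaleW (9 * (M s + 8)) (msW M yb s) := rfl
    have e' : msF M (fun i => dn (yb i).1 (yb i).2) (s + 1) =
      (M s, dn (yb s).1 (yb s).2) :: scaleM (9 * (M s + 8))
        (msF M (fun i => dn (yb i).1 (yb i).2) s) := rfl
    rw [e, e', List.map_cons, scaleW_dnp, ih]
    rfl

section

variable {n : ℕ} {A B : Fin n → Fin n → ZMod 3} {k : Fin n → ℕ} {FL FE OFF TD NP NU : ℕ}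

theorem krep_gen (M : ℕ → ℕ) (T₀ : ℕ) (hT₀ : (T₀ : ℤ) = Hf A B k 0 0)
    (st : ℕ → ℕ × ℕ × ℕ) (ys : ℕ → List ℕ) (s : ℕ)
    (hN : ∀ i < s, NRep (Hf A B k) M i 2 ((st i).1 : ℕ) (ys i)) :
    KRep (Hf A B k) M s 2 ((K0F M T₀ st s : ℕ) : ℤ) (msF M ys s) := by
  induction s with
  | zero =>
    have h1 := krep_zero (Hf A B k) M 2
    have h2 : ((K0F M T₀ st 0 : ℕ) : ℤ) = Hf A B k 0 0 := hT₀
    rw [h2]; exact h1
  | succ s ih =>
    have h1 := ih fun i hi => hN i (by omega)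
    have h2 := hN s (by omega)
    have h3 := krep_succ h1 h2
    have e : ((K0F M T₀ st (s + 1) : ℕ) : ℤ) =
      9 * ((M s : ℤ) + 8) * ((K0F M T₀ st s : ℕ) : ℤ) + 2 * (M s : ℤ) * ((st s).1 : ℕ) := by
      change (((9 * (M s + 8)) * K0F M T₀ st s + 2 * M s * (st s).1 : ℕ) : ℤ) = _
      push_cast; ring
    rw [e]; exact h3

end

/-! ### stages -/

/-- stage data `(n₀, β, types, length, packed indices)` -/
noncomputable def seqT (l : List (ℕ × ℕ × List ℕ × ℕ × ℕ)) : ℕ → ℕ × ℕ × List ℕ × ℕ × ℕ :=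
  @List.rec (ℕ × ℕ × List ℕ × ℕ × ℕ) (fun _ => ℕ → ℕ × ℕ × List ℕ × ℕ × ℕ)
    (fun _ => (nat_lit 0, nat_lit 0, [], nat_lit 0, nat_lit 0))
    (fun a _ ih i => @Nat.rec (fun _ => ℕ × ℕ × List ℕ × ℕ × ℕ) a (fun j _ => ih j) i) l

/-- offset and list of stage `i` -/
noncomputable def ybF (FLm on hm w OFF T₀ NP : ℕ) (M : ℕ → ℕ) (sv : ℕ → ℕ × ℕ × List ℕ × ℕ × ℕ)
    (i : ℕ) : ℕ × List ℕ :=
  ((sv i).2.1, ysV (bvF FLm on hm w OFF (Nat.mul T₀ (PPn M i)) (sv i).1 (sv i).2.1 NP M i (sv i).2.2.1)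
    (sv i).2.2.2.1 (sv i).2.2.2.2)

/-- the bases, in the old form -/
noncomputable def stV (sv : ℕ → ℕ × ℕ × List ℕ × ℕ × ℕ) (i : ℕ) : ℕ × ℕ × ℕ :=
  ((sv i).1, nat_lit 0, nat_lit 0)

/-- the offsets are positive -/
noncomputable def posV (sv : ℕ → ℕ × ℕ × List ℕ × ℕ × ℕ) (s : ℕ) : Bool :=
  @Nat.rec (fun _ => Bool) true (fun i ih => bd (Nat.ble (nat_lit 1) (sv i).2.1) ih) s

theorem posV_spec {sv : ℕ → ℕ × ℕ × List ℕ × ℕ × ℕ} {s : ℕ} (h : posV sv s = true) :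
    ∀ i < s, 0 < (sv i).2.1 := by
  induction s with
  | zero => intro i hi; omega
  | succ s ih =>
    intro i hi
    obtain ⟨h1, h2⟩ := bd_true (a := Nat.ble (nat_lit 1) (sv s).2.1) (b := posV sv s) h
    rcases Nat.lt_succ_iff_lt_or_eq.1 hi with h3 | rfl
    · exact ih h2 i h3
    · exact Nat.le_of_ble_eq_true h1

/-- run a function over the reduced table -/
noncomputable def runV (FL OFF NP w : ℕ) (f : ℕ → ℕ → ℕ → ℕ → Bool) : Bool :=
  bd (Nat.ble OFF (ln FL NP)) (bd (Nat.ble w (nat_lit 40))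
  (forceB (fun on => forceB (fun hm => forceB (fun w2 => forceB (fun FLm =>
    bd (Nat.beq (Nat.land FLm (Nat.mul (Nat.sub (nat_lit 1099511627776) w2) on)) (nat_lit 0))
      (f FLm on hm w2))
    (flm FL NP)) (Nat.shiftLeft (nat_lit 1) w))
    (Nat.mul (Nat.sub (nat_lit 1099511627776) (nat_lit 17179869184)) on)) (ones NP)))

theorem runV_spec {FL OFF NP w : ℕ} {f : ℕ → ℕ → ℕ → ℕ → Bool} (h : runV FL OFF NP w f = true) :
    OFF ≤ ln FL NP ∧ (∀ q < NP, lane (flm FL NP) q < 2 ^ w) ∧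
      f (flm FL NP) (ones NP) ((W - 2 ^ 34) * ones NP) (2 ^ w) = true := by
  obtain ⟨h1, h⟩ := bd_true h
  obtain ⟨h2, h⟩ := bd_true h
  rw [forceB_eq, forceB_eq, forceB_eq, forceB_eq] at h
  obtain ⟨h3, h4⟩ := bd_true h
  rw [shl_one] at h3 h4
  have h3' : flm FL NP &&& ((W - 2 ^ w) * ones NP) = 0 := Nat.eq_of_beq_eq_true h3
  refine ⟨Nat.le_of_ble_eq_true h1, fun q hq =>
    lane_lt_of_mask (Nat.le_of_ble_eq_true h2) (flm_lt FL NP) h3' hq, ?_⟩
  have e : Nat.mul (Nat.sub (nat_lit 1099511627776) (nat_lit 17179869184)) (ones NP) =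
    (W - 2 ^ 34) * ones NP := rfl
  rw [e] at h4
  exact h4

section

variable {n : ℕ} {A B : Fin n → Fin n → ZMod 3} {k : Fin n → ℕ} {FL FE OFF TD NP NU : ℕ}

theorem nrep_lane (hT : TabOK A B k FL FE OFF TD NP NU) (M : ℕ → ℕ) (hM : ∀ i, 1 ≤ M i)
    {w n₀ β i : ℕ} (hoff : OFF ≤ ln FL NP) (hw : ∀ q < NP, lane (flm FL NP) q < 2 ^ w)
    (tcs : List ℕ) (len X : ℕ) (hβ : 0 < β) :
    NRep (Hf A B k) M i 2 (n₀ : ℕ) (dn β (ysV (bvF (flm FL NP) (ones NP)
      ((W - 2 ^ 34) * ones NP) (2 ^ w) OFF (Nat.mul (Nat.sub (ln FL NP) OFF) (PPn M i)) n₀ β NP M i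
        tcs) len X)) := by
  intro y hy
  obtain ⟨z, hz, h1, rfl⟩ := mem_dn.1 hy
  obtain ⟨j, rfl⟩ := ysV_mem hz
  have h2 := nint_lane hT M hM (n₀ := n₀) (β := β) (i := i) hoff hw tcs j _
    (show lane (bvF (flm FL NP) (ones NP) ((W - 2 ^ 34) * ones NP) (2 ^ w) OFF
      ((ln FL NP - OFF) * PPn M i) n₀ β NP M i tcs) j = _ - β + β from
      (Nat.sub_add_cancel h1).symm) hβ
  have e : ∀ z : ℤ, (n₀ : ℤ) + 24 * ((2 : ℕ) : ℤ) * z = (n₀ : ℤ) + 48 * z := by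
    intro z; push_cast; ring
  rw [e]; exact h2

theorem krepV (hT : TabOK A B k FL FE OFF TD NP NU) (M : ℕ → ℕ) (hM : ∀ i, 1 ≤ M i)
    {w : ℕ} (hoff : OFF ≤ ln FL NP) (hw : ∀ q < NP, lane (flm FL NP) q < 2 ^ w)
    (sv : ℕ → ℕ × ℕ × List ℕ × ℕ × ℕ) (s : ℕ) (hpos : posV sv s = true) :
    KRep (Hf A B k) M s 2 ((K0F M (Nat.sub (ln FL NP) OFF) (stV sv) s : ℕ) : ℤ)
      ((msW M (ybF (flm FL NP) (ones NP) ((W - 2 ^ 34) * ones NP) (2 ^ w) OFF
        (Nat.sub (ln FL NP) OFF) NP M sv) s).map dnp) := by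
  rw [msW_dnp]
  refine krep_gen M _ ?_ (stV sv) _ s fun i hi => ?_
  · change ((ln FL NP - OFF : ℕ) : ℤ) = _
    rw [Nat.cast_sub hoff, hT.zero]; ring
  · exact nrep_lane hT M hM hoff hw _ _ _ (posV_spec hpos i hi)

end

/-- truncated bit set of a chain -/
noncomputable def YtW (need : ℕ) (ms : List (ℕ × ℕ × List ℕ)) : ℕ :=
  Nat.mod (foldW ms (nat_lit 1)) (Nat.shiftLeft (nat_lit 1) need)

theorem hY_of_YtW {V : Type} [AddCommGroup V] [Module (ZMod 3) V]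
    {H : (V →+ ZMod 3) → (V →+ ZMod 3) → ℤ} {M : ℕ → ℕ} {s need : ℕ} {c : ℤ}
    {ms : List (ℕ × ℕ × List ℕ)} (hK : KRep H M s 2 (3 * c) (ms.map dnp)) (i : ℕ)
    (hi : (YtW need ms).testBit i = true) : 3 * (c + 32 * (i : ℤ)) ∈ KInt H M s := by
  unfold YtW at hi
  rw [shl_one] at hi
  have h : (foldW ms 1 % 2 ^ need).testBit i = true := hi
  rw [Nat.testBit_mod_two_pow, Bool.and_eq_true] at h
  obtain ⟨j, h1, x, h2, h3⟩ := testBit_foldW _ _ _ h.2
  rw [Nat.testBit_one_eq_true_iff_self_eq_zero] at h2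
  have h4 := hK j h1
  have e : 3 * (c + 32 * (i : ℤ)) = 3 * c + 48 * ((2 : ℕ) : ℤ) * j := by
    rw [h3, h2]; push_cast; ring
  rw [e]; exact h4

/-! ### direct windows -/

section

variable {n : ℕ} {A B : Fin n → Fin n → ZMod 3} {k : Fin n → ℕ} {FL FE OFF TD NP NU : ℕ}

/-- classes of a direct window, no extra line -/
noncomputable def dcV (FL FE OFF TD NP NU : ℕ) (M : ℕ → ℕ) (s : ℕ)
    (sv : ℕ → ℕ × ℕ × List ℕ × ℕ × ℕ)
    (w c need : ℕ) (L : List ((ℕ × ℕ) × (ℕ × ℕ))) (ρ lo nn : ℕ) : Bool :=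
  runV FL OFF NP w fun FLm on hm w2 =>
  bd (posV sv s)
    (bd (Nat.beq (K0F M (Nat.sub (ln FL NP) OFF) (stV sv) s) (Nat.mul (nat_lit 3) c))
      (forceB (fun C => forceB (fun PPP => forceB (fun Y => forceB (fun mask =>
        chkF (gval FL FE OFF TD NP NU M s evN C PPP) Y (nat_lit 96) lo mask L ρ)
        (Nat.sub (Nat.shiftLeft (nat_lit 1) nn) (nat_lit 1)))
        (YtW need (msW M (ybF FLm on hm w2 OFF (Nat.sub (ln FL NP) OFF) NP M sv) s)))
        (PPn M s)) (Nat.mul (nat_lit 27) c)))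

theorem dcV_spec {M : ℕ → ℕ} (h : CoreOK A B k M) (hT : TabOK A B k FL FE OFF TD NP NU)
    {s : ℕ} (hs : 0 < s) {sv : ℕ → ℕ × ℕ × List ℕ × ℕ × ℕ} {w c need : ℕ}
    {L : List ((ℕ × ℕ) × (ℕ × ℕ))} {ρ lo nn : ℕ}
    (hc : dcV FL FE OFF TD NP NU M s sv w c need L ρ lo nn = true) : CLs 96 lo nn ρ L.length := by
  obtain ⟨h1, h2, hc⟩ := runV_spec hc
  obtain ⟨h3, hc⟩ := bd_true hc
  obtain ⟨h4, hc⟩ := bd_true hc
  rw [forceB_eq, forceB_eq, forceB_eq, forceB_eq, mask_eq] at hc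
  have hM : ∀ i, 1 ≤ M i := fun i => (h.hM i).pos
  have hK := krepV hT M hM h1 h2 sv s h3
  have h5 : K0F M (Nat.sub (ln FL NP) OFF) (stV sv) s = 3 * c := Nat.eq_of_beq_eq_true h4
  rw [h5] at hK
  push_cast at hK
  have hY := hY_of_YtW (need := need) hK
  refine chkF_spec (by norm_num) ?_ L ρ hc
  intro a u hu hu0 i hi
  have hg : 0 < gval FL FE OFF TD NP NU M s evN (Nat.mul (nat_lit 27) c) (PPn M s) a := by
    rw [hu]; omega
  obtain ⟨N', hN', h6⟩ := gval_specN hT M hM s (Nat.mul (nat_lit 27) c) a hg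
  rw [hu] at h6
  refine good_core h hs (hY i hi) hN' _ ?_
  have h7 : ((9 * u : ℕ) : ℤ) = ((27 * c : ℕ) : ℤ) + 2 * N' := h6
  push_cast at h7 ⊢
  linarith

end

section

variable {n : ℕ} {A B : Fin n → Fin n → ZMod 3} {pts TL TE : List ℕ} {D NP NU : ℕ}

/-- classes of a direct window, no extra line -/
noncomputable def cV (TL TE : List ℕ) (D NP NU : ℕ) (kl Ml : List ℕ) (s : ℕ)
    (st : List (ℕ × ℕ × List ℕ × ℕ × ℕ)) (w c need : ℕ) (L : List ((ℕ × ℕ) × (ℕ × ℕ)))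
    (ρ lo nn len : ℕ) : Bool :=
  bd (Nat.beq len (lenC L)) (bd (Nat.ble (nat_lit 1) s) (bd (coreC kl Ml)
  (runC TL TE kl fun FL FE OF => dcV FL FE OF D NP NU (seqM Ml) s (seqT st) w c need L ρ lo nn)))

theorem cV_spec (hA : ∀ i j, A i j = - A j i) (hB : ∀ i j, B i j = - B j i)
    (G : Geo A B pts TL TE D NP NU) {kl Ml : List ℕ} {s : ℕ}
    {st : List (ℕ × ℕ × List ℕ × ℕ × ℕ)} {w c need : ℕ} {L : List ((ℕ × ℕ) × (ℕ × ℕ))}
    {ρ lo nn len : ℕ} (h : cV TL TE D NP NU kl Ml s st w c need L ρ lo nn len = true) :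
    CLs 96 lo nn ρ len := by
  obtain ⟨h1, h⟩ := bd_true h
  obtain ⟨h2, h⟩ := bd_true h
  obtain ⟨h5, h⟩ := bd_true h
  rw [runC_eq] at h
  have h6 := dcV_spec (core_of_check h5 hA hB) (tab_of_geo G h5) (Nat.le_of_ble_eq_true h2) h
  rw [Nat.eq_of_beq_eq_true h1, lenC_eq]
  exact h6

end

end Pool.Agent.Lib.MP_cfac74_al.Cov
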