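import Pool.Agent.Lib.MP_cfac74_al.Cov.Code

/-!
# MP_cfac74_al : windows from codes
-/

set_option autoImplicit false
set_option linter.unusedSectionVars false

namespace Pool.Agent.Lib.MP_cfac74_al.Cov

open Finset Pool.Agent.Lib.MP_cfac74_al.Dec Pool.Agent.Lib.MP_cfac74_al.Ch

/-! ### sequences -/

/-- the sequence `M_0, M_1, ..., 1, 1, ...` -/
noncomputable def seqM (l : List ℕ) : ℕ → ℕ :=
  @List.rec ℕ (fun _ => ℕ → ℕ) (fun _ => nat_lit 1)
    (fun a _ ih i => @Nat.rec (fun _ => ℕ) a (fun j _ => ih j) i) l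

theorem seqM_nil (i : ℕ) : seqM [] i = 1 := rfl
theorem seqM_zero (a : ℕ) (l : List ℕ) : seqM (a :: l) 0 = a := rfl
theorem seqM_succ (a : ℕ) (l : List ℕ) (i : ℕ) : seqM (a :: l) (i + 1) = seqM l i := rfl

theorem seqM_prop {Φ : ℕ → Prop} (h1 : Φ 1) : ∀ (l : List ℕ), (∀ a ∈ l, Φ a) → ∀ i, Φ (seqM l i) := by
  intro l
  induction l with
  | nil => intro _ i; exact h1
  | cons a l ih =>
    intro h i
    cases i with
    | zero => exact h a List.mem_cons_self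
    | succ i => exact ih (fun b hb => h b (List.mem_cons_of_mem _ hb)) i

theorem seqM_ge : ∀ (l : List ℕ) (i : ℕ), l.length ≤ i → seqM l i = 1 := by
  intro l
  induction l with
  | nil => intro i _; rfl
  | cons a l ih =>
    intro i hi
    cases i with
    | zero => simp at hi
    | succ i => exact ih i (by simpa using hi)

/-- stage data `(n0, length, packed codes)` -/
noncomputable def seqS (l : List (ℕ × ℕ × ℕ)) : ℕ → ℕ × ℕ × ℕ :=
  @List.rec (ℕ × ℕ × ℕ) (fun _ => ℕ → ℕ × ℕ × ℕ) (fun _ => (nat_lit 0, nat_lit 0, nat_lit 0))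
    (fun a _ ih i => @Nat.rec (fun _ => ℕ × ℕ × ℕ) a (fun j _ => ih j) i) l

/-! ### lists of `y` -/

/-- the numbers `y` with `g a = n₀ + d y` -/
noncomputable def mapD (d : ℕ) (g : ℕ → ℕ) (n₀ : ℕ) (l : List ℕ) : List ℕ :=
  @List.rec ℕ (fun _ => List ℕ) []
    (fun a _ ih => @Bool.rec (fun _ => List ℕ) ih (Nat.div (Nat.sub (g a) n₀) d :: ih)
      (Nat.beq (g a) (Nat.add n₀ (Nat.mul d (Nat.div (Nat.sub (g a) n₀) d))))) l

theorem mapD_spec {d : ℕ} {g : ℕ → ℕ} {n₀ : ℕ} {l : List ℕ} {y : ℕ} (h : y ∈ mapD d g n₀ l) :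
    ∃ a ∈ l, g a = n₀ + d * y := by
  induction l with
  | nil => exact absurd h List.not_mem_nil
  | cons a l ih =>
    rcases hb : Nat.beq (g a) (Nat.add n₀ (Nat.mul d (Nat.div (Nat.sub (g a) n₀) d))) with _ | _
    · have h0 : mapD d g n₀ (a :: l) = mapD d g n₀ l := by
        change @Bool.rec (fun _ => List ℕ) _ _
          (Nat.beq (g a) (Nat.add n₀ (Nat.mul d (Nat.div (Nat.sub (g a) n₀) d)))) = _
        rw [hb]; rfl
      rw [h0] at h
      obtain ⟨b, hb', h1⟩ := ih h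
      exact ⟨b, List.mem_cons_of_mem _ hb', h1⟩
    · have h0 : mapD d g n₀ (a :: l) = (g a - n₀) / d :: mapD d g n₀ l := by
        change @Bool.rec (fun _ => List ℕ) _ _
          (Nat.beq (g a) (Nat.add n₀ (Nat.mul d (Nat.div (Nat.sub (g a) n₀) d)))) = _
        rw [hb]; rfl
      rw [h0] at h
      rcases List.mem_cons.1 h with rfl | h
      · exact ⟨a, List.mem_cons_self, Nat.eq_of_beq_eq_true hb⟩
      · obtain ⟨b, hb', h1⟩ := ih h
        exact ⟨b, List.mem_cons_of_mem _ hb', h1⟩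

/-! ### stages -/

/-- values `y` of stage `i` -/
noncomputable def ysF (FL OFF NP : ℕ) (M : ℕ → ℕ) (st : ℕ → ℕ × ℕ × ℕ) (i : ℕ) : List ℕ :=
  mapD (nat_lit 48) (nval FL OFF NP M i) (st i).1 (unpack (st i).2.1 (st i).2.2)

/-- multipliers and lists of the chain values of stage `s` -/
noncomputable def msF (M : ℕ → ℕ) (ys : ℕ → List ℕ) (s : ℕ) : List (ℕ × List ℕ) :=
  @Nat.rec (fun _ => List (ℕ × List ℕ)) []
    (fun i ih => (M i, ys i) :: scaleM (Nat.mul (nat_lit 9) (Nat.add (M i) (nat_lit 8))) ih) s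

/-- base value of stage `s` -/
noncomputable def K0F (M : ℕ → ℕ) (T₀ : ℕ) (st : ℕ → ℕ × ℕ × ℕ) (s : ℕ) : ℕ :=
  @Nat.rec (fun _ => ℕ) T₀
    (fun i ih => Nat.add (Nat.mul (Nat.mul (nat_lit 9) (Nat.add (M i) (nat_lit 8))) ih)
      (Nat.mul (Nat.mul (nat_lit 2) (M i)) (st i).1)) s

/-- the bases are positive -/
noncomputable def posF (st : ℕ → ℕ × ℕ × ℕ) (s : ℕ) : Bool :=
  @Nat.rec (fun _ => Bool) true
    (fun i ih => @Bool.rec (fun _ => Bool) false ih (Nat.ble (nat_lit 1) (st i).1)) s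

theorem posF_spec {st : ℕ → ℕ × ℕ × ℕ} {s : ℕ} (h : posF st s = true) : ∀ i < s, 0 < (st i).1 := by
  induction s with
  | zero => intro i hi; omega
  | succ s ih =>
    intro i hi
    have h' : @Bool.rec (fun _ => Bool) false (posF st s) (Nat.ble (nat_lit 1) (st s).1) = true := h
    obtain ⟨h1, h2⟩ := brec_true h'
    rcases Nat.lt_succ_iff_lt_or_eq.1 hi with h3 | rfl
    · exact ih h2 i h3
    · exact Nat.le_of_ble_eq_true h1

section

variable {n : ℕ} {A B : Fin n → Fin n → ZMod 3} {k : Fin n → ℕ} {FL FE OFF TD NP NU : ℕ}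

theorem nrep_of (hT : TabOK A B k FL FE OFF TD NP NU) (M : ℕ → ℕ) (hM : ∀ i, 1 ≤ M i)
    (i n₀ len X : ℕ) (h0 : 0 < n₀) :
    NRep (Hf A B k) M i 2 n₀ (mapD (nat_lit 48) (nval FL OFF NP M i) n₀ (unpack len X)) := by
  intro y hy
  obtain ⟨a, _, ha⟩ := mapD_spec hy
  have h1 : 0 < nval FL OFF NP M i a := by rw [ha]; omega
  have h2 := nval_spec hT M hM i a h1
  rw [ha] at h2
  have e : (n₀ : ℤ) + 24 * ((2 : ℕ) : ℤ) * (y : ℤ) = ((n₀ + 48 * y : ℕ) : ℤ) := by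
    push_cast; ring
  rw [e]; exact h2

theorem krepF (hT : TabOK A B k FL FE OFF TD NP NU) (M : ℕ → ℕ) (hM : ∀ i, 1 ≤ M i)
    (st : ℕ → ℕ × ℕ × ℕ) (s : ℕ) (hpos : posF st s = true) (hoff : Nat.ble OFF (ln FL NP) = true) :
    KRep (Hf A B k) M s 2 ((K0F M (Nat.sub (ln FL NP) OFF) st s : ℕ) : ℤ)
      (msF M (ysF FL OFF NP M st) s) := by
  have hp := posF_spec hpos
  clear hpos
  induction s with
  | zero =>
    have h1 := krep_zero (Hf A B k) M 2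
    have h2 : ((K0F M (Nat.sub (ln FL NP) OFF) st 0 : ℕ) : ℤ) = Hf A B k 0 0 := by
      change ((ln FL NP - OFF : ℕ) : ℤ) = _
      rw [Nat.cast_sub (Nat.le_of_ble_eq_true hoff), hT.zero]; ring
    rw [h2]; exact h1
  | succ s ih =>
    have h1 := ih (fun i hi => hp i (by omega))
    have h2 := nrep_of hT M hM s (st s).1 (st s).2.1 (st s).2.2 (hp s (by omega))
    have h3 := krep_succ h1 h2
    have e : ((K0F M (Nat.sub (ln FL NP) OFF) st (s + 1) : ℕ) : ℤ) =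
      9 * ((M s : ℤ) + 8) * ((K0F M (Nat.sub (ln FL NP) OFF) st s : ℕ) : ℤ) +
        2 * (M s : ℤ) * (((st s).1 : ℕ) : ℤ) := by
      change (((9 * (M s + 8)) * K0F M (Nat.sub (ln FL NP) OFF) st s + 2 * M s * (st s).1 : ℕ) : ℤ)
        = _
      push_cast; ring
    rw [e]; exact h3

end

/-! ### the window checker, numbers `9 u` -/

/-- check of all the classes -/
noncomputable def chkW9 (g : ℕ → ℕ) (Y q lo mask : ℕ)
    (L : List ((ℕ × ℕ) × List (ℕ × ℕ × ℕ))) : ℕ → Bool :=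
  @List.rec ((ℕ × ℕ) × List (ℕ × ℕ × ℕ)) (fun _ => ℕ → Bool) (fun ρ => Nat.ble q ρ)
    (fun p _ ih ρ => @Bool.rec (fun _ => Bool) false (ih (Nat.add ρ (nat_lit 16)))
      (@Bool.rec (fun _ => Bool)
        (window (Nat.lor
          (orRes g Y (Nat.mul (nat_lit 9) q) (Nat.mul (nat_lit 9) ρ) (unpack p.1.1 p.1.2))
          (exRes q ρ p.2)) mask lo)
        true (Nat.beq (Nat.mod ρ (nat_lit 3)) (nat_lit 0)))) L

theorem chkW9_spec {g : ℕ → ℕ} {Y q lo mask : ℕ} (L : List ((ℕ × ℕ) × List (ℕ × ℕ × ℕ))) :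
    ∀ ρ, chkW9 g Y q lo mask L ρ = true → ∀ κ, ρ + 16 * κ < q → (ρ + 16 * κ) % 3 ≠ 0 →
      ∃ p ∈ L, window (Nat.lor
        (orRes g Y (9 * q) (9 * (ρ + 16 * κ)) (unpack p.1.1 p.1.2))
        (exRes q (ρ + 16 * κ) p.2)) mask lo = true := by
  induction L with
  | nil =>
    intro ρ h κ h1 h2
    have h3 : q ≤ ρ := Nat.le_of_ble_eq_true h
    omega
  | cons p L ih =>
    intro ρ h κ h1 h2
    have h' : @Bool.rec (fun _ => Bool) false (chkW9 g Y q lo mask L (ρ + 16))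
      (@Bool.rec (fun _ => Bool)
        (window (Nat.lor (orRes g Y (9 * q) (9 * ρ) (unpack p.1.1 p.1.2)) (exRes q ρ p.2)) mask lo)
        true (Nat.beq (Nat.mod ρ (nat_lit 3)) (nat_lit 0))) = true := h
    obtain ⟨h3, h4⟩ := brec_true h'
    rcases Nat.eq_zero_or_pos κ with rfl | hκ
    · rw [Nat.mul_zero, Nat.add_zero] at h2 ⊢
      rcases hb : Nat.beq (Nat.mod ρ (nat_lit 3)) (nat_lit 0) with _ | _
      · rw [hb] at h3
        exact ⟨p, List.mem_cons_self, h3⟩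
      · exact absurd (Nat.eq_of_beq_eq_true hb) h2
    · obtain ⟨κ', rfl⟩ : ∃ κ', κ = κ' + 1 := ⟨κ - 1, by omega⟩
      have e : ρ + 16 * (κ' + 1) = ρ + 16 + 16 * κ' := by ring
      rw [e] at h1 h2 ⊢
      obtain ⟨p', hp', h5⟩ := ih (ρ + 16) h4 κ' h1 h2
      exact ⟨p', List.mem_cons_of_mem _ hp', h5⟩

theorem win_res9 {g : ℕ → ℕ} {Y q lo n r : ℕ} {L : List ((ℕ × ℕ) × List (ℕ × ℕ × ℕ))}
    (hG : ∀ a u, g a = 9 * u → 0 < u → ∀ i, Y.testBit i = true → Good (u + q * i))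
    (hq : q % 48 = 0) (hr : r % 2 = 1) (h : chkW9 g Y q lo (2 ^ n - 1) L r = true) :
    Win r (q * lo) (q * (lo + n) - 1) := by
  intro t h1 h3 h4 h5
  rcases Nat.eq_zero_or_pos q with rfl | hq0
  · simp only [Nat.zero_mul, Nat.zero_sub, Nat.le_zero] at h5
    subst h5; simp at h3
  have hn : 0 < q * (lo + n) := by
    rcases Nat.eq_zero_or_pos (q * (lo + n)) with h0 | h0
    · rw [h0] at h5
      have : t = 0 := by omega
      subst this; simp at h3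
    · exact h0
  have h6 : t < q * (lo + n) := by omega
  have h7 := Nat.div_add_mod t q
  have h8 : t % q % 16 = r := by
    rw [Nat.mod_mod_of_dvd _ (by omega : 16 ∣ q)]; exact h1
  have h9 : t % q % 3 ≠ 0 := by
    rw [Nat.mod_mod_of_dvd _ (by omega : 3 ∣ q)]; exact h3
  have h10 : t % q < q := Nat.mod_lt _ hq0
  obtain ⟨κ, hκ⟩ : ∃ κ, t % q = r + 16 * κ := ⟨(t % q) / 16, by omega⟩
  rw [hκ] at h9 h10
  obtain ⟨p, hp, hw⟩ := chkW9_spec L r h κ h10 h9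
  have h11 : lo ≤ t / q := by
    rw [Nat.le_div_iff_mul_le hq0, mul_comm]; exact h4
  have h12 : t / q < lo + n := by
    rw [Nat.div_lt_iff_lt_mul hq0, mul_comm]; exact h6
  have h13 := mem_of_window_full hw h11 h12
  have h14 : ((orRes g Y (9 * q) (9 * (r + 16 * κ)) (unpack p.1.1 p.1.2)) |||
      (exRes q (r + 16 * κ) p.2)).testBit (t / q) = true := h13
  rw [Nat.testBit_or, Bool.or_eq_true] at h14
  rcases h14 with h14 | h14
  · obtain ⟨a, _, h15, j, h16, h17⟩ := testBit_orRes _ _ _ _ _ _ h14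
    have h18 := Nat.div_add_mod (g a) (9 * q)
    rw [h15] at h18
    obtain ⟨d, hd⟩ : ∃ d, d = g a / (9 * q) := ⟨_, rfl⟩
    rw [← hd] at h17 h18
    -- `g a = 9 u`
    obtain ⟨u, hu⟩ : ∃ u, u = q * d + (r + 16 * κ) := ⟨_, rfl⟩
    have hgu : g a = 9 * u := by
      rw [hu, ← h18]
      have e1 : 9 * q * d = 9 * (q * d) := by ring
      omega
    have e1 : t = u + q * j := by
      rw [h17, hκ, Nat.mul_add] at h7
      omega
    rw [e1]
    exact hG a u hgu (by omega) j h16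
  · obtain ⟨t', h15, h16, h17⟩ := testBit_exRes _ _ _ _ h14
    have h18 := Nat.div_add_mod t' q
    have e1 : t = t' := by
      rw [← h7, h17, hκ, ← h16]; exact h18
    rw [e1]; exact h15

/-! ### direct windows -/

/-- full check of a direct window, without extra line -/
noncomputable def dirN (FL FE OFF TD NP NU : ℕ) (M : ℕ → ℕ) (s : ℕ) (st : ℕ → ℕ × ℕ × ℕ)
    (c : ℕ) (L : List ((ℕ × ℕ) × List (ℕ × ℕ × ℕ))) (r lo n : ℕ) : Bool :=
  @Bool.rec (fun _ => Bool) false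
    (@Bool.rec (fun _ => Bool) false
      (@Bool.rec (fun _ => Bool) false
        (chkW9 (gval FL FE OFF TD NP NU M s evN (Nat.mul (nat_lit 27) c) (PPn M s))
          (foldSh (nat_lit 1) (nat_lit 1) (msF M (ysF FL OFF NP M st) s)) (nat_lit 96) lo
          (Nat.sub (Nat.pow (nat_lit 2) n) (nat_lit 1)) L r)
        (Nat.beq (K0F M (Nat.sub (ln FL NP) OFF) st s) (Nat.mul (nat_lit 3) c)))
      (posF st s))
    (Nat.ble OFF (ln FL NP))

/-- full check of a direct window, with an extra line -/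
noncomputable def dirE (FL FE OFF TD NP NU : ℕ) (M : ℕ → ℕ) (s : ℕ) (st : ℕ → ℕ × ℕ × ℕ)
    (c Q P q : ℕ) (L : List ((ℕ × ℕ) × List (ℕ × ℕ × ℕ))) (r lo n : ℕ) : Bool :=
  @Bool.rec (fun _ => Bool) false
    (@Bool.rec (fun _ => Bool) false
      (@Bool.rec (fun _ => Bool) false
        (chkW9 (gval FL FE OFF TD NP NU M s (evE P Q)
            (Nat.mul (Nat.mul (nat_lit 27) P) c) (Nat.mul P (PPn M s)))
          (foldSh (nat_lit 1) (nat_lit 1) (msF M (ysF FL OFF NP M st) s)) q lo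
          (Nat.sub (Nat.pow (nat_lit 2) n) (nat_lit 1)) L r)
        (Nat.beq (K0F M (Nat.sub (ln FL NP) OFF) st s) (Nat.mul (nat_lit 3) c)))
      (posF st s))
    (Nat.ble OFF (ln FL NP))

section

variable {n : ℕ} {A B : Fin n → Fin n → ZMod 3} {k : Fin n → ℕ} {FL FE OFF TD NP NU : ℕ}

theorem dirN_spec {M : ℕ → ℕ} (h : CoreOK A B k M) (hT : TabOK A B k FL FE OFF TD NP NU)
    {s : ℕ} (hs : 0 < s) {st : ℕ → ℕ × ℕ × ℕ} {c : ℕ}
    {L : List ((ℕ × ℕ) × List (ℕ × ℕ × ℕ))} {r lo nn : ℕ} (hr : r % 2 = 1)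
    (hc : dirN FL FE OFF TD NP NU M s st c L r lo nn = true) :
    Win r (96 * lo) (96 * (lo + nn) - 1) := by
  unfold dirN at hc
  obtain ⟨h1, hc⟩ := brec_true hc
  obtain ⟨h2, hc⟩ := brec_true hc
  obtain ⟨h3, hc⟩ := brec_true hc
  have hM : ∀ i, 1 ≤ M i := fun i => (h.hM i).pos
  have hK := krepF hT M hM st s h2 h1
  have h4 : K0F M (Nat.sub (ln FL NP) OFF) st s = 3 * c := Nat.eq_of_beq_eq_true h3
  rw [h4] at hK
  push_cast at hK
  have hY := hY_of_fold hK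
  refine win_res9 (g := gval FL FE OFF TD NP NU M s evN (Nat.mul (nat_lit 27) c) (PPn M s))
    (Y := foldSh 1 1 (msF M (ysF FL OFF NP M st) s)) (q := 96) (L := L) ?_ (by norm_num) hr hc
  intro a u hu hu0 i hi
  have hg : 0 < gval FL FE OFF TD NP NU M s evN (Nat.mul (nat_lit 27) c) (PPn M s) a := by
    rw [hu]; omega
  obtain ⟨N', hN', h5⟩ := gval_specN hT M hM s (Nat.mul (nat_lit 27) c) a hg
  rw [hu] at h5
  refine good_core h hs (hY i hi) hN' _ ?_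
  have h6 : ((9 * u : ℕ) : ℤ) = ((27 * c : ℕ) : ℤ) + 2 * N' := h5
  push_cast at h6 ⊢
  linarith

theorem dirE_spec {M : ℕ → ℕ} (h : CoreOK A B k M) (hT : TabOK A B k FL FE OFF TD NP NU)
    {Q P q : ℕ} (hQ : Nm (3 * Q + 1)) (hP : P = Q + 3) (hq : q = 96 * P)
    {s : ℕ} (hs : 0 < s) {st : ℕ → ℕ × ℕ × ℕ} {c : ℕ}
    {L : List ((ℕ × ℕ) × List (ℕ × ℕ × ℕ))} {r lo nn : ℕ} (hr : r % 2 = 1)
    (hc : dirE FL FE OFF TD NP NU M s st c Q P q L r lo nn = true) :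
    Win r (q * lo) (q * (lo + nn) - 1) := by
  subst hP
  unfold dirE at hc
  obtain ⟨h1, hc⟩ := brec_true hc
  obtain ⟨h2, hc⟩ := brec_true hc
  obtain ⟨h3, hc⟩ := brec_true hc
  have hM : ∀ i, 1 ≤ M i := fun i => (h.hM i).pos
  have hK := krepF hT M hM st s h2 h1
  have h4 : K0F M (Nat.sub (ln FL NP) OFF) st s = 3 * c := Nat.eq_of_beq_eq_true h3
  rw [h4] at hK
  push_cast at hK
  have hY := hY_of_fold hK
  refine win_res9 (g := gval FL FE OFF TD NP NU M s (evE (Q + 3) Q)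
      (Nat.mul (Nat.mul (nat_lit 27) (Q + 3)) c) (Nat.mul (Q + 3) (PPn M s)))
    (Y := foldSh 1 1 (msF M (ysF FL OFF NP M st) s)) (q := q) (L := L) ?_ (by omega) hr hc
  intro a u hu hu0 i hi
  have hg : 0 < gval FL FE OFF TD NP NU M s (evE (Q + 3) Q)
      (Nat.mul (Nat.mul (nat_lit 27) (Q + 3)) c) (Nat.mul (Q + 3) (PPn M s)) a := by
    rw [hu]; omega
  obtain ⟨N', hN', h5⟩ := gval_specE hT M hM Q s (Nat.mul (Nat.mul (nat_lit 27) (Q + 3)) c) a hg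
  rw [hu] at h5
  refine good_coreE h hQ hs (hY i hi) hN' _ ?_
  have h6 : ((9 * u : ℕ) : ℤ) = ((27 * (Q + 3) * c : ℕ) : ℤ) + 2 * N' := h5
  rw [hq]
  push_cast at h6 ⊢
  linarith

/-! ### stable windows -/

/-- what a base window delivers: (h1) and (h2) at stage `s₀` -/
structure BaseOK (A B : Fin n → Fin n → ZMod 3) (k : Fin n → ℕ) (M : ℕ → ℕ) (s₀ a b c Bmax β : ℕ) :
    Prop where
  h1 : ∀ T : ℤ, (32 : ℤ) ∣ T - c → (a : ℤ) ≤ T → T ≤ b → 3 * T ∈ KInt (Hf A B k) M s₀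
  h2 : ∀ ρ : ℤ, ∃ B', 3 * B' ∈ NInt (Hf A B k) M s₀ ∧ (16 : ℤ) ∣ B' - β ∧ 0 ≤ B' ∧ B' ≤ Bmax ∧
      (81 : ℤ) ∣ 2 * B' - ρ
  h8 : (8 : ℤ) ∣ (β : ℤ) - c

/-- check of a base window: stages `0..s-1` folded, stage `s` by residues, library of stage `s+1` -/
noncomputable def baseC (FL OFF NP : ℕ) (M : ℕ → ℕ) (s s₀ : ℕ) (st : ℕ → ℕ × ℕ × ℕ)
    (c q lo nn β : ℕ) (L : List (ℕ × ℕ)) (β₂ ymax len₂ X₂ c' : ℕ) : Bool :=
  @Bool.rec (fun _ => Bool) false
    (@Bool.rec (fun _ => Bool) false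
      (@Bool.rec (fun _ => Bool) false
        (@Bool.rec (fun _ => Bool) false
          (@Bool.rec (fun _ => Bool) false
            (lvl (foldSh (nat_lit 1) (nat_lit 1) (msF M (ysF FL OFF NP M st) s)) q (M s) lo
              (Nat.sub (Nat.pow (nat_lit 2) nn) (nat_lit 1))
              (List.map (fun p => mapD (nat_lit 48) (nval FL OFF NP M s) (Nat.mul (nat_lit 3) β)
                (unpack p.1 p.2)) L) (nat_lit 0))
            (lib81 β₂ ymax (mapD (nat_lit 48) (nval FL OFF NP M s₀) (Nat.mul (nat_lit 3) β₂)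
              (unpack len₂ X₂))))
          (Nat.beq c' (Nat.add (Nat.mul q c) (Nat.mul (Nat.mul (nat_lit 2) (M s)) β))))
        (Nat.beq (Nat.mod β₂ (nat_lit 8)) (Nat.mod c' (nat_lit 8))))
      (Nat.beq (K0F M (Nat.sub (ln FL NP) OFF) st s) (Nat.mul (nat_lit 3) c)))
    (@Bool.rec (fun _ => Bool) false
      (@Bool.rec (fun _ => Bool) false
        (@Bool.rec (fun _ => Bool) false (posF st s) (Nat.ble OFF (ln FL NP)))
        (Nat.ble (nat_lit 1) β))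
      (Nat.ble (nat_lit 1) β₂))

theorem baseC_spec {M : ℕ → ℕ} (h : CoreOK A B k M) (hT : TabOK A B k FL FE OFF TD NP NU)
    {s s₀ : ℕ} (hs₀ : s₀ = s + 1) {st : ℕ → ℕ × ℕ × ℕ} {c q lo nn β : ℕ} {L : List (ℕ × ℕ)}
    {β₂ ymax len₂ X₂ c' : ℕ} (hq : q = 9 * (M s + 8))
    (hc : baseC FL OFF NP M s s₀ st c q lo nn β L β₂ ymax len₂ X₂ c' = true) {a b Bmax : ℕ}
    (ha : a = c' + 32 * (q * lo)) (hb : b + 1 = c' + 32 * (q * (lo + nn)))
    (hB : Bmax = β₂ + 16 * ymax) : BaseOK A B k M s₀ a b c' Bmax β₂ := by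
  unfold baseC at hc
  obtain ⟨h1, hc⟩ := brec_true hc
  obtain ⟨h2, hc⟩ := brec_true hc
  obtain ⟨h3, hc⟩ := brec_true hc
  obtain ⟨h4, hc⟩ := brec_true hc
  obtain ⟨h5, hc⟩ := brec_true hc
  obtain ⟨h6, h1⟩ := brec_true h1
  obtain ⟨h7, h1⟩ := brec_true h1
  obtain ⟨h8, h9⟩ := brec_true h1
  have hM : ∀ i, 1 ≤ M i := fun i => (h.hM i).pos
  have hβ₂ : 0 < β₂ := Nat.le_of_ble_eq_true h6
  have hβ : 0 < β := Nat.le_of_ble_eq_true h7
  have hK := krepF hT M hM st s h9 h8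
  have e1 : K0F M (Nat.sub (ln FL NP) OFF) st s = 3 * c := Nat.eq_of_beq_eq_true h2
  rw [e1] at hK
  push_cast at hK
  have hY := hY_of_fold hK
  have e2 : β₂ % 8 = c' % 8 := Nat.eq_of_beq_eq_true h3
  have e3 : c' = q * c + 2 * M s * β := Nat.eq_of_beq_eq_true h4
  have e3' : (c' : ℤ) = q * c + 2 * (M s : ℤ) * β := by rw [e3]; push_cast; ring
  refine ⟨?_, ?_, by omega⟩
  · intro T h10 h11 h12
    rw [hs₀]
    have hL : ∀ l ∈ List.map (fun p : ℕ × ℕ => mapD (nat_lit 48) (nval FL OFF NP M s)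
        (Nat.mul (nat_lit 3) β) (unpack p.1 p.2)) L, ∀ y ∈ l,
        3 * ((β : ℤ) + 16 * (y : ℤ)) ∈ NInt (Hf A B k) M s := by
      intro l hl y hy
      obtain ⟨p, _, rfl⟩ := List.mem_map.1 hl
      have := nrep_of hT M hM s (3 * β) p.1 p.2 (by omega) y hy
      have e : ((3 * β : ℕ) : ℤ) + 24 * ((2 : ℕ) : ℤ) * (y : ℤ) = 3 * ((β : ℤ) + 16 * (y : ℤ)) := by
        push_cast; ring
      rw [e] at this; exact this
    refine level_up (c := (c : ℤ)) (β := (β : ℤ)) hY hL hq hc T ?_ ?_ ?_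
    · rw [← e3']; exact h10
    · rw [← e3']
      rw [ha] at h11
      push_cast at h11 ⊢
      linarith
    · rw [← e3']
      have h13 : (b : ℤ) + 1 = c' + 32 * (q * (lo + nn)) := by exact_mod_cast hb
      push_cast
      linarith
  · intro ρ
    obtain ⟨y, hy, h13, h14⟩ := lib81_spec h5 ρ
    have := nrep_of hT M hM s₀ (3 * β₂) len₂ X₂ (by omega) y hy
    have e : ((3 * β₂ : ℕ) : ℤ) + 24 * ((2 : ℕ) : ℤ) * (y : ℤ) =
      3 * ((β₂ : ℤ) + 16 * (y : ℤ)) := by push_cast; ring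
    rw [e] at this
    refine ⟨(β₂ : ℤ) + 16 * (y : ℤ), this, ⟨(y : ℤ), by ring⟩, by positivity, ?_, h14⟩
    rw [hB]
    push_cast
    have : (y : ℤ) ≤ ymax := by exact_mod_cast h13
    linarith

/-- stable window from a base window, without extra line -/
theorem stabN_of_base {M : ℕ → ℕ} (h : CoreOK A B k M) (hT : TabOK A B k FL FE OFF TD NP NU)
    {s₀ : ℕ} (hs : 0 < s₀) (hM1 : ∀ i, s₀ ≤ i → M i = 1) {a b c Bmax β : ℕ}
    (hb : BaseOK A B k M s₀ a b c Bmax β) {β' xmax len X r lo hi : ℕ} (hβ' : 0 < β')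
    (hc : libTop β' 1 xmax (mapD (nat_lit 144) (gval FL FE OFF TD NP NU M s₀ evN (nat_lit 0)
      (PPn M s₀)) (Nat.mul (nat_lit 18) β') (unpack len X)) = true)
    (hr : (3 * c + 2 * β') % 16 = r % 16)
    (hlo : 210 * a + 6 * Bmax + 140 * (β' + 8 * xmax) ≤ 70 * lo) (hhi : hi ≤ 3 * b) :
    Stab r lo hi := by
  have hM : ∀ i, 1 ≤ M i := fun i => (h.hM i).pos
  refine stab_of h hs hM1 (a : ℤ) b c β β' Bmax ((β' + 8 * xmax : ℕ) : ℤ) r lo hi hb.h1 hb.h2 ?_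
    hb.h8 (by omega) (by push_cast; omega) (by omega)
  intro ρ hρ e
  obtain ⟨x, hx, h1, h2, h3⟩ := libTop_spec (by norm_num) hc ρ hρ e
  obtain ⟨a', _, ha'⟩ := mapD_spec hx
  have hg : 0 < gval FL FE OFF TD NP NU M s₀ evN (nat_lit 0) (PPn M s₀) a' := by
    rw [ha']
    change 0 < 18 * β' + _
    omega
  obtain ⟨N', hN', h5⟩ := gval_specN hT M hM s₀ (nat_lit 0) a' hg
  rw [ha'] at h5
  have h6 : ((18 * β' + 144 * x : ℕ) : ℤ) = ((0 : ℕ) : ℤ) + 2 * N' := h5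
  have h7 : N' = 9 * ((β' : ℤ) + 8 * (x : ℤ)) := by push_cast at h6; linarith
  rw [h7] at hN'
  refine ⟨(β' : ℤ) + 8 * (x : ℤ), hN', h2, by positivity, by push_cast; omega, ?_⟩
  simpa using h3

/-- stable window from a base window, with an extra line -/
theorem stabE_of_base {M : ℕ → ℕ} (h : CoreOK A B k M) (hT : TabOK A B k FL FE OFF TD NP NU)
    {s₀ : ℕ} (hs : 0 < s₀) (hM1 : ∀ i, s₀ ≤ i → M i = 1) {a b c Bmax β : ℕ}
    (hb : BaseOK A B k M s₀ a b c Bmax β) {Q P : ℕ} (hQ : Nm (3 * Q + 1)) (hP : P = Q + 3)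
    (hQ11 : P % 11 ≠ 0) {β' xmax len X r lo hi : ℕ} (hβ' : 0 < β')
    (hc : libTop β' P xmax (mapD (nat_lit 144) (gval FL FE OFF TD NP NU M s₀ (evE P Q) (nat_lit 0)
      (Nat.mul P (PPn M s₀))) (Nat.mul (nat_lit 18) β') (unpack len X)) = true)
    (hr : (3 * P * c + 2 * β') % 16 = r % 16)
    (hlo : 3 * P * (70 * a + 2 * Bmax) + 140 * (β' + 8 * xmax) ≤ 70 * lo)
    (hhi : hi ≤ 3 * P * b) : Stab r lo hi := by
  have hM : ∀ i, 1 ≤ M i := fun i => (h.hM i).pos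
  subst hP
  have hr2 : (16 : ℤ) ∣ ((3 * (Q + 3) * c + 2 * β' : ℕ) : ℤ) - (r : ℕ) := by omega
  have hlo2 : ((3 * (Q + 3) * (70 * a + 2 * Bmax) + 140 * (β' + 8 * xmax) : ℕ) : ℤ) ≤
    ((70 * lo : ℕ) : ℤ) := by exact_mod_cast hlo
  have hhi2 : ((hi : ℕ) : ℤ) ≤ ((3 * (Q + 3) * b : ℕ) : ℤ) := by exact_mod_cast hhi
  push_cast at hr2 hlo2 hhi2
  refine stab_ofE h hQ hQ11 hs hM1 (a : ℤ) b c β β' Bmax ((β' + 8 * xmax : ℕ) : ℤ) r lo hi
    hb.h1 hb.h2 ?_ hb.h8 hr2 (by push_cast; exact hlo2) hhi2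
  intro ρ hρ e
  obtain ⟨x, hx, h1, h2, h3⟩ := libTop_spec (by omega) hc ρ hρ e
  obtain ⟨a', _, ha'⟩ := mapD_spec hx
  have hg : 0 < gval FL FE OFF TD NP NU M s₀ (evE (Q + 3) Q) (nat_lit 0)
      (Nat.mul (Q + 3) (PPn M s₀)) a' := by
    rw [ha']
    change 0 < 18 * β' + _
    omega
  obtain ⟨N', hN', h5⟩ := gval_specE hT M hM Q s₀ (nat_lit 0) a' hg
  rw [ha'] at h5
  have h6 : ((18 * β' + 144 * x : ℕ) : ℤ) = ((0 : ℕ) : ℤ) + 2 * N' := h5
  have h7 : N' = 9 * ((β' : ℤ) + 8 * (x : ℤ)) := by push_cast at h6; linarith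
  rw [h7] at hN'
  refine ⟨(β' : ℤ) + 8 * (x : ℤ), hN', h2, by positivity, by push_cast; omega, ?_⟩
  push_cast at h3
  exact h3

end

end Pool.Agent.Lib.MP_cfac74_al.Cov
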